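import Mathlib
import Pool.Agent.H76.GL.Defs
import Pool.Agent.H76.RP.ZcF
import Pool.Agent.H21.GX.Simp

/-!
# Tameness measured on a larger disc: definitions
-/

set_option autoImplicit false

open Complex

namespace Pool.Agent.H76.SC

open Pool.Agent.H6 Pool.Agent.H76.CR Pool.Agent.H76.GL

/-- `t` is tame at the scale `r`, with growth `E`: for some `R` in `[r, 1]` and some `M`, `|ζ| ≤ e^(M R)` on the closed
disc of radius `R` around `1 + it`, `1 + log (1/R) ≤ M R` and `1 + M r ≤ E` -/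
def TM (r E t : ℝ) : Prop :=
  ∃ R M : ℝ, r ≤ R ∧ R ≤ 1 ∧ 1 + Real.log (1 / R) ≤ M * R ∧ Tame R (M * R) t ∧ 1 + M * r ≤ E

theorem TM.mono {r E E' t : ℝ} (h : TM r E t) (h' : E ≤ E') : TM r E' t := by
  obtain ⟨R, M, h1, h2, h3, h4, h5⟩ := h
  exact ⟨R, M, h1, h2, h3, h4, h5.trans h'⟩

theorem TM.aux {r R M : ℝ} (hr : 0 < r) (h1 : r ≤ R) (h2 : R ≤ 1) (h3 : 1 + Real.log (1 / R) ≤ M * R) :
    0 < R ∧ 0 ≤ Real.log (1 / R) ∧ 0 < M := by
  have hR : 0 < R := hr.trans_le h1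
  have hl : 0 ≤ Real.log (1 / R) := Real.log_nonneg (by rw [le_div_iff₀ hR]; linarith)
  refine ⟨hR, hl, ?_⟩
  by_contra h
  have : M * R ≤ 0 := mul_nonpos_of_nonpos_of_nonneg (not_lt.1 h) hR.le
  linarith

theorem TM.mono_r {r r' E t : ℝ} (hr : 0 < r') (h : TM r E t) (h' : r' ≤ r) : TM r' E t := by
  obtain ⟨R, M, h1, h2, h3, h4, h5⟩ := h
  obtain ⟨-, -, hM⟩ := TM.aux (hr.trans_le h') h1 h2 h3
  refine ⟨R, M, h'.trans h1, h2, h3, h4, ?_⟩
  have := mul_le_mul_of_nonneg_left h' hM.le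
  linarith

theorem TM.one_le {r E t : ℝ} (hr : 0 < r) (h : TM r E t) : 1 ≤ E := by
  obtain ⟨R, M, h1, h2, h3, h4, h5⟩ := h
  obtain ⟨-, -, hM⟩ := TM.aux hr h1 h2 h3
  have : 0 ≤ M * r := by positivity
  linarith

theorem TM.le_one {r E t : ℝ} (h : TM r E t) : r ≤ 1 := by
  obtain ⟨R, M, h1, h2, h3, h4, h5⟩ := h
  exact h1.trans h2

theorem TM.lt_abs {r E t : ℝ} (hr : 0 < r) (h : TM r E t) : r < |t| := by
  obtain ⟨R, M, h1, h2, h3, h4, h5⟩ := h
  exact h1.trans_lt (Pool.Agent.H21.GX.tame_abs (hr.trans_le h1) h4)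

/-- the earlier hypothesis, with `1 + E` in place of `E` -/
theorem TM.of_tame {r E t : ℝ} (hr : 0 < r) (hr1 : r ≤ 1) (hE : 1 + Real.log (1 / r) ≤ E)
    (h : Tame r E t) : TM r (1 + E) t := by
  have e : E / r * r = E := by field_simp
  exact ⟨r, E / r, le_rfl, hr1, by rw [e]; exact hE, by rw [e]; exact h, by rw [e]⟩

/-- neighbouring heights -/
theorem TM.shift {r E t t' : ℝ} (hr : 0 < r) (h : TM r E t) (ht : |t' - t| ≤ r / 2) :
    TM (r / 2) (2 * E) t' := by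
  obtain ⟨R, M, h1, h2, h3, h4, h5⟩ := h
  obtain ⟨hR, hl, hM⟩ := TM.aux hr h1 h2 h3
  refine ⟨R / 2, 4 * M, by linarith, by linarith, ?_, ?_, by linarith⟩
  · have e : Real.log (1 / (R / 2)) = Real.log 2 + Real.log (1 / R) := by
      rw [show 1 / (R / 2) = 2 * (1 / R) by field_simp, Real.log_mul (by norm_num) (by positivity)]
    have := Real.log_two_lt_d9
    rw [e]
    linarith
  · intro s hs
    have h6 := h4 s (by
      have e : s - (1 + t * I) = (s - (1 + t' * I)) + ((t' - t : ℝ) : ℂ) * I := by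
        push_cast
        ring
      rw [e]
      refine (norm_add_le _ _).trans ?_
      rw [norm_mul, Complex.norm_I, mul_one, Complex.norm_real, Real.norm_eq_abs]
      linarith)
    refine h6.trans (Real.exp_le_exp.2 ?_)
    have : 0 < M * R := by positivity
    linarith

end Pool.Agent.H76.SC
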