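import Mathlib
import Pool.Agent.H76.SC.Defs
import Pool.Agent.H76.GL.TameR
import Pool.Agent.H52.ZR.Low

/-!
# TmU: the unconditional tameness

PROOF: `l = log (T + 3) ≥ 1`, `m = 1 + log l`, `1 ≤ m ≤ l`, `w = (m/l)^(2/3) ≤ 1`, `R = max r (w/4) ≤ 1/4`.  `tameR` (constant
`C1`) at the radius `R` with `T' = T + C1 + 1` (`2R ≤ 1/2 ≤ |t|`): `Tame R (C1 (R^(3/2) log T' + loglog T' + log (1/R))) t`.
As in `ricU` (`H76/LP/Psi.lean`): `log T' ≤ K l`, `loglog T' ≤ K + log l ≤ 2 K m`, `K = 1 + log (C1 + 1)`;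
`log (1/R) ≤ log (4/w) ≤ 2 + m ≤ 3 m` (`log w = (2/3)(log m - log l)`, `log m ≥ 0`).  So with a constant `C2`, `M = C2 (R^(3/2) l + m)/R`:
`Tame R (M R) t` (`Tame.mono`), `1 + log (1/R) ≤ 4 m ≤ M R`.  `1 + M r`: if `R = r` (`w/4 ≤ r`): `m = w^(3/2) l ≤ 8 r^(3/2) l`, so
`M r ≤ 9 C2 r^(3/2) l`.  If `R = w/4`: `R^(3/2) l = m/8`, `M r = (9/8) C2 m 4 r/w`, `m/w = m^(1/3) l^(2/3) = vklam T`.
(See `H76/LP/NVa.lean` for the same computations.)  About 130 lines.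
-/

set_option autoImplicit false

open Complex

namespace Pool.Agent.H76.SC

open Pool.Agent.H76.CR Pool.Agent.H76.GL Pool.Agent.H52.ZR

theorem tmU : ∃ C : ℝ, 1 ≤ C ∧ ∀ r T t : ℝ, 0 < r → r ≤ 1 / 4 → 1 ≤ |t| → |t| ≤ T →
    TM r (C * (1 + r ^ (3 / 2 : ℝ) * Real.log (T + 3) + r * vklam T)) t := by
  obtain ⟨C1, hC1, hta⟩ := tameR
  obtain ⟨K, hK⟩ : ∃ K : ℝ, K = 1 + Real.log (C1 + 1) := ⟨_, rfl⟩
  have hlC : 0 ≤ Real.log (C1 + 1) := Real.log_nonneg (by linarith)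
  have hK1 : 1 ≤ K := by linarith
  obtain ⟨C2, hC2⟩ : ∃ C2 : ℝ, C2 = C1 * (K + 3) := ⟨_, rfl⟩
  have hC24 : 4 ≤ C2 := by
    have h1 := mul_le_mul hC1 (by linarith : (4:ℝ) ≤ K + 3) (by norm_num) (by linarith)
    linarith
  refine ⟨9 * C2 + 1, by linarith, fun r T t hr hr4 ht htT => ?_⟩
  obtain ⟨l, hl⟩ : ∃ l : ℝ, l = Real.log (T + 3) := ⟨_, rfl⟩
  have hT1 : 1 ≤ T := ht.trans htT
  have hl1 : 1 ≤ l := by
    rw [hl, Real.le_log_iff_exp_le (by linarith)]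
    linarith [Real.exp_one_lt_d9]
  have hl0 : 0 < l := by linarith
  obtain ⟨m, hm⟩ : ∃ m : ℝ, m = 1 + Real.log l := ⟨_, rfl⟩
  have hll : 0 ≤ Real.log l := Real.log_nonneg hl1
  have hm1 : 1 ≤ m := by linarith
  have hm0 : 0 < m := by linarith
  have hml : m ≤ l := by
    have := Real.log_le_sub_one_of_pos hl0
    linarith
  have hV : vklam T = l ^ (2 / 3 : ℝ) * m ^ (1 / 3 : ℝ) := by
    unfold vklam
    rw [hm, hl]
  rw [← hl, hV]
  obtain ⟨u, hu⟩ : ∃ u : ℝ, u = m / l := ⟨_, rfl⟩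
  have hu0 : 0 < u := hu ▸ div_pos hm0 hl0
  have hu1 : u ≤ 1 := hu ▸ (div_le_one hl0).2 hml
  obtain ⟨w, hw⟩ : ∃ w : ℝ, w = u ^ (2 / 3 : ℝ) := ⟨_, rfl⟩
  have hw0 : 0 < w := hw ▸ Real.rpow_pos_of_pos hu0 _
  have hw1 : w ≤ 1 := hw ▸ Real.rpow_le_one hu0.le hu1 (by norm_num)
  have hw32 : w ^ (3 / 2 : ℝ) = u := by
    rw [hw, ← Real.rpow_mul hu0.le]
    norm_num
  have hlogw : Real.log (1 / w) ≤ m - 1 := by
    rw [Real.log_div one_ne_zero hw0.ne', Real.log_one, hw, Real.log_rpow hu0, hu,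
      Real.log_div hm0.ne' hl0.ne']
    have h1 : 0 ≤ Real.log m := Real.log_nonneg hm1
    linarith
  have h432 : (4 : ℝ) ^ (3 / 2 : ℝ) = 8 := by
    rw [show (4 : ℝ) = 2 ^ (2 : ℝ) by norm_num, ← Real.rpow_mul (by norm_num)]
    norm_num
  obtain ⟨R, hR⟩ : ∃ R : ℝ, R = max r (w / 4) := ⟨_, rfl⟩
  have hrR : r ≤ R := hR ▸ le_max_left _ _
  have hwR : w / 4 ≤ R := hR ▸ le_max_right _ _
  have hR0 : 0 < R := hr.trans_le hrR
  have hR4 : R ≤ 1 / 4 := by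
    rw [hR]
    exact max_le hr4 (by linarith)
  have hlogR : Real.log (1 / R) ≤ 3 * m := by
    have h1 : 1 / R ≤ 4 * (1 / w) := by
      have h2 := one_div_le_one_div_of_le (by positivity : 0 < w / 4) hwR
      have h3 : 1 / (w / 4) = 4 * (1 / w) := by field_simp
      linarith
    have h2 := Real.log_le_log (by positivity) h1
    rw [Real.log_mul (by norm_num) (by positivity)] at h2
    have h3 : Real.log (4 : ℝ) ≤ 2 := by
      have h4 : Real.log (4 : ℝ) = 2 * Real.log 2 := by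
        rw [show (4 : ℝ) = 2 ^ 2 by norm_num, Real.log_pow]
        norm_num
      rw [h4]
      linarith [Real.log_two_lt_d9]
    linarith
  obtain ⟨T', hT'⟩ : ∃ T' : ℝ, T' = T + C1 + 1 := ⟨_, rfl⟩
  have hT'0 : 0 < T' := by linarith
  have hlT' : Real.log T' ≤ K * l := by
    have h1 : T' ≤ (T + 3) * (C1 + 1) := by
      have h2 : 0 ≤ T * C1 := by positivity
      rw [hT']
      linarith
    have h2 := Real.log_le_log hT'0 h1
    rw [Real.log_mul (by linarith) (by linarith), ← hl] at h2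
    have h3 := mul_le_mul_of_nonneg_left hl1 hlC
    rw [hK]
    linarith
  have hlT'0 : 0 < Real.log T' := Real.log_pos (by linarith)
  have hllT' : Real.log (Real.log T') ≤ K * m := by
    have h1 := Real.log_le_log hlT'0 hlT'
    rw [Real.log_mul (by linarith) hl0.ne'] at h1
    have h2 := Real.log_le_sub_one_of_pos (by linarith : 0 < K)
    have h3 : 0 ≤ (K - 1) * (m - 1) := mul_nonneg (by linarith) (by linarith)
    linarith
  obtain ⟨Q, hQ⟩ : ∃ Q : ℝ, Q = R ^ (3 / 2 : ℝ) * l := ⟨_, rfl⟩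
  have hR32 : 0 < R ^ (3 / 2 : ℝ) := Real.rpow_pos_of_pos hR0 _
  have hQ0 : 0 < Q := hQ ▸ mul_pos hR32 hl0
  have htame := hta R T' t hR0 hR4 (by linarith) (by linarith) (by linarith)
  have hE : C1 * (R ^ (3 / 2 : ℝ) * Real.log T' + Real.log (Real.log T') + Real.log (1 / R)) ≤
      C2 * (Q + m) := by
    have h1 : R ^ (3 / 2 : ℝ) * Real.log T' ≤ K * Q := by
      have h2 := mul_le_mul_of_nonneg_left hlT' hR32.le
      rw [hQ]
      linarith
    have h2 : R ^ (3 / 2 : ℝ) * Real.log T' + Real.log (Real.log T') + Real.log (1 / R) ≤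
        (K + 3) * (Q + m) := by linarith
    have h3 := mul_le_mul_of_nonneg_left h2 (by linarith : (0:ℝ) ≤ C1)
    rw [hC2, mul_assoc]
    exact h3
  have hMR : C2 * (Q + m) / R * R = C2 * (Q + m) := by field_simp
  have hC2m : 4 * m ≤ C2 * m := mul_le_mul_of_nonneg_right hC24 hm0.le
  have hC20 : 0 < C2 := by linarith
  have hC2Q : 0 < C2 * Q := mul_pos hC20 hQ0
  have hV0 : 0 < l ^ (2 / 3 : ℝ) * m ^ (1 / 3 : ℝ) := by positivity
  have hr32 : 0 < r ^ (3 / 2 : ℝ) := Real.rpow_pos_of_pos hr _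
  refine ⟨R, C2 * (Q + m) / R, hrR, by linarith, ?_, ?_, ?_⟩
  · rw [hMR]
    linarith
  · rw [hMR]
    exact htame.mono hE
  · have hrl : 0 < r ^ (3 / 2 : ℝ) * l := mul_pos hr32 hl0
    have hrV : 0 < r * (l ^ (2 / 3 : ℝ) * m ^ (1 / 3 : ℝ)) := mul_pos hr hV0
    have hP1 : 0 < C2 * (r ^ (3 / 2 : ℝ) * l) := mul_pos hC20 hrl
    have hP2 : 0 < C2 * (r * (l ^ (2 / 3 : ℝ) * m ^ (1 / 3 : ℝ))) := mul_pos hC20 hrV
    rcases le_total (w / 4) r with h | h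
    · have hRr : R = r := by rw [hR, max_eq_left h]
      have h1 : m ≤ 8 * (r ^ (3 / 2 : ℝ) * l) := by
        have h2 : w ^ (3 / 2 : ℝ) ≤ (4 * r) ^ (3 / 2 : ℝ) :=
          Real.rpow_le_rpow hw0.le (by linarith) (by norm_num)
        rw [hw32, Real.mul_rpow (by norm_num) hr.le, h432, hu, div_le_iff₀ hl0] at h2
        linarith
      have h2 : C2 * (Q + m) / R * r = C2 * (Q + m) := by
        rw [hRr]
        field_simp
      rw [h2, hQ, hRr]
      have h3 := mul_le_mul_of_nonneg_left h1 hC20.le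
      linarith
    · have hRw : R = w / 4 := by rw [hR, max_eq_right h]
      have h1 : Q = m / 8 := by
        rw [hQ, hRw, Real.div_rpow hw0.le (by norm_num), hw32, h432, hu]
        field_simp
      have h2 : m / w = l ^ (2 / 3 : ℝ) * m ^ (1 / 3 : ℝ) := by
        have h3 : 0 < m ^ (2 / 3 : ℝ) := Real.rpow_pos_of_pos hm0 _
        have h4 : 0 < l ^ (2 / 3 : ℝ) := Real.rpow_pos_of_pos hl0 _
        have h5 : m ^ (2 / 3 : ℝ) * m ^ (1 / 3 : ℝ) = m := by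
          rw [← Real.rpow_add hm0]
          norm_num
        rw [hw, hu, Real.div_rpow hm0.le hl0.le, div_div_eq_mul_div, div_eq_iff h3.ne']
        calc m * l ^ (2 / 3 : ℝ) = (m ^ (2 / 3 : ℝ) * m ^ (1 / 3 : ℝ)) * l ^ (2 / 3 : ℝ) := by
              rw [h5]
          _ = l ^ (2 / 3 : ℝ) * m ^ (1 / 3 : ℝ) * m ^ (2 / 3 : ℝ) := by ring
      have h3 : C2 * (Q + m) / R * r = 9 / 2 * (C2 * (r * (m / w))) := by
        rw [h1, hRw]
        field_simp
        ring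
      rw [h3, h2]
      linarith

end Pool.Agent.H76.SC
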