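import Mathlib
import Pool.Agent.H76.GL.Defs
import Pool.Agent.H76.LF.Low

/-!
# GrP: growth at bounded heights

PROOF: `zetaPole` is continuous and has no zero in `Re s ≥ 1` (`zetaPole_ne_zero_of_one_le`), so `‖zetaPole‖ ≥ m > 0` on the
compact set `{1 ≤ Re s ≤ 2, |Im s| ≤ 1}` and `‖zetaPole‖ ≤ M` on `closedBall 0 8`.  `C = log (M/m) + 1` or
`max 1 (log (M/m))`; see `nvb` in `H76/LP/NVb.lean`.  About 50 lines.
-/

set_option autoImplicit false

open Complex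

namespace Pool.Agent.H76.SC

open Pool.Agent.H6 Pool.Agent.H6.Win Pool.Agent.H76.CR Pool.Agent.H76.GL

theorem grP : ∃ C : ℝ, 1 ≤ C ∧ ∀ a t : ℝ, 0 < a → a ≤ 1 → |t| ≤ 1 → Gr a t C := by
  have hc : Continuous zetaPole := zetaPole_differentiable.continuous
  have hc1 : Continuous (fun p : ℝ × ℝ => ‖zetaPole (pt p.1 p.2)‖) := by
    have h4 : Continuous (fun p : ℝ × ℝ => pt p.1 p.2) := by
      unfold pt
      fun_prop
    exact (hc.comp h4).norm
  obtain ⟨q, hq, hmin⟩ := (isCompact_Icc.prod isCompact_Icc).exists_isMinOn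
    (s := Set.Icc (0 : ℝ) 1 ×ˢ Set.Icc (-1 : ℝ) 1)
    ⟨(0, 0), by constructor <;> constructor <;> norm_num⟩ hc1.continuousOn
  set m : ℝ := ‖zetaPole (pt q.1 q.2)‖ with hm
  have hm0 : 0 < m := by
    rw [hm, norm_pos_iff]
    apply zetaPole_ne_zero_of_one_le
    have h0 : 0 ≤ q.1 := hq.1.1
    unfold pt
    simp [h0]
  obtain ⟨M, hM⟩ := (isCompact_closedBall (0 : ℂ) 8).exists_bound_of_continuousOn
    hc.continuousOn
  have hM0 : 0 ≤ M := (norm_nonneg _).trans (hM 0 (Metric.mem_closedBall_self (by norm_num)))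
  have hr : 0 < (M + m) / m := by positivity
  refine ⟨max 1 (Real.log ((M + m) / m)), le_max_left _ _, fun a t ha ha1 ht =>
    ⟨le_max_left _ _, fun z hz => ?_⟩⟩
  have ht' := abs_le.1 ht
  have h1 : m ≤ ‖zetaPole (pt a t)‖ := hmin (a := (a, t)) ⟨⟨ha.le, ha1⟩, ⟨ht'.1, ht'.2⟩⟩
  have hpt : ‖pt a t‖ ≤ 3 := by
    unfold pt
    have e1 : ‖(1 : ℂ) + a + t * I‖ ≤ ‖(1 : ℂ)‖ + ‖(a : ℂ)‖ + ‖(t : ℂ) * I‖ := norm_add₃_le
    have e2 : ‖(t : ℂ) * I‖ ≤ 1 := by
      rw [norm_mul, norm_I, mul_one, Complex.norm_real]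
      exact ht
    have e3 : ‖(a : ℂ)‖ ≤ 1 := by
      rw [Complex.norm_real, Real.norm_eq_abs, abs_of_pos ha]
      exact ha1
    rw [norm_one] at e1
    push_cast at e1 ⊢
    linarith
  have hz8 : z ∈ Metric.closedBall (0 : ℂ) 8 := by
    rw [mem_closedBall_zero_iff]
    have h2 : ‖z - pt a t‖ ≤ 3 * a := by
      rw [← dist_eq_norm]
      exact hz
    have h3 := norm_le_norm_add_norm_sub' z (pt a t)
    linarith
  have h5 : (M + m) / m ≤ Real.exp (max 1 (Real.log ((M + m) / m))) := by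
    rw [← Real.log_le_iff_le_exp hr]
    exact le_max_right _ _
  calc ‖zetaPole z‖ ≤ M := hM z hz8
    _ ≤ M + m := by linarith
    _ = (M + m) / m * m := by field_simp
    _ ≤ Real.exp (max 1 (Real.log ((M + m) / m))) * ‖zetaPole (pt a t)‖ :=
      mul_le_mul h5 h1 hm0.le (Real.exp_pos _).le

end Pool.Agent.H76.SC
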