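import Mathlib
import Pool.Agent.H76.GL.Defs
import Pool.Agent.H76.LF.Low
import Pool.Agent.H52.RK.HlocG

/-!
# GrS: growth at a smaller scale

PROOF.  `c0 = pt a0 t`, `c = pt a t`, `P` = `zetaPole`.  `C` large (`C ≥ 8`), so `a ≤ a0/8`, and every `z` in
`closedBall c (3a)` has `‖z - c0‖ ≤ 4a + a0 ≤ (3/2) a0` and lies in `closedBall c0 (2 a0)`.
(1) Decomposition.  `logDeriv_le_of_ne_zero`, `exists_factor`, `order_eq_of_factor` (`H6/HalfJensen.lean`,
`H6/Win/LocLog.lean`), or directly `exists_HG` (`H52/RK/HlocG.lean`) with `η = 1/2`, radius `2 a0` (`(1 + η) 2 a0 = 3 a0`,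
`G = Λ`): a finset `S` (the zeros of `P` in `closedBall c0 ((5/2) a0)`), `H` differentiable on `ball c0 ((5/2) a0)`,
`‖H‖ ≤ C1 Λ/(2 a0)` on `closedBall c0 (2 a0)`, `P'/P = ∑_{u ∈ S} zord u/(z - u) + H z` if `P z ≠ 0`.
`exists_factor` for `P` on `closedBall c0 ((5/2) a0)` (`P c0 ≠ 0`): `P z = (∏_{u ∈ S'} (z - u)^(n u)) g z`, `g ≠ 0`, `g`
analytic there, all `u ∈ S'` are zeros of `P`.  Where `P z ≠ 0` (`‖z - c0‖ < (5/2) a0`): `P'/P = ∑_{S'} n u/(z - u) + g'/g`.
The two formulas agree (`n u = zord u` for `u ∈ S'` with `‖u - c0‖ < (5/2) a0` by `order_eq_of_factor`; to have no trouble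
on the boundary use `exists_factor` with the radius `(9/4) a0` and bound the additional zeros, or take the easier way:
redo the last lines of `loc_log_an` (`H6/Unc/LocAn.lean`), where the function `G` is explicit).
EASIEST: prove as a private lemma, copying the proof of `loc_log_an` (`R0 < R1 < R2`): there are a finset `S`, `n : ℂ → ℕ`
and `G` with `f z = (∏_{u ∈ S} (z - u)^(n u)) G z` on `closedBall c R1`, all `u ∈ S` zeros of `f`, `G` analytic and `≠ 0` on
`ball c R1`, `‖G'/G‖ ≤ C Λ` on `closedBall c R0` (there: `G` here is the `G` of that proof divided by the Blaschke type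
factors `b u z`, whose logarithmic derivatives are bounded by `n u K`).  Scale as in `exists_HG`.
(2) So `P z = (∏ (z - u)^(n u)) G z`, `‖G'/G‖ ≤ C1 Λ/a0` on `closedBall c0 ((3/2) a0)`.  `z` in `closedBall c (3a)`: along the
segment from `c` to `z`, Gronwall (`norm_le_gronwallBound_of_norm_deriv_right_le`, see `iv_gron` in `H76/LF/Inv.lean`):
`‖G z‖ ≤ ‖G c‖ exp (3a C1 Λ/a0)`.
(3) `w = (z - c)/(c - u)` (`Re (c - u) ≥ a` as `Re u < 1`): `‖1 + w‖² = 1 + 2 Re w + ‖w‖² ≤ exp (2 Re w + ‖w‖²)`, so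
`‖z - u‖ ≤ ‖c - u‖ exp (Re w + ‖w‖²/2)` and
`∏ ‖z - u‖^n ≤ (∏ ‖c - u‖^n) exp (∑ n Re w + ∑ n ‖w‖²/2)`.  `∑ n Re w = Re ((z - c) ∑ n/(c - u)) ≤ 3a ‖∑ n/(c - u)‖`,
`∑ n ‖w‖² ≤ 9 a² ∑ n/‖c - u‖² ≤ 9 a Re ∑ n/(c - u)` (`Re 1/(c-u) = Re (c-u)/‖c-u‖² ≥ a/‖c-u‖²`).
(4) `∑ n/(c - u) = P'/P(c) - G'/G(c)`, `P'/P(c) = ζ'/ζ(c) + 1/(c - 1)` (`neg_logDeriv_zetaPole`, see `real_pt` in
`LF/Low.lean` or `H76/LP/NVb.lean`), norms `≤ 1/a + C2` (`lowA`) and `≤ 1/a`.  So `‖∑ n/(c - u)‖ ≤ 2/a + C2 + C1 Λ/a0` and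
`log (‖P z‖/‖P c‖) ≤ (3a + 9a/2)(2/a + C2 + C1 Λ/a0) + 3a C1 Λ/a0 ≤ C (1 + a Λ/a0)`.
About 250 lines.
-/

set_option autoImplicit false

open Complex

namespace Pool.Agent.H76.SC

open Pool.Agent.H6 Pool.Agent.H6.Win Pool.Agent.H76.CR Pool.Agent.H76.GL Pool.Agent.H76.LF

section

open Metric Filter Topology Set

/-- factorisation with control of the zero free part -/
private theorem gs_fac {R0 R1 R2 : ℝ} (h0 : 0 < R0) (h01 : R0 < R1) (h12 : R1 < R2) :
    ∃ C : ℝ, 0 < C ∧ ∀ (f : ℂ → ℂ) (c : ℂ) (Λ : ℝ), 0 < Λ →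
      AnalyticOnNhd ℂ f (closedBall c R2) → f c ≠ 0 →
      (∀ z ∈ closedBall c R2, ‖f z‖ ≤ Real.exp Λ * ‖f c‖) →
      ∃ (S : Finset ℂ) (n : ℂ → ℕ) (h : ℂ → ℂ), (∀ u ∈ S, f u = 0) ∧
        AnalyticOnNhd ℂ h (closedBall c R2) ∧
        (∀ z ∈ ball c R1, h z ≠ 0) ∧
        (∀ z ∈ closedBall c R2, f z = (∏ u ∈ S, (z - u) ^ (n u)) * h z) ∧
        ∀ z ∈ closedBall c R0, ‖deriv h z / h z‖ ≤ C * Λ := by
  classical
  obtain ⟨C1, hC1, hlog⟩ := logDeriv_le_of_ne_zero h0 h01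
  have hR1 : 0 < R1 := by linarith
  have hR2 : 0 < R2 := by linarith
  have hlr : 0 < Real.log (R2 / R1) := Real.log_pos (by rw [lt_div_iff₀ hR1]; linarith)
  have hq : 0 < R2 ^ 2 - R1 * R1 := by nlinarith
  set K : ℝ := 1 / Real.log (R2 / R1) with hK
  have hKpos : 0 < K := by positivity
  refine ⟨K + (C1 + K * (R1 / (R2 ^ 2 - R1 * R1))), by positivity, ?_⟩
  intro f c Λ hΛ hf hfc hup
  obtain ⟨S2, n, g, hg, hgne, hS, hfac⟩ := exists_factor hR2 hf hfc
  set S : Finset ℂ := S2.filter (fun u => u ∈ closedBall c R1 ∧ f u = 0 ∧ n u ≠ 0) with hSdef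
  have hcU : c ∈ closedBall c R2 := mem_closedBall_self hR2.le
  -- membership
  have hmem : ∀ u, u ∈ S ↔ (u ∈ closedBall c R1 ∧ f u = 0) := by
    intro u
    rw [hSdef, Finset.mem_filter]
    constructor
    · rintro ⟨_, h1, h2, _⟩; exact ⟨h1, h2⟩
    · rintro ⟨h1, h2⟩
      have hu2 : u ∈ closedBall c R2 := closedBall_subset_closedBall h12.le h1
      have h3 := h2
      rw [hfac u hu2] at h3
      rcases mul_eq_zero.1 h3 with h | h
      · rw [Finset.prod_eq_zero_iff] at h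
        obtain ⟨v, hv, h4⟩ := h
        have h5 : u - v = 0 := by
          by_contra h6
          exact (pow_ne_zero _ h6) h4
        have h6 : n v ≠ 0 := by
          intro h7
          rw [h7, pow_zero] at h4
          exact one_ne_zero h4
        have h8 : v = u := (sub_eq_zero.1 h5).symm
        subst h8
        exact ⟨hv, h1, h2, h6⟩
      · exact absurd h (hgne u hu2)
  have hball : ∀ u ∈ S, u ∈ ball c R2 := by
    intro u hu
    have := ((hmem u).1 hu).1
    rw [mem_closedBall] at this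
    rw [mem_ball]
    linarith
  have hnorm : ∀ u ∈ S, ‖u - c‖ ≤ R1 := by
    intro u hu
    have := ((hmem u).1 hu).1
    rwa [mem_closedBall, dist_eq_norm] at this
  have hsub : S ⊆ S2 := Finset.filter_subset _ _
  have hord : ∀ u ∈ S, analyticOrderNatAt f u = n u := fun u hu =>
    order_eq_of_factor hg hgne hf hfac (hsub hu) (hball u hu)
  have hn1 : ∀ u ∈ S, 1 ≤ n u := by
    intro u hu
    rw [hSdef, Finset.mem_filter] at hu
    exact Nat.one_le_iff_ne_zero.2 hu.2.2.2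
  -- the modified function
  set b : ℂ → ℂ → ℂ := blf c R2 with hb
  set G : ℂ → ℂ := fun z => (∏ u ∈ S, (b u z) ^ (n u)) * ((∏ u ∈ S2 \ S, (z - u) ^ (n u)) * g z)
    with hGdef
  have hfac' : ∀ z ∈ closedBall c R2,
      f z = (∏ u ∈ S, (z - u) ^ (n u)) * ((∏ u ∈ S2 \ S, (z - u) ^ (n u)) * g z) := by
    intro z hz
    rw [hfac z hz, ← mul_assoc]
    congr 1
    rw [mul_comm]
    exact (Finset.prod_sdiff hsub).symm
  have hGan : AnalyticOnNhd ℂ G (closedBall c R2) := by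
    intro z hz
    apply AnalyticAt.mul
    · apply Finset.analyticAt_fun_prod
      intro u _
      exact (blf_analyticAt c R2 u z).pow _
    · apply AnalyticAt.mul _ (hg z hz)
      apply Finset.analyticAt_fun_prod
      intro u _
      exact ((analyticAt_id.sub analyticAt_const).pow _)
  have hbne : ∀ u ∈ S, ∀ z ∈ closedBall c R2, b u z ≠ 0 := by
    intro u hu z hz
    rw [mem_closedBall, dist_eq_norm] at hz
    have h1 := norm_blf_ge hR2 (hnorm u hu) hz hR1.le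
    have h2 : 0 < (R2 ^ 2 - R1 * R2) / R2 := by
      apply div_pos _ hR2
      nlinarith
    intro h
    rw [hb] at h
    rw [h, norm_zero] at h1
    linarith
  -- modulus on the sphere
  have hsph : ∀ z, ‖z - c‖ = R2 → ‖G z‖ = ‖f z‖ := by
    intro z hz
    have hzc : z ∈ closedBall c R2 := by rw [mem_closedBall, dist_eq_norm, hz]
    rw [hfac' z hzc, hGdef]
    simp only
    rw [norm_mul, norm_mul (∏ u ∈ S, (z - u) ^ (n u))]
    congr 1
    rw [norm_prod, norm_prod]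
    refine Finset.prod_congr rfl fun u hu => ?_
    rw [norm_pow, norm_pow, hb, norm_blf_sphere hR2 hz]
  -- maximum modulus
  have hmax : ∀ z ∈ closedBall c R2, ‖G z‖ ≤ Real.exp Λ * ‖f c‖ := by
    intro z hz
    have hd : DiffContOnCl ℂ G (ball c R2) := by
      apply DifferentiableOn.diffContOnCl
      rw [closure_ball c hR2.ne']
      exact hGan.differentiableOn
    refine Complex.norm_le_of_forall_mem_frontier_norm_le isBounded_ball hd ?_ ?_
    · intro w hw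
      rw [frontier_ball c hR2.ne', mem_sphere, dist_eq_norm] at hw
      rw [hsph w hw]
      exact hup w (by rw [mem_closedBall, dist_eq_norm, hw])
    · rw [closure_ball c hR2.ne']; exact hz
  -- value at the centre
  have hcS : ∀ u ∈ S, c - u ≠ 0 := by
    intro u hu h
    have : u = c := (sub_eq_zero.1 h).symm
    rw [this] at hu
    exact hfc ((hmem c).1 hu).2
  have hGc : ‖G c‖ = (∏ u ∈ S, (R2 / ‖c - u‖) ^ (n u)) * ‖f c‖ := by
    rw [hfac' c hcU, hGdef]
    simp only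
    rw [norm_mul, norm_mul (∏ u ∈ S, (c - u) ^ (n u)), ← mul_assoc]
    congr 1
    rw [norm_prod, norm_prod, ← Finset.prod_mul_distrib]
    refine Finset.prod_congr rfl fun u hu => ?_
    have hb0 : ‖b u c‖ = R2 := by
      rw [hb]
      unfold blf
      rw [sub_self, mul_zero, sub_zero, norm_div, norm_pow, Complex.norm_real, Real.norm_eq_abs,
        abs_of_pos hR2]
      field_simp
    rw [norm_pow, norm_pow, hb0, ← mul_pow]
    congr 1
    have : 0 < ‖c - u‖ := norm_pos_iff.2 (hcS u hu)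
    field_simp
  have hfcpos : 0 < ‖f c‖ := norm_pos_iff.2 hfc
  have hGcge : (R2 / R1) ^ (∑ u ∈ S, n u) * ‖f c‖ ≤ ‖G c‖ := by
    rw [hGc, ← Finset.prod_pow_eq_pow_sum]
    gcongr with u hu
    · exact norm_pos_iff.2 (hcS u hu)
    · rw [← norm_neg, neg_sub]
      exact hnorm u hu
  -- number of zeros
  have hcount : (∑ u ∈ S, (n u : ℝ)) ≤ K * Λ := by
    have h1 : (R2 / R1) ^ (∑ u ∈ S, n u) ≤ Real.exp Λ := by
      have := hGcge.trans (hmax c hcU)
      exact le_of_mul_le_mul_right this hfcpos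
    have h2 := Real.log_le_log (by positivity) h1
    rw [Real.log_exp, Real.log_pow] at h2
    rw [hK, one_div, ← div_eq_inv_mul, le_div_iff₀ hlr]
    push_cast at h2
    exact h2
  -- the logarithmic derivative of G
  have hGne : ∀ z ∈ ball c R1, G z ≠ 0 := by
    intro z hz
    have hz2 : z ∈ closedBall c R2 :=
      closedBall_subset_closedBall h12.le (ball_subset_closedBall hz)
    refine mul_ne_zero (Finset.prod_ne_zero_iff.2 fun u hu => pow_ne_zero _ (hbne u hu z hz2))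
      (mul_ne_zero (Finset.prod_ne_zero_iff.2 fun u hu => ?_) (hgne z hz2))
    rw [Finset.mem_sdiff] at hu
    by_cases hnu : n u = 0
    · rw [hnu, pow_zero]; exact one_ne_zero
    · apply pow_ne_zero
      intro h
      have h1 : u = z := (sub_eq_zero.1 h).symm
      subst h1
      exact hu.2 ((hmem u).2 ⟨ball_subset_closedBall hz, (hS u hu.1).2⟩)
  have hGc_ge : ‖f c‖ ≤ ‖G c‖ := by
    refine le_trans ?_ hGcge
    have h1 : 1 ≤ (R2 / R1) ^ (∑ u ∈ S, n u) := by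
      apply one_le_pow₀
      rw [le_div_iff₀ hR1]; linarith
    nlinarith
  have hlogG := hlog G c Λ hΛ
    (hGan.differentiableOn.mono (ball_subset_closedBall.trans (closedBall_subset_closedBall h12.le)))
    hGne (fun z hz => (hmax z (closedBall_subset_closedBall h12.le (ball_subset_closedBall hz))).trans
      (by gcongr))
  set h : ℂ → ℂ := fun z => (∏ u ∈ S2 \ S, (z - u) ^ (n u)) * g z with hh
  have hhan : AnalyticOnNhd ℂ h (closedBall c R2) := by
    intro z hz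
    apply AnalyticAt.mul _ (hg z hz)
    apply Finset.analyticAt_fun_prod
    intro u _
    exact ((analyticAt_id.sub analyticAt_const).pow _)
  have hhne : ∀ z ∈ ball c R1, h z ≠ 0 := by
    intro z hz
    have := hGne z hz
    rw [hGdef] at this
    exact right_ne_zero_of_mul this
  refine ⟨S, n, h, fun u hu => ((hmem u).1 hu).2, hhan, hhne, hfac', ?_⟩
  intro z hz
  rw [mem_closedBall, dist_eq_norm] at hz
  have hzR1 : z ∈ ball c R1 := by rw [mem_ball, dist_eq_norm]; linarith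
  have hzR2 : z ∈ ball c R2 := by rw [mem_ball, dist_eq_norm]; linarith
  have hz2 := ball_subset_closedBall hzR2
  have h4 : ‖∑ u ∈ S, (n u : ℂ) * ((-(starRingEnd ℂ) (u - c) / R2) / b u z)‖ ≤
      K * Λ * (R1 / (R2 ^ 2 - R1 * R1)) := by
    calc ‖∑ u ∈ S, (n u : ℂ) * ((-(starRingEnd ℂ) (u - c) / R2) / b u z)‖
        ≤ ∑ u ∈ S, (n u : ℝ) * (R1 / (R2 ^ 2 - R1 * R1)) := by
          refine norm_sum_le_of_le _ fun u hu => ?_
          rw [norm_mul, Complex.norm_natCast]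
          gcongr
          have h5 := norm_blf_ge (z := z) (b := R1) hR2 (hnorm u hu) (by linarith) hR1.le
          rw [norm_div, norm_div, norm_neg, RCLike.norm_conj, Complex.norm_real,
            Real.norm_eq_abs, abs_of_pos hR2]
          have h6 : 0 < (R2 ^ 2 - R1 * R1) / R2 := by positivity
          calc ‖u - c‖ / R2 / ‖b u z‖ ≤ (R1 / R2) / ((R2 ^ 2 - R1 * R1) / R2) := by
                have := hnorm u hu
                have := norm_nonneg (u - c)
                rw [hb]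
                gcongr
            _ = R1 / (R2 ^ 2 - R1 * R1) := by
                field_simp
      _ = (∑ u ∈ S, (n u : ℝ)) * (R1 / (R2 ^ 2 - R1 * R1)) := by rw [Finset.sum_mul]
      _ ≤ K * Λ * (R1 / (R2 ^ 2 - R1 * R1)) := by gcongr
  have e2 : deriv G z / G z = (∑ u ∈ S, (n u : ℂ) * ((-(starRingEnd ℂ) (u - c) / R2) / b u z)) +
      deriv h z / h z := by
    rw [← logDeriv_apply, ← logDeriv_apply, hGdef, logDeriv_mul]
    · congr 1
      rw [logDeriv_prod]
      · refine Finset.sum_congr rfl fun u hu => ?_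
        rw [logDeriv_fun_pow (blf_hasDerivAt c R2 u z).differentiableAt, logDeriv_apply,
          (blf_hasDerivAt c R2 u z).deriv]
      · intro u hu
        exact pow_ne_zero _ (hbne u hu z hz2)
      · intro u hu
        exact (blf_hasDerivAt c R2 u z).differentiableAt.pow _
    · exact Finset.prod_ne_zero_iff.2 fun u hu => pow_ne_zero _ (hbne u hu z hz2)
    · exact hhne z hzR1
    · exact DifferentiableAt.fun_finsetProd fun u _ =>
        (blf_hasDerivAt c R2 u z).differentiableAt.pow _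
    · exact (hhan z hz2).differentiableAt
  have e3 : deriv h z / h z =
      deriv G z / G z - ∑ u ∈ S, (n u : ℂ) * ((-(starRingEnd ℂ) (u - c) / R2) / b u z) := by
    rw [e2]
    ring
  rw [e3]
  calc ‖deriv G z / G z - ∑ u ∈ S, (n u : ℂ) * ((-(starRingEnd ℂ) (u - c) / R2) / b u z)‖
      ≤ ‖deriv G z / G z‖ + ‖∑ u ∈ S, (n u : ℂ) * ((-(starRingEnd ℂ) (u - c) / R2) / b u z)‖ :=
        norm_sub_le _ _
    _ ≤ C1 * Λ + K * Λ * (R1 / (R2 ^ 2 - R1 * R1)) := by
        gcongr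
        exact hlogG z hz
    _ ≤ (K + (C1 + K * (R1 / (R2 ^ 2 - R1 * R1)))) * Λ := by
        have : 0 ≤ K * Λ := by positivity
        nlinarith

/-- Grönwall along a segment -/
private theorem gs_gron {h : ℂ → ℂ} {c : ℂ} {R M : ℝ} (hh : ∀ z ∈ closedBall c R, DifferentiableAt ℂ h z)
    (hne : ∀ z ∈ closedBall c R, h z ≠ 0) (hM : ∀ z ∈ closedBall c R, ‖deriv h z / h z‖ ≤ M)
    {p q : ℂ} (hp : p ∈ closedBall c R) (hq : q ∈ closedBall c R) :
    ‖h q‖ ≤ ‖h p‖ * Real.exp (‖q - p‖ * M) := by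
  have hseg : ∀ x : ℝ, 0 ≤ x → x ≤ 1 → p + (x : ℂ) * (q - p) ∈ closedBall c R := by
    intro x hx0 hx1
    have h1 := (convex_closedBall c R) hp hq (a := 1 - x) (b := x) (by linarith) hx0 (by ring)
    have h2 : (1 - x) • p + x • q = p + (x : ℂ) * (q - p) := by
      rw [Complex.real_smul, Complex.real_smul]
      push_cast
      ring
    rwa [h2] at h1
  have hder : ∀ x : ℝ, 0 ≤ x → x ≤ 1 → HasDerivAt (fun y : ℝ => h (p + (y : ℂ) * (q - p)))
      ((q - p) * deriv h (p + (x : ℂ) * (q - p))) x := by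
    intro x hx0 hx1
    have h1 := (hh _ (hseg x hx0 hx1)).hasDerivAt
    have h2 : HasDerivAt (fun y : ℝ => p + (y : ℂ) * (q - p)) (q - p) x := by
      have h3 : HasDerivAt (fun y : ℝ => (y : ℂ)) 1 x := Complex.ofRealCLM.hasDerivAt
      have h4 := (h3.mul_const (q - p)).const_add p
      rwa [one_mul] at h4
    have h5 := h1.scomp x h2
    rw [smul_eq_mul] at h5
    exact h5
  have hg := norm_le_gronwallBound_of_norm_deriv_right_le
    (f := fun x : ℝ => h (p + (x : ℂ) * (q - p)))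
    (f' := fun x : ℝ => (q - p) * deriv h (p + (x : ℂ) * (q - p)))
    (δ := ‖h p‖) (K := ‖q - p‖ * M) (ε := 0) (a := 0) (b := 1)
    (fun x hx => (hder x hx.1 hx.2).continuousAt.continuousWithinAt)
    (fun x hx => (hder x hx.1 hx.2.le).hasDerivWithinAt)
    (by
      simp only [ofReal_zero, zero_mul, add_zero]
      exact le_rfl)
    (fun x hx => by
      have h1 := hseg x hx.1 hx.2.le
      have h2 := hM _ h1
      have h3 : 0 < ‖h (p + (x : ℂ) * (q - p))‖ := norm_pos_iff.2 (hne _ h1)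
      rw [norm_div, div_le_iff₀ h3] at h2
      rw [norm_mul, add_zero, mul_assoc]
      exact mul_le_mul_of_nonneg_left h2 (norm_nonneg _))
    1 ⟨zero_le_one, le_rfl⟩
  rw [gronwallBound_ε0, sub_zero, mul_one] at hg
  simp only [ofReal_one, one_mul] at hg
  have e : p + (q - p) = q := by ring
  rwa [e] at hg

/-- one factor -/
private theorem gs_one {w p u : ℂ} (hu : p - u ≠ 0) :
    ‖w - u‖ ≤ ‖p - u‖ * Real.exp (((w - p) / (p - u)).re + ‖w - p‖ ^ 2 * ‖p - u‖⁻¹ ^ 2 / 2) := by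
  set o : ℂ := (w - p) / (p - u) with ho
  have e : w - u = (p - u) * (1 + o) := by
    rw [ho]
    field_simp
    ring
  have hon : ‖w - p‖ ^ 2 * ‖p - u‖⁻¹ ^ 2 = ‖o‖ ^ 2 := by
    rw [ho, norm_div, div_eq_mul_inv]
    ring
  rw [e, norm_mul, hon]
  apply mul_le_mul_of_nonneg_left _ (norm_nonneg _)
  have h1 : ‖1 + o‖ ^ 2 = 1 + (2 * o.re + ‖o‖ ^ 2) := by
    rw [← Complex.normSq_eq_norm_sq, ← Complex.normSq_eq_norm_sq, Complex.normSq_apply,
      Complex.normSq_apply]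
    simp only [Complex.add_re, Complex.one_re, Complex.add_im, Complex.one_im]
    ring
  have h2 : ‖1 + o‖ ^ 2 ≤ Real.exp (o.re + ‖o‖ ^ 2 / 2) ^ 2 := by
    rw [h1, ← Real.exp_nat_mul]
    have h3 := Real.add_one_le_exp (2 * o.re + ‖o‖ ^ 2)
    have e2 : ((2 : ℕ) : ℝ) * (o.re + ‖o‖ ^ 2 / 2) = 2 * o.re + ‖o‖ ^ 2 := by
      push_cast
      ring
    rw [e2]
    linarith
  exact (sq_le_sq₀ (norm_nonneg _) (Real.exp_nonneg _)).1 h2

/-- the main inequality -/
private theorem gs_core {f h : ℂ → ℂ} {S : Finset ℂ} {n : ℂ → ℕ} {e B M : ℝ} {p w : ℂ} (he : 0 < e)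
    (hfw : f w = (∏ u ∈ S, (w - u) ^ (n u)) * h w) (hfp : f p = (∏ u ∈ S, (p - u) ^ (n u)) * h p)
    (hS : ∀ u ∈ S, e ≤ (p - u).re) (hw : ‖w - p‖ ≤ 3 * e)
    (hB : ‖∑ u ∈ S, (n u : ℂ) / (p - u)‖ ≤ B) (hh : ‖h w‖ ≤ ‖h p‖ * Real.exp M) :
    ‖f w‖ ≤ Real.exp (15 / 2 * e * B + M) * ‖f p‖ := by
  have hne : ∀ u ∈ S, p - u ≠ 0 := by
    intro u hu h0
    have := hS u hu
    rw [h0, Complex.zero_re] at this
    linarith
  set A : ℂ := ∑ u ∈ S, (n u : ℂ) / (p - u) with hA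
  have hB0 : 0 ≤ B := (norm_nonneg _).trans hB
  have hterm : ∀ u ∈ S, (n u : ℝ) * (((w - p) / (p - u)).re + ‖w - p‖ ^ 2 * ‖p - u‖⁻¹ ^ 2 / 2) =
      ((w - p) * ((n u : ℂ) / (p - u))).re + ‖w - p‖ ^ 2 / 2 * ((n u : ℝ) * ‖p - u‖⁻¹ ^ 2) := by
    intro u hu
    have e1 : (w - p) * ((n u : ℂ) / (p - u)) = ((n u : ℝ) : ℂ) * ((w - p) / (p - u)) := by
      push_cast
      ring
    rw [e1, Complex.re_ofReal_mul]
    ring
  have hq : e * ∑ u ∈ S, (n u : ℝ) * ‖p - u‖⁻¹ ^ 2 ≤ B := by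
    have h1 : e * ∑ u ∈ S, (n u : ℝ) * ‖p - u‖⁻¹ ^ 2 ≤ A.re := by
      rw [hA, Complex.re_sum, Finset.mul_sum]
      refine Finset.sum_le_sum fun u hu => ?_
      have e1 : (n u : ℂ) / (p - u) = ((n u : ℝ) : ℂ) * (p - u)⁻¹ := by
        push_cast
        ring
      rw [e1, Complex.re_ofReal_mul, Complex.inv_re, Complex.normSq_eq_norm_sq, inv_pow]
      have h2 := hS u hu
      have h3 : 0 ≤ (‖p - u‖ ^ 2)⁻¹ := by positivity
      have h4 : e * (‖p - u‖ ^ 2)⁻¹ ≤ (p - u).re * (‖p - u‖ ^ 2)⁻¹ := mul_le_mul_of_nonneg_right h2 h3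
      have h5 : (0 : ℝ) ≤ n u := Nat.cast_nonneg _
      calc e * ((n u : ℝ) * (‖p - u‖ ^ 2)⁻¹) = (n u : ℝ) * (e * (‖p - u‖ ^ 2)⁻¹) := by ring
        _ ≤ (n u : ℝ) * ((p - u).re * (‖p - u‖ ^ 2)⁻¹) := mul_le_mul_of_nonneg_left h4 h5
        _ = (n u : ℝ) * ((p - u).re / ‖p - u‖ ^ 2) := by rw [div_eq_mul_inv]
    exact h1.trans ((Complex.re_le_norm _).trans hB)
  have hsum : ∑ u ∈ S, (n u : ℝ) * (((w - p) / (p - u)).re + ‖w - p‖ ^ 2 * ‖p - u‖⁻¹ ^ 2 / 2) ≤
      15 / 2 * e * B := by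
    rw [Finset.sum_congr rfl hterm, Finset.sum_add_distrib, ← Complex.re_sum, ← Finset.mul_sum,
      ← Finset.mul_sum, ← hA]
    have h1 : ((w - p) * A).re ≤ 3 * e * B := by
      refine (Complex.re_le_norm _).trans ?_
      rw [norm_mul]
      exact mul_le_mul hw hB (norm_nonneg _) (by positivity)
    have h2 : ‖w - p‖ ^ 2 ≤ (3 * e) ^ 2 := pow_le_pow_left₀ (norm_nonneg _) hw 2
    have h3 : 0 ≤ ∑ u ∈ S, (n u : ℝ) * ‖p - u‖⁻¹ ^ 2 :=
      Finset.sum_nonneg fun u _ => by positivity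
    have h4 : ‖w - p‖ ^ 2 / 2 * ∑ u ∈ S, (n u : ℝ) * ‖p - u‖⁻¹ ^ 2 ≤
        (3 * e) ^ 2 / 2 * ∑ u ∈ S, (n u : ℝ) * ‖p - u‖⁻¹ ^ 2 :=
      mul_le_mul_of_nonneg_right (by linarith) h3
    have h5 : (3 * e) ^ 2 / 2 * ∑ u ∈ S, (n u : ℝ) * ‖p - u‖⁻¹ ^ 2 =
        9 / 2 * e * (e * ∑ u ∈ S, (n u : ℝ) * ‖p - u‖⁻¹ ^ 2) := by ring
    have h6 : 9 / 2 * e * (e * ∑ u ∈ S, (n u : ℝ) * ‖p - u‖⁻¹ ^ 2) ≤ 9 / 2 * e * B :=
      mul_le_mul_of_nonneg_left hq (by positivity)
    linarith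
  have hprod : ∏ u ∈ S, ‖w - u‖ ^ (n u) ≤
      (∏ u ∈ S, ‖p - u‖ ^ (n u)) * Real.exp (15 / 2 * e * B) := by
    have h1 : ∏ u ∈ S, ‖w - u‖ ^ (n u) ≤ ∏ u ∈ S, (‖p - u‖ ^ (n u) *
        Real.exp ((n u : ℝ) * (((w - p) / (p - u)).re + ‖w - p‖ ^ 2 * ‖p - u‖⁻¹ ^ 2 / 2))) := by
      refine Finset.prod_le_prod (fun u _ => by positivity) fun u hu => ?_
      rw [Real.exp_nat_mul, ← mul_pow]
      exact pow_le_pow_left₀ (norm_nonneg _) (gs_one (hne u hu)) _
    rw [Finset.prod_mul_distrib, ← Real.exp_sum] at h1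
    refine h1.trans ?_
    exact mul_le_mul_of_nonneg_left (Real.exp_le_exp.2 hsum)
      (Finset.prod_nonneg fun u _ => by positivity)
  rw [hfw, hfp, norm_mul, norm_mul, norm_prod, norm_prod]
  simp only [norm_pow]
  calc (∏ u ∈ S, ‖w - u‖ ^ (n u)) * ‖h w‖
      ≤ ((∏ u ∈ S, ‖p - u‖ ^ (n u)) * Real.exp (15 / 2 * e * B)) * (‖h p‖ * Real.exp M) :=
        mul_le_mul hprod hh (norm_nonneg _)
          (mul_nonneg (Finset.prod_nonneg fun u _ => by positivity) (Real.exp_nonneg _))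
    _ = Real.exp (15 / 2 * e * B + M) * ((∏ u ∈ S, ‖p - u‖ ^ (n u)) * ‖h p‖) := by
        rw [Real.exp_add]
        ring

/-- the logarithmic derivative of the factorisation -/
private theorem gs_ld {f h : ℂ → ℂ} {S : Finset ℂ} {n : ℂ → ℕ} {c p : ℂ} {R : ℝ} (hp : p ∈ ball c R)
    (hf : ∀ z ∈ closedBall c R, f z = (∏ u ∈ S, (z - u) ^ (n u)) * h z)
    (hh : AnalyticOnNhd ℂ h (closedBall c R)) (hhp : h p ≠ 0) (hne : ∀ u ∈ S, p - u ≠ 0) :
    deriv f p / f p = (∑ u ∈ S, (n u : ℂ) / (p - u)) + deriv h p / h p := by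
  have h1 : f =ᶠ[𝓝 p] fun z => (∏ u ∈ S, (z - u) ^ (n u)) * h z := by
    filter_upwards [isOpen_ball.mem_nhds hp] with w hw
    exact hf w (ball_subset_closedBall hw)
  have h2 : logDeriv f p = logDeriv (fun z => (∏ u ∈ S, (z - u) ^ (n u)) * h z) p := by
    rw [logDeriv_apply, logDeriv_apply, h1.deriv_eq, h1.self_of_nhds]
  rw [← logDeriv_apply, ← logDeriv_apply, h2, logDeriv_mul]
  · congr 1
    rw [logDeriv_prod]
    · refine Finset.sum_congr rfl fun u hu => ?_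
      rw [logDeriv_fun_pow (by fun_prop), logDeriv_apply]
      simp [div_eq_mul_inv]
    · intro u hu
      exact pow_ne_zero _ (hne u hu)
    · intro u hu
      fun_prop
  · exact Finset.prod_ne_zero_iff.2 fun u hu => pow_ne_zero _ (hne u hu)
  · exact hhp
  · fun_prop
  · exact (hh p (ball_subset_closedBall hp)).differentiableAt

/-- `zetaPole'/zetaPole` at `1 + a + it` -/
private theorem gs_pt {C2 a : ℝ} (ha : 0 < a)
    (hC2 : ∀ t : ℝ, ‖deriv riemannZeta (((1 + a : ℝ) : ℂ) + t * I) /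
      riemannZeta (((1 + a : ℝ) : ℂ) + t * I)‖ ≤ 1 / a + C2) (t : ℝ) :
    ‖deriv zetaPole (pt a t) / zetaPole (pt a t)‖ ≤ 2 / a + C2 := by
  have hre : (pt a t).re = 1 + a := by rw [pt]; simp
  have hz1 : 1 < (pt a t).re := by rw [hre]; linarith
  have h1 := neg_logDeriv_zetaPole hz1
  rw [ArithmeticFunction.LSeries_vonMangoldt_eq_deriv_riemannZeta_div hz1] at h1
  have h2 := hC2 t
  have e : ((1 + a : ℝ) : ℂ) + t * I = pt a t := rfl
  rw [e] at h2
  have h3 : ‖1 / (pt a t - 1)‖ ≤ 1 / a := by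
    rw [norm_div, norm_one]
    apply one_div_le_one_div_of_le ha
    have h4 := Complex.re_le_norm (pt a t - 1)
    rw [Complex.sub_re, hre, Complex.one_re] at h4
    linarith
  rw [← norm_neg, h1]
  refine (norm_sub_le _ _).trans ?_
  rw [norm_div, norm_neg, ← norm_div]
  have h5 : 2 / a = 1 / a + 1 / a := by ring
  rw [h5]
  linarith

end

theorem grS : ∃ C : ℝ, 1 ≤ C ∧ ∀ a a0 t Λ : ℝ, 0 < a → C * a ≤ a0 → a0 ≤ 1 / 4 →
    Gr a0 t Λ → Gr a t (C * (1 + a * Λ / a0)) := by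
  obtain ⟨C1, hC1, hfac⟩ := gs_fac (R0 := 3 / 2) (R1 := 2) (R2 := 3) (by norm_num) (by norm_num)
    (by norm_num)
  obtain ⟨C2, hC2, hlow⟩ := lowA
  refine ⟨15 + 8 * C2 + 11 * C1, by linarith, ?_⟩
  intro a a0 t Λ ha hCa ha0 hGr
  obtain ⟨hΛ1, hgr⟩ := hGr
  have hΛ : 0 < Λ := by linarith
  have h8 : 8 * a ≤ a0 := by nlinarith
  have h0 : 0 < a0 := by linarith
  have h0c : (a0 : ℂ) ≠ 0 := by exact_mod_cast h0.ne'
  set e : ℝ := a / a0 with he
  have he0 : 0 < e := by positivity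
  have hea : a0 * e = a := by rw [he]; field_simp
  have he8 : 8 * e ≤ 1 := by
    by_contra hcon
    push Not at hcon
    nlinarith
  set c0 : ℂ := pt a0 t with hc0
  have hc0re : c0.re = 1 + a0 := by rw [hc0, pt]; simp
  set f : ℂ → ℂ := fun w => zetaPole (c0 + (a0 : ℂ) * w) with hf
  have hfa : ∀ w, AnalyticAt ℂ f w := by
    intro w
    have h1 : AnalyticAt ℂ (fun w : ℂ => c0 + (a0 : ℂ) * w) w := by fun_prop
    exact (zetaPole_analyticAt _).comp h1
  have hf0 : f 0 = zetaPole c0 := by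
    rw [hf]
    simp only
    rw [mul_zero, add_zero]
  have hfc : f 0 ≠ 0 := by
    rw [hf0]
    exact zetaPole_ne_zero_of_one_le (by rw [hc0re]; linarith)
  have hup : ∀ w ∈ Metric.closedBall (0:ℂ) 3, ‖f w‖ ≤ Real.exp Λ * ‖f 0‖ := by
    intro w hw
    rw [Metric.mem_closedBall, dist_eq_norm, sub_zero] at hw
    have hz : c0 + (a0 : ℂ) * w ∈ Metric.closedBall c0 (3 * a0) := by
      rw [Metric.mem_closedBall, dist_eq_norm, add_sub_cancel_left, norm_mul, Complex.norm_real,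
        Real.norm_of_nonneg h0.le]
      nlinarith
    rw [hf0]
    exact hgr _ hz
  obtain ⟨S, n, h, hS, hhan, hhne, hfe, hhd⟩ := hfac f 0 Λ hΛ (fun w _ => hfa w) hfc hup
  -- the new centre
  set p : ℂ := ((-1 + e : ℝ) : ℂ) with hp
  have hfp : c0 + (a0 : ℂ) * p = pt a t := by
    rw [hp, hc0, pt, pt, ← hea]
    push_cast
    ring
  have hpn : ‖p‖ ≤ 1 := by
    rw [hp, Complex.norm_real, Real.norm_eq_abs, abs_le]
    constructor <;> linarith
  have hpball : p ∈ Metric.closedBall (0:ℂ) (3 / 2) := by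
    rw [Metric.mem_closedBall, dist_eq_norm, sub_zero]
    linarith
  have hSre : ∀ u ∈ S, e ≤ (p - u).re := by
    intro u hu
    have h1 := hS u hu
    have h2 : (c0 + (a0 : ℂ) * u).re < 1 := by
      by_contra hcon
      exact zetaPole_ne_zero_of_one_le (not_lt.1 hcon) h1
    rw [Complex.add_re, hc0re, Complex.re_ofReal_mul] at h2
    rw [Complex.sub_re, hp, Complex.ofReal_re]
    have h3 : u.re < -1 := by
      by_contra hcon
      push Not at hcon
      nlinarith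
    linarith
  have hSne : ∀ u ∈ S, p - u ≠ 0 := by
    intro u hu h0'
    have := hSre u hu
    rw [h0', Complex.zero_re] at this
    linarith
  have hhd0 := hhd p hpball
  have hld : ‖∑ u ∈ S, (n u : ℂ) / (p - u)‖ ≤ 2 / e + C2 + C1 * Λ := by
    have h1 := gs_ld (f := f) (h := h) (S := S) (n := n) (c := 0) (p := p) (R := 3)
      (by rw [Metric.mem_ball, dist_eq_norm, sub_zero]; linarith) hfe hhan
      (hhne p (by rw [Metric.mem_ball, dist_eq_norm, sub_zero]; linarith)) hSne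
    have hd : deriv f p / f p = (a0 : ℂ) * (deriv zetaPole (pt a t) / zetaPole (pt a t)) := by
      have hgd : HasDerivAt (fun w : ℂ => c0 + (a0 : ℂ) * w) (a0 : ℂ) p := by
        have h := ((hasDerivAt_id p).const_mul (a0 : ℂ)).const_add c0
        rw [mul_one] at h
        exact h
      have hz' : HasDerivAt zetaPole (deriv zetaPole (pt a t)) (c0 + (a0 : ℂ) * p) := by
        rw [hfp]
        exact (zetaPole_analyticAt _).differentiableAt.hasDerivAt
      have h5 := hz'.comp p hgd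
      have h6 : f = zetaPole ∘ (fun w : ℂ => c0 + (a0 : ℂ) * w) := rfl
      have h7 : f p = zetaPole (pt a t) := by
        rw [← hfp]
      rw [h7, h6, h5.deriv]
      ring
    have h2 : ∑ u ∈ S, (n u : ℂ) / (p - u) =
        (a0 : ℂ) * (deriv zetaPole (pt a t) / zetaPole (pt a t)) - deriv h p / h p := by
      rw [← hd, h1]
      ring
    rw [h2]
    refine (norm_sub_le _ _).trans ?_
    rw [norm_mul, Complex.norm_real, Real.norm_of_nonneg h0.le]
    have h3 := gs_pt ha (hlow a ha (by linarith)).1 t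
    have h4 : a0 * ‖deriv zetaPole (pt a t) / zetaPole (pt a t)‖ ≤ a0 * (2 / a + C2) :=
      mul_le_mul_of_nonneg_left h3 h0.le
    have h5 : a0 * (2 / a + C2) = 2 / e + a0 * C2 := by
      rw [he]
      field_simp
    have h6 : a0 * C2 ≤ C2 := by nlinarith
    linarith
  have hx : 0 ≤ a * Λ / a0 := by positivity
  refine ⟨by nlinarith, ?_⟩
  intro z hz
  rw [Metric.mem_closedBall, dist_eq_norm] at hz
  set w : ℂ := (z - c0) / a0 with hw
  have hzw : c0 + (a0 : ℂ) * w = z := by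
    rw [hw, mul_div_cancel₀ _ h0c, add_sub_cancel]
  have hwp : ‖w - p‖ ≤ 3 * e := by
    have h1 : z - pt a t = (a0 : ℂ) * (w - p) := by
      rw [← hfp, ← hzw]
      ring
    rw [h1, norm_mul, Complex.norm_real, Real.norm_of_nonneg h0.le] at hz
    by_contra hcon
    push Not at hcon
    nlinarith
  have hwn : ‖w‖ ≤ 3 / 2 := by
    have h1 : ‖w‖ ≤ ‖w - p‖ + ‖p‖ := by
      refine le_trans (le_of_eq ?_) (norm_add_le _ _)
      congr 1
      ring
    linarith
  have hwball : w ∈ Metric.closedBall (0:ℂ) (3 / 2) := by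
    rw [Metric.mem_closedBall, dist_eq_norm, sub_zero]
    exact hwn
  have hsub1 : Metric.closedBall (0:ℂ) (3 / 2) ⊆ Metric.ball (0:ℂ) 2 :=
    Metric.closedBall_subset_ball (by norm_num)
  have hsub2 : Metric.closedBall (0:ℂ) (3 / 2) ⊆ Metric.closedBall (0:ℂ) 3 :=
    Metric.closedBall_subset_closedBall (by norm_num)
  have hgron := gs_gron (h := h) (c := 0) (R := 3 / 2) (M := C1 * Λ)
    (fun z hz => (hhan z (hsub2 hz)).differentiableAt) (fun z hz => hhne z (hsub1 hz)) hhd hpball hwball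
  have hgron2 : ‖h w‖ ≤ ‖h p‖ * Real.exp (3 * e * (C1 * Λ)) := by
    refine hgron.trans (mul_le_mul_of_nonneg_left (Real.exp_le_exp.2 ?_) (norm_nonneg _))
    exact mul_le_mul_of_nonneg_right hwp (by positivity)
  have hcore := gs_core (f := f) (h := h) (S := S) (n := n) he0 (hfe w (hsub2 hwball))
    (hfe p (hsub2 hpball)) hSre hwp hld hgron2
  have hfw : f w = zetaPole z := by
    rw [← hzw]
  have hfp' : f p = zetaPole (pt a t) := by
    rw [← hfp]
  rw [hfw, hfp'] at hcore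
  refine hcore.trans (mul_le_mul_of_nonneg_right (Real.exp_le_exp.2 ?_) (norm_nonneg _))
  have e1 : a * Λ / a0 = e * Λ := by rw [he]; ring
  rw [e1]
  have e2 : 15 / 2 * e * (2 / e + C2 + C1 * Λ) = 15 + 15 / 2 * e * C2 + 15 / 2 * C1 * (e * Λ) := by
    have e3 : 15 / 2 * e * (2 / e + C2 + C1 * Λ) =
        15 * (e * (1 / e)) + 15 / 2 * e * C2 + 15 / 2 * C1 * (e * Λ) := by ring
    rw [e3, mul_one_div_cancel he0.ne', mul_one]
  rw [e2]
  have h9 : 0 ≤ e * Λ := by positivity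
  have h10 : 15 / 2 * e * C2 ≤ C2 := by nlinarith
  have h11 : 0 ≤ C1 * (e * Λ) := by positivity
  nlinarith

end Pool.Agent.H76.SC
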