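import Mathlib
import Pool.Agent.H76.SC.Defs
import Pool.Agent.H76.SC.GrS
import Pool.Agent.H76.GL.GrT
import Pool.Agent.H48.LD.Cnt

/-!
# GrM: growth and the number of zeros at tame heights
-/

set_option autoImplicit false

open Complex

namespace Pool.Agent.H76.SC

open Pool.Agent.H76.CR Pool.Agent.H76.RP Pool.Agent.H76.GL

theorem grM : ∃ C : ℝ, 1 ≤ C ∧ ∀ a r E t : ℝ, 0 < a → C * a ≤ r → TM r E t → Gr a t (C * E) := by
  obtain ⟨C1, hC1, h1⟩ := grS
  obtain ⟨C2, hC2, h2⟩ := grT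
  refine ⟨12 * (C1 * C2) + 4 * C1, by nlinarith, ?_⟩
  intro a r E t ha har hT
  have hCC : 0 < C1 * C2 := by positivity
  have hr : 0 < r := by
    have : 0 < (12 * (C1 * C2) + 4 * C1) * a := by positivity
    linarith
  obtain ⟨R, M, hrR, hR1, hM1, hTm, hE⟩ := hT
  obtain ⟨hR, hl, hM⟩ := TM.aux hr hrR hR1 hM1
  have hG := h2 (R / 4) R (M * R) t (by linarith) (by linarith) hR1 (by linarith) hTm
  have hl4 : Real.log (1 / (R / 4)) = Real.log 4 + Real.log (1 / R) := by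
    rw [show 1 / (R / 4) = 4 * (1 / R) by field_simp, Real.log_mul (by norm_num) (by positivity)]
  have hlog4 : Real.log 4 ≤ 2 := by
    rw [show (4 : ℝ) = 2 ^ 2 by norm_num, Real.log_pow]
    have := Real.log_two_lt_d9
    push_cast
    linarith
  have hG2 : Gr (R / 4) t (3 * C2 * (M * R)) := by
    refine hG.mono ?_
    rw [hl4]
    have h3 : M * R + (Real.log 4 + Real.log (1 / R)) ≤ 3 * (M * R) := by linarith
    have h4 := mul_le_mul_of_nonneg_left h3 (by linarith : 0 ≤ C2)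
    linarith
  have hCa : C1 * a ≤ R / 4 := by
    have h3 : 4 * C1 * a ≤ (12 * (C1 * C2) + 4 * C1) * a := by
      refine mul_le_mul_of_nonneg_right ?_ ha.le
      linarith
    linarith
  have hG3 := h1 a (R / 4) t (3 * C2 * (M * R)) ha hCa (by linarith) hG2
  refine hG3.mono ?_
  have h5 : a * (3 * C2 * (M * R)) / (R / 4) = 12 * C2 * (M * a) := by
    field_simp
    ring
  rw [h5]
  have har' : a ≤ r := by
    have h6 : 1 * a ≤ (12 * (C1 * C2) + 4 * C1) * a := by
      refine mul_le_mul_of_nonneg_right ?_ ha.le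
      linarith
    linarith
  have h6 : M * a ≤ M * r := mul_le_mul_of_nonneg_left har' hM.le
  have h7 : 12 * C2 * (M * a) ≤ 12 * C2 * (M * r) := mul_le_mul_of_nonneg_left h6 (by linarith)
  have h8 : 0 ≤ M * r := by positivity
  have h9 : C1 * (1 + 12 * C2 * (M * a)) ≤ C1 * (1 + 12 * C2 * (M * r)) :=
    mul_le_mul_of_nonneg_left (by linarith) (by linarith)
  have h10 : (12 * (C1 * C2) + 4 * C1) * (1 + M * r) ≤ (12 * (C1 * C2) + 4 * C1) * E :=
    mul_le_mul_of_nonneg_left hE (by positivity)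
  have h11 : (12 * (C1 * C2) + 4 * C1) * (1 + M * r) =
      C1 * (1 + 12 * C2 * (M * r)) + (12 * (C1 * C2) + 3 * C1 + 4 * C1 * (M * r)) := by ring
  have h12 : 0 ≤ 12 * (C1 * C2) + 3 * C1 + 4 * C1 * (M * r) := by positivity
  linarith

theorem jenM : ∃ C : ℝ, 1 ≤ C ∧ ∀ r E t : ℝ, 0 < r → TM r E t → 1 ≤ |t| →
    (zc (r / 2) t : ℝ) ≤ C * E := by
  obtain ⟨C, hC, h⟩ := Pool.Agent.H48.LD.cnt
  refine ⟨C, hC, fun r E t hr hT ht => ?_⟩
  obtain ⟨R, M, hrR, hR1, hM1, hTm, hE⟩ := hT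
  obtain ⟨hR, hl, hM⟩ := TM.aux hr hrR hR1 hM1
  refine (h R (M * R) t (r / 2) hR hR1 hM1 ht hTm (by linarith) (by linarith)).trans ?_
  refine mul_le_mul_of_nonneg_left ?_ (by linarith)
  have e : r / 2 * (M * R) / R = M * r / 2 := by
    field_simp
  rw [e]
  have : 0 ≤ M * r := by positivity
  linarith

end Pool.Agent.H76.SC
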