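import Mathlib
import Pool.Agent.H76.SC.GrM
import Pool.Agent.H76.GL.Main

/-!
# Par: the parameters
-/

set_option autoImplicit false

open Complex

namespace Pool.Agent.H76.SC

open Pool.Agent.H76.CR Pool.Agent.H76.RP Pool.Agent.H76.GL

theorem log_ge {E : ℝ} (hE : 1 ≤ E) : 1 ≤ Real.log (2 + E) := by
  rw [Real.le_log_iff_exp_le (by linarith)]
  have := Real.exp_one_lt_d9
  linarith

theorem par {CT : ℝ} (hCT : 1 ≤ CT) :
    ∃ C6 : ℝ, 1 ≤ C6 ∧ ∀ (E K : ℝ), 1 ≤ E → 1 ≤ K →
      1 ≤ Real.log ((2 + E) * K) ∧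
      Real.log (3 * (CT * E) * K) ≤ C6 * Real.log ((2 + E) * K) ∧
      Real.log (3 * (CT * E)) ≤ C6 * Real.log ((2 + E) * K) ∧
      0 < Real.log (3 * (CT * E)) ∧
      0 < Real.log (3 * (CT * E) * K) := by
  have hlC : 0 ≤ Real.log (3 * CT) := Real.log_nonneg (by linarith)
  refine ⟨1 + Real.log (3 * CT), by linarith, ?_⟩
  intro E K hE hK
  have hL3 := log_ge hE
  have hlK : 0 ≤ Real.log K := Real.log_nonneg hK
  have hLL : Real.log ((2 + E) * K) = Real.log (2 + E) + Real.log K :=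
    Real.log_mul (by linarith) (by linarith)
  have hCE : 1 ≤ CT * E := by nlinarith
  have h5 : Real.log (3 * (CT * E)) ≤ Real.log (3 * CT) + Real.log (2 + E) := by
    rw [← Real.log_mul (by linarith) (by linarith)]
    refine Real.log_le_log (by linarith) ?_
    have : 0 ≤ 3 * CT * 2 := by linarith
    nlinarith
  have h6 : Real.log (3 * (CT * E) * K) = Real.log (3 * (CT * E)) + Real.log K :=
    Real.log_mul (by linarith) (by linarith)
  have h7 : 0 < Real.log (3 * (CT * E)) := Real.log_pos (by linarith)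
  rw [h6, hLL]
  refine ⟨by linarith, ?_, ?_, h7, by linarith⟩ <;> nlinarith

end Pool.Agent.H76.SC
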