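import Mathlib
import Pool.Agent.H76.SC.TmU
import Pool.Agent.H76.SC.Par

/-!
# Phi: the unconditional tameness, logarithms
-/

set_option autoImplicit false

open Complex

namespace Pool.Agent.H76.SC

open Pool.Agent.H76.CR Pool.Agent.H76.GL Pool.Agent.H52.ZR

/-- `log (2 + r^(3/2) log (T + 3) + r V(T))`, `V(T) = (log (T + 3))^(2/3) (1 + loglog (T + 3))^(1/3)` -/
noncomputable def phi (r T : ℝ) : ℝ :=
  Real.log (2 + r ^ (3 / 2 : ℝ) * Real.log (T + 3) + r * vklam T)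

theorem phi_arg {r T : ℝ} (hr : 0 < r) (hT : 0 ≤ T) :
    0 ≤ r ^ (3 / 2 : ℝ) * Real.log (T + 3) ∧ 0 ≤ r * vklam T := by
  have h1 : 0 ≤ Real.log (T + 3) := Real.log_nonneg (by linarith)
  have h2 := vklam_ge hT
  exact ⟨by positivity, by positivity⟩

theorem phi_half {r T : ℝ} (hr : 0 < r) (hT : 0 ≤ T) : 1 / 2 ≤ phi r T := by
  obtain ⟨h1, h2⟩ := phi_arg hr hT
  unfold phi
  calc (1 / 2 : ℝ) ≤ Real.log 2 := by have := Real.log_two_gt_d9; linarith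
    _ ≤ _ := Real.log_le_log (by norm_num) (by linarith)

theorem phi_mono {r r' T : ℝ} (hr : 0 < r') (h : r' ≤ r) (hT : 0 ≤ T) : phi r' T ≤ phi r T := by
  obtain ⟨h1, h2⟩ := phi_arg hr hT
  unfold phi
  have h3 : 0 ≤ Real.log (T + 3) := Real.log_nonneg (by linarith)
  have h4 := vklam_ge hT
  refine Real.log_le_log (by linarith) ?_
  gcongr

theorem tmL : ∃ C : ℝ, 1 ≤ C ∧ ∀ r T : ℝ, 0 < r → r ≤ 1 / 4 → 1 ≤ T →
    ∃ E : ℝ, 1 ≤ E ∧ Real.log (2 + E) ≤ C * phi r T ∧ ∀ t : ℝ, 1 ≤ |t| → |t| ≤ T → TM r E t := by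
  obtain ⟨C, hC, h⟩ := tmU
  have hl : 0 ≤ Real.log (C + 1) := Real.log_nonneg (by linarith)
  refine ⟨1 + 2 * Real.log (C + 1), by linarith, ?_⟩
  intro r T hr hr4 hT
  obtain ⟨h1, h2⟩ := phi_arg hr (by linarith : 0 ≤ T)
  have hp := phi_half hr (by linarith : 0 ≤ T)
  refine ⟨C * (1 + r ^ (3 / 2 : ℝ) * Real.log (T + 3) + r * vklam T), ?_, ?_, fun t ht htT =>
    h r T t hr hr4 ht htT⟩
  · have : 0 ≤ (C - 1) * (1 + r ^ (3 / 2 : ℝ) * Real.log (T + 3) + r * vklam T) :=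
      mul_nonneg (by linarith) (by linarith)
    nlinarith
  · have h3 : 2 + C * (1 + r ^ (3 / 2 : ℝ) * Real.log (T + 3) + r * vklam T) ≤
        (C + 1) * (2 + r ^ (3 / 2 : ℝ) * Real.log (T + 3) + r * vklam T) := by
      nlinarith
    have h4 : 0 < 2 + C * (1 + r ^ (3 / 2 : ℝ) * Real.log (T + 3) + r * vklam T) := by positivity
    calc Real.log (2 + C * (1 + r ^ (3 / 2 : ℝ) * Real.log (T + 3) + r * vklam T))
        ≤ Real.log ((C + 1) * (2 + r ^ (3 / 2 : ℝ) * Real.log (T + 3) + r * vklam T)) :=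
          Real.log_le_log h4 h3
      _ = Real.log (C + 1) + phi r T := Real.log_mul (by linarith) (by linarith)
      _ ≤ (1 + 2 * Real.log (C + 1)) * phi r T := by nlinarith

end Pool.Agent.H76.SC
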