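import Mathlib
import Pool.Agent.H76.SC.Pri
import Pool.Agent.H76.SC.Phi
import Pool.Agent.H76.SC.GrP
import Pool.Agent.H76.GL.Main2

/-!
# DH: the Deuring-Heilbronn phenomenon around the combinations

As `localDH` (`H76/GL/Main2.lean`).
-/

set_option autoImplicit false

open Complex

namespace Pool.Agent.H76.SC

open Pool.Agent.H76.CR Pool.Agent.H76.RP Pool.Agent.H52.RK Pool.Agent.H52.ZR Pool.Agent.H76.GS
  Pool.Agent.H76.GL

theorem grV : ∃ C : ℝ, 1 ≤ C ∧ ∀ a r t : ℝ, 0 < a → C * a ≤ r → r ≤ 1 / 4 → r * vklam |t| ≤ 1 →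
    Gr a t C := by
  obtain ⟨C1, hC1, h1⟩ := grP
  obtain ⟨C2, hC2, h2⟩ := grM
  obtain ⟨C3, hC3, h3⟩ := tmU
  have h23 : 0 < C2 * C3 := by positivity
  refine ⟨C1 + C2 + 3 * (C2 * C3), by linarith, ?_⟩
  intro a r t ha har hr4 hv
  have hr : 0 < r := by
    have : 0 < (C1 + C2 + 3 * (C2 * C3)) * a := by positivity
    linarith
  have hC2a : C2 * a ≤ r := by
    refine le_trans (mul_le_mul_of_nonneg_right ?_ ha.le) har
    linarith
  have har' : a ≤ r := by
    refine le_trans ?_ hC2a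
    nlinarith
  rcases le_total |t| 1 with ht | ht
  · exact (h1 a t ha (by linarith) ht).mono (by linarith)
  · have hl1 : 1 ≤ Real.log (|t| + 3) := by
      rw [Real.le_log_iff_exp_le (by linarith)]
      have := Real.exp_one_lt_d9
      linarith
    have hp : r ^ (3 / 2 : ℝ) * Real.log (|t| + 3) ≤ 1 := by
      have h5 : r * Real.log (|t| + 3) ^ (2 / 3 : ℝ) ≤ 1 := by
        refine le_trans ?_ hv
        refine mul_le_mul_of_nonneg_left ?_ hr.le
        unfold vklam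
        have h6 : 1 ≤ (1 + Real.log (Real.log (|t| + 3))) ^ (1 / 3 : ℝ) :=
          Real.one_le_rpow (by linarith [Real.log_nonneg hl1]) (by norm_num)
        have h7 : 0 < Real.log (|t| + 3) ^ (2 / 3 : ℝ) := Real.rpow_pos_of_pos (by linarith) _
        nlinarith
      have h6 : r ^ (3 / 2 : ℝ) * Real.log (|t| + 3) =
          (r * Real.log (|t| + 3) ^ (2 / 3 : ℝ)) ^ (3 / 2 : ℝ) := by
        rw [Real.mul_rpow hr.le (Real.rpow_nonneg (by linarith) _),
          ← Real.rpow_mul (by linarith : 0 ≤ Real.log (|t| + 3))]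
        norm_num
      rw [h6]
      refine Real.rpow_le_one ?_ h5 (by norm_num)
      exact mul_nonneg hr.le (Real.rpow_nonneg (by linarith) _)
    have hT := h3 r |t| t hr hr4 ht le_rfl
    refine (h2 a r _ t ha hC2a hT).mono ?_
    have h8 : C3 * (1 + r ^ (3 / 2 : ℝ) * Real.log (|t| + 3) + r * vklam |t|) ≤ C3 * 3 :=
      mul_le_mul_of_nonneg_left (by linarith) (by linarith)
    have h9 := mul_le_mul_of_nonneg_left h8 (by linarith : 0 ≤ C2)
    linarith

theorem dh : ∃ c : ℝ, 0 < c ∧ ∀ (r E : ℝ) (S : Finset ℂ) (k : ℂ → ℤ) (ρ₀ : ℂ), 0 < r →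
    (∀ ρ ∈ S, riemannZeta ρ = 0 ∧ 1 ≤ |ρ.im| ∧ TM r E ρ.im ∧ zc r ρ.im ≤ 1) →
    riemannZeta ρ₀ = 0 → 1 ≤ |ρ₀.im| → TM r E ρ₀.im → zc r ρ₀.im ≤ 1 →
    r ≤ |ρ₀.im + comb S k| →
    ((TM r E (ρ₀.im + comb S k) ∧ zc r (ρ₀.im + comb S k) = 0) ∨
      r * vklam |ρ₀.im + comb S k| ≤ c) → 0 < dep S k →
    c * r * min 1 (Real.log (c * r / (dep S k * LL E S k)) / LL E S k) ≤ 1 - ρ₀.re := by
  obtain ⟨r1, c1, hr1, hr1', hc1, hdh⟩ := dhI
  obtain ⟨CT, hCT, hgT⟩ := grM
  obtain ⟨CR, hCR, hgR⟩ := grV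
  obtain ⟨c4, hc4, hc41, hlow⟩ := zc_low
  obtain ⟨C0, hC0⟩ : ∃ C0 : ℝ, C0 = CT + CR := ⟨_, rfl⟩
  have hC01 : 1 ≤ C0 := by linarith
  obtain ⟨C6, hC6, hpar⟩ := par (CT := C0) hC01
  obtain ⟨r0, hr0, hr0r1, hr0C⟩ : ∃ r0 : ℝ, 0 < r0 ∧ r0 ≤ r1 ∧ C0 * r0 ≤ 1 / 4 := by
    refine ⟨min r1 (1 / (4 * C0)), lt_min hr1 (by positivity), min_le_left _ _, ?_⟩
    have h1 : min r1 (1 / (4 * C0)) ≤ 1 / (4 * C0) := min_le_right _ _
    rw [le_div_iff₀ (by positivity)] at h1
    linarith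
  set c : ℝ := min c4 (c1 * r0 / C6) with hc
  have hc0 : 0 < c := lt_min hc4 (by positivity)
  have m1 : c ≤ c4 := min_le_left _ _
  have hcC : C6 * c ≤ c1 * r0 := by
    have h := min_le_right c4 (c1 * r0 / C6)
    rw [← hc, le_div_iff₀ (by linarith)] at h
    linarith
  refine ⟨c, hc0, ?_⟩
  intro r E S k ρ₀ hr hS hz0 him0 hT0 hI0 hrt ht hd
  have hlen := len_ge hd
  have hr1x : r ≤ 1 := hT0.le_one
  have hE1 : 1 ≤ E := hT0.one_le hr
  obtain ⟨p1, p2, p3, p4, p5⟩ := hpar E (len S k) hE1 hlen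
  set a : ℝ := r0 * r with ha
  have ha0 : 0 < a := mul_pos hr0 hr
  have har0 : a ≤ r1 := by
    rw [ha]
    have : r0 * r ≤ r0 * 1 := mul_le_mul_of_nonneg_left hr1x hr0.le
    linarith
  have har16 : a ≤ r / 16 := by
    rw [ha]
    have := mul_le_mul_of_nonneg_right (hr0r1.trans hr1') hr.le
    linarith
  have hCa : C0 * a ≤ r / 4 := by
    rw [ha]
    have := mul_le_mul_of_nonneg_right hr0C hr.le
    linarith
  have hCTa : CT * a ≤ r := by
    have : CT * a ≤ C0 * a := mul_le_mul_of_nonneg_right (by linarith) ha0.le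
    linarith
  have hCRa : CR * a ≤ r / 4 := by
    have : CR * a ≤ C0 * a := mul_le_mul_of_nonneg_right (by linarith) ha0.le
    linarith
  set Λ : ℝ := C0 * E with hΛ
  have hLLdef : LL E S k = Real.log ((2 + E) * len S k) := rfl
  rw [hLLdef]
  set L : ℝ := Real.log ((2 + E) * len S k) with hL
  have hGrT : ∀ t, TM r E t → Gr a t Λ := fun t h =>
    (hgT a r E t ha0 hCTa h).mono (by
      rw [hΛ, hC0]
      exact mul_le_mul_of_nonneg_right (by linarith) (by linarith))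
  have hGt : Gr a (ρ₀.im + comb S k) Λ := by
    rcases ht with h | h
    · exact hGrT _ h.1
    · have hv : 0 ≤ vklam |ρ₀.im + comb S k| := by
        have := vklam_ge (abs_nonneg (ρ₀.im + comb S k))
        linarith
      have h1 : r / 4 * vklam |ρ₀.im + comb S k| ≤ 1 := by
        have h2 : r / 4 * vklam |ρ₀.im + comb S k| ≤ r * vklam |ρ₀.im + comb S k| :=
          mul_le_mul_of_nonneg_right (by linarith) hv
        have h3 : r * vklam |ρ₀.im + comb S k| ≤ 1 := h.trans (m1.trans hc41)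
        linarith
      refine (hgR a (r / 4) (ρ₀.im + comb S k) ha0 hCRa (by linarith) h1).mono ?_
      rw [hΛ, hC0]
      nlinarith
  have hzt : zc r (ρ₀.im + comb S k) = 0 := by
    rcases ht with h | h
    · exact h.2
    · exact hlow r |ρ₀.im + comb S k| _ hr le_rfl (h.trans m1)
  have hmain := hdh a r Λ S k ρ₀ ha0 har0 (by linarith) hr1x
    (fun ρ hρ => ⟨(hS ρ hρ).1, (hS ρ hρ).2.1, (hS ρ hρ).2.2.2, hGrT _ (hS ρ hρ).2.2.1⟩)
    hz0 him0 hI0 (hGrT _ hT0) (by linarith) hGt hzt hd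
  set M : ℝ := Real.log (3 * Λ * len S k) with hM
  have hM0 : 0 < M := p5
  have hML : M ≤ C6 * L := p2
  have hL0 : 0 < L := by linarith
  have hdL0 : 0 < dep S k * L := mul_pos hd hL0
  have hlt := re_lt_one hz0
  set X : ℝ := Real.log (c * r / (dep S k * L)) with hX
  rcases le_or_gt X 0 with hX0 | hX0
  · have h1 : X / L ≤ 0 := div_nonpos_of_nonpos_of_nonneg hX0 hL0.le
    have h2 : min 1 (X / L) ≤ 0 := (min_le_right _ _).trans h1
    have h3 : c * r * min 1 (X / L) ≤ 0 := mul_nonpos_of_nonneg_of_nonpos (by positivity) h2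
    linarith
  have hca : C6 * c * r ≤ c1 * a := by
    calc C6 * c * r ≤ c1 * r0 * r := mul_le_mul_of_nonneg_right hcC hr.le
      _ = c1 * a := by rw [ha]; ring
  have hY : X ≤ Real.log (c1 * a / (dep S k * M)) := by
    rw [hX]
    refine Real.log_le_log (by positivity) ?_
    rw [div_le_div_iff₀ hdL0 (mul_pos hd hM0)]
    calc c * r * (dep S k * M) ≤ c * r * (dep S k * (C6 * L)) :=
          mul_le_mul_of_nonneg_left (mul_le_mul_of_nonneg_left hML hd.le) (by positivity)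
      _ = C6 * c * r * (dep S k * L) := by ring
      _ ≤ c1 * a * (dep S k * L) := mul_le_mul_of_nonneg_right hca hdL0.le
  refine le_trans ?_ hmain
  have h1 : min 1 (X / L) ≤ C6 * min 1 (Real.log (c1 * a / (dep S k * M)) / M) := by
    rw [mul_min_of_nonneg _ _ (by linarith : (0 : ℝ) ≤ C6)]
    refine le_min ((min_le_left _ _).trans (by linarith)) ((min_le_right _ _).trans ?_)
    rw [← mul_div_assoc, div_le_div_iff₀ hL0 hM0]
    have h2 : X * M ≤ X * (C6 * L) := mul_le_mul_of_nonneg_left hML hX0.le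
    have h3 : C6 * X * L ≤ C6 * Real.log (c1 * a / (dep S k * M)) * L :=
      mul_le_mul_of_nonneg_right (mul_le_mul_of_nonneg_left hY (by linarith)) hL0.le
    linarith
  have hmin0 : 0 ≤ min 1 (Real.log (c1 * a / (dep S k * M)) / M) :=
    le_min zero_le_one (div_nonneg (hX0.le.trans hY) hM0.le)
  calc c * r * min 1 (X / L) ≤ c * r * (C6 * min 1 (Real.log (c1 * a / (dep S k * M)) / M)) :=
        mul_le_mul_of_nonneg_left h1 (by positivity)
    _ = C6 * c * r * min 1 (Real.log (c1 * a / (dep S k * M)) / M) := by ring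
    _ ≤ c1 * a * min 1 (Real.log (c1 * a / (dep S k * M)) / M) :=
        mul_le_mul_of_nonneg_right hca hmin0

end Pool.Agent.H76.SC
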