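import Mathlib
import Pool.Agent.H76.LF.LocG
import Pool.Agent.H76.SC.Par

/-!
# Main: the local formula at tame heights

PROOF: as `mainG` (`H76/LF/MainG.lean`), with `grM` in place of `grT`.
-/

set_option autoImplicit false

open Complex

namespace Pool.Agent.H76.SC

open Pool.Agent.H76.CR Pool.Agent.H76.RP Pool.Agent.H76.GL Pool.Agent.H76.LF

private theorem mg_sum {S : Finset ℂ} {f : ℂ → ℂ} {b : ℝ} {n : ℕ} (hb : 0 ≤ b)
    (hf : ∀ u ∈ S, ‖f u‖ ≤ (analyticOrderNatAt riemannZeta u : ℝ) * b)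
    (hn : ∑ u ∈ S, analyticOrderNatAt riemannZeta u ≤ n) : ‖∑ u ∈ S, f u‖ ≤ n * b := by
  refine (norm_sum_le _ _).trans ((Finset.sum_le_sum hf).trans ?_)
  rw [← Finset.sum_mul]
  refine mul_le_mul_of_nonneg_right ?_ hb
  exact_mod_cast hn

private theorem mg_term {s u : ℂ} {d : ℝ} (hd : 0 < d) (h : d ≤ ‖s - u‖) :
    ‖(analyticOrderNatAt riemannZeta u : ℂ) / (s - u)‖ ≤
      (analyticOrderNatAt riemannZeta u : ℝ) * (1 / d) := by
  rw [norm_div, Complex.norm_natCast, div_eq_mul_one_div]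
  exact mul_le_mul_of_nonneg_left (one_div_le_one_div_of_le hd h) (Nat.cast_nonneg _)

/-- a number of levels -/
private theorem mg_level {X : ℝ} (hX : 1 ≤ X) : ∃ k0 : ℕ, 1 ≤ k0 ∧ X * (3 / 4) ^ k0 ≤ 1 ∧
    (k0 : ℝ) ≤ 4 * Real.log X + 2 := by
  have hl : 0 ≤ Real.log X := Real.log_nonneg hX
  refine ⟨⌈4 * Real.log X⌉₊ + 1, by omega, ?_, ?_⟩
  · have h1 : 4 * Real.log X ≤ (⌈4 * Real.log X⌉₊ : ℝ) := Nat.le_ceil _
    have h2 : (1 / 4 : ℝ) ≤ Real.log (4 / 3) := by
      rw [Real.le_log_iff_exp_le (by norm_num)]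
      have h3 : Real.exp (1 / 4) ^ 4 ≤ (4 / 3 : ℝ) ^ 4 := by
        rw [← Real.exp_nat_mul]
        have := Real.exp_one_lt_d9
        norm_num
        linarith
      exact le_of_pow_le_pow_left₀ (by norm_num) (by norm_num) h3
    have h4 : X ≤ (4 / 3 : ℝ) ^ (⌈4 * Real.log X⌉₊ + 1) := by
      rw [← Real.log_le_log_iff (by linarith) (by positivity), Real.log_pow]
      push_cast
      nlinarith
    have h5 : ((4 / 3 : ℝ) ^ (⌈4 * Real.log X⌉₊ + 1)) * (3 / 4) ^ (⌈4 * Real.log X⌉₊ + 1) = 1 := by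
      rw [← mul_pow]
      norm_num
    have h6 := mul_le_mul_of_nonneg_right h4 (by positivity : (0 : ℝ) ≤ (3 / 4) ^ (⌈4 * Real.log X⌉₊ + 1))
    linarith
  · have h1 := Nat.ceil_lt_add_one (show 0 ≤ 4 * Real.log X by linarith)
    push_cast
    linarith

private theorem mg_sub (t t' : ℝ) : ‖((1 : ℂ) + t' * I) - (1 + t * I)‖ = |t' - t| := by
  have h1 : ((1 : ℂ) + t' * I) - (1 + t * I) = ((t' - t : ℝ) : ℂ) * I := by
    push_cast
    ring
  rw [h1, norm_mul, Complex.norm_I, mul_one, Complex.norm_real, Real.norm_eq_abs]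

theorem mainG : ∃ c C : ℝ, 0 < c ∧ c ≤ 1 ∧ 1 ≤ C ∧ ∀ r E t : ℝ, 0 < r → TM r E t →
    ∀ s : ℂ, ‖s - (1 + t * I)‖ ≤ r / 4 → 1 - c * r ≤ s.re → riemannZeta s ≠ 0 →
      ‖deriv riemannZeta s / riemannZeta s - LZ r t s‖ ≤
        C * (1 + zc r t) * Real.log (2 + E) / r * (2 + E) ^ (C * max 0 (1 - s.re) / r) := by
  obtain ⟨r1, C0, hr1, hr16, hC0, hloc⟩ := locG
  obtain ⟨CT0, hCT0, hgr0⟩ := grM
  obtain ⟨CT, hCTe⟩ : ∃ CT : ℝ, CT = 2 * CT0 := ⟨_, rfl⟩
  have hCT : 1 ≤ CT := by linarith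
  obtain ⟨C3, hC3, hlow⟩ := lowA
  obtain ⟨r0, hr0, hr0e, hr0C⟩ : ∃ r0 : ℝ, 0 < r0 ∧ r0 ≤ r1 / 8 ∧ CT0 * r0 ≤ 1 / 2 := by
    refine ⟨min (r1 / 8) (1 / (2 * CT0)), lt_min (by positivity) (by positivity), min_le_left _ _, ?_⟩
    have h1 : min (r1 / 8) (1 / (2 * CT0)) ≤ 1 / (2 * CT0) := min_le_right _ _
    have h2 := mul_le_mul_of_nonneg_left h1 (by linarith : 0 ≤ CT0)
    have h3 : CT0 * (1 / (2 * CT0)) = 1 / 2 := by field_simp
    linarith
  have hr0' : r0 ≤ 1 := by linarith
  obtain ⟨C6, hC6, hpar⟩ := par hCT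
  set C7 : ℝ := 4 * C0 + 4 * C6 + 2 with hC7
  have hC7p : 0 < C7 := by linarith
  refine ⟨r0 / 4, C0 * C7 / r0 + 4 + 1 / r0 + C3 + C7 / r0, by positivity, by linarith, ?_, ?_⟩
  · have : 0 < C0 * C7 / r0 + 1 / r0 + C7 / r0 := by positivity
    linarith
  intro r E t hr hT s hs hsre hζ
  have hr' : r ≤ 1 := hT.le_one
  have hE1 : 1 ≤ E := hT.one_le hr
  obtain ⟨hL1, -, hL2, -, -⟩ := hpar E 1 hE1 le_rfl
  rw [mul_one] at hL1 hL2
  set L : ℝ := Real.log (2 + E) with hL
  set n : ℕ := zc r t with hn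
  have hn0 : (0 : ℝ) ≤ n := Nat.cast_nonneg n
  set t' : ℝ := s.im with ht'
  obtain ⟨b, hb⟩ : ∃ b : ℝ, b = s.re - 1 := ⟨_, rfl⟩
  have hsb : s = ((1 + b : ℝ) : ℂ) + t' * I := by
    apply Complex.ext
    · simp [hb]
    · simp [ht']
  have hsre' : (s - (1 + t * I)).re = b := by simp [hb]
  have hsim' : (s - (1 + t * I)).im = t' - t := by simp [ht']
  have htt : |t' - t| ≤ r / 4 := by
    have := Complex.abs_im_le_norm (s - (1 + t * I))
    rw [hsim'] at this
    linarith
  have hbr : |b| ≤ r / 4 := by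
    have := Complex.abs_re_le_norm (s - (1 + t * I))
    rw [hsre'] at this
    linarith
  obtain ⟨a, ha⟩ : ∃ a, a = r0 * r := ⟨_, rfl⟩
  have ha0 : 0 < a := by rw [ha]; positivity
  have ha128 : a ≤ r / 128 := by
    rw [ha]
    have : r0 * r ≤ 1 / 128 * r := mul_le_mul_of_nonneg_right (by linarith) hr.le
    linarith
  have har1 : a ≤ r1 := by
    rw [ha]
    have : r0 * r ≤ r0 * 1 := mul_le_mul_of_nonneg_left hr' hr0.le
    linarith
  set y : ℝ := max 0 (1 - s.re) with hy
  have hy0 : 0 ≤ y := le_max_left _ _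
  have hyb : -b ≤ y := by
    have := le_max_right 0 (1 - s.re)
    rw [hb]
    linarith
  have hya : y ≤ a / 4 := by
    refine max_le (by positivity) ?_
    rw [ha]
    linarith
  have hLp : 0 < L := by linarith
  have hE2 : 1 ≤ 2 + E := by linarith
  set C : ℝ := C0 * C7 / r0 + 4 + 1 / r0 + C3 + C7 / r0 with hC
  have hCn1 : 0 < C0 * C7 / r0 := by positivity
  have hCn2 : 0 < 1 / r0 := by positivity
  have hCn3 : 0 < C7 / r0 := by positivity
  set P : ℝ := (2 + E) ^ (C * y / r) with hP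
  have hP1 : 1 ≤ P := Real.one_le_rpow hE2 (by positivity)
  -- it is enough to have the bound with a smaller constant
  have hgoal : ∀ X : ℝ, X ≤ C → 0 ≤ X → X * (1 + n) * L / r ≤ C * (1 + n) * L / r * 1 := by
    intro X hX _
    rw [mul_one]
    gcongr
  rcases le_or_gt b (2 * a) with hb2 | hb2
  · -- near the line
    have hTame : TM (r / 2) (2 * E) t' := hT.shift hr (by linarith)
    have hG : Gr a t' (CT * E) := by
      have h1 : CT0 * a ≤ r / 2 := by
        rw [ha]
        have h2 := mul_le_mul_of_nonneg_right hr0C hr.le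
        linarith
      have h2 := hgr0 a (r / 2) (2 * E) t' ha0 h1 hTame
      refine h2.mono ?_
      rw [hCTe]
      linarith
    set Λ : ℝ := CT * E with hΛ
    have hΛ1 : 1 ≤ Λ := hG.1
    have hta : 2 * a ≤ |t'| := by
      have h1 := hT.lt_abs hr
      have h2 : |t| ≤ |t'| + |t' - t| := by
        have h3 : t = t' - (t' - t) := by ring
        calc |t| = |t' - (t' - t)| := by rw [← h3]
          _ ≤ |t'| + |t' - t| := abs_sub _ _
      linarith
    have hX : 1 ≤ C0 * Λ := by nlinarith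
    obtain ⟨k0, hk1, hk2, hk3⟩ := mg_level hX
    have hk0p : (0 : ℝ) < k0 := by
      have : 0 < k0 := by omega
      exact_mod_cast this
    have hkL : (k0 : ℝ) ≤ C7 * L := by
      have h1 : Real.log (C0 * Λ) = Real.log C0 + Real.log Λ := Real.log_mul (by linarith) (by linarith)
      have h2 : Real.log C0 ≤ C0 := by
        have := Real.log_le_sub_one_of_pos (show 0 < C0 by linarith)
        linarith
      have h3 : Real.log Λ ≤ Real.log (3 * Λ) := Real.log_le_log (by linarith) (by linarith)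
      have h4 : (4 * C0 + 2) * 1 ≤ (4 * C0 + 2) * L := mul_le_mul_of_nonneg_left hL1 (by linarith)
      have h5 : C7 * L = (4 * C0 + 2) * L + 4 * (C6 * L) := by rw [hC7]; ring
      rw [h1] at hk3
      linarith
    have hdist : ‖s - pt a t'‖ ≤ a + y := by
      have h1 : s - pt a t' = ((b - a : ℝ) : ℂ) := by
        rw [hsb]
        unfold pt
        push_cast
        ring
      rw [h1, Complex.norm_real, Real.norm_eq_abs, abs_le]
      constructor <;> linarith
    have h1 := hloc a t' Λ (r / 2) y k0 ha0 har1 (by linarith) (by linarith) hta hG hk1 hk2 hy0 hya s hdist hζ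
    -- the zeros between the discs
    have hsub : (disc_finite (show r / 2 ≤ 1 by linarith) t').toFinset ⊆ (disc_finite hr' t).toFinset := by
      intro u hu
      rw [Set.Finite.mem_toFinset] at hu ⊢
      refine ⟨hu.1, ?_⟩
      have h2 : u - (1 + t * I) = (u - (1 + t' * I)) + (((1 : ℂ) + t' * I) - (1 + t * I)) := by ring
      rw [h2]
      refine (norm_add_le _ _).trans_lt ?_
      rw [mg_sub]
      have := hu.2
      linarith
    have hzc : zc (r / 2) t' ≤ n := by
      rw [zc_sum (show r / 2 ≤ 1 by linarith)]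
      refine zc_ge hr' t _ fun u hu => ?_
      have := hsub hu
      rwa [Set.Finite.mem_toFinset] at this
    have hzc' : (zc (r / 2) t' : ℝ) ≤ n := by exact_mod_cast hzc
    have hdiff : LZ r t s = LZ (r / 2) t' s + ∑ u ∈ (disc_finite hr' t).toFinset \
        (disc_finite (show r / 2 ≤ 1 by linarith) t').toFinset, (analyticOrderNatAt riemannZeta u : ℂ) / (s - u) := by
      rw [LZ_sum hr', LZ_sum (show r / 2 ≤ 1 by linarith), ← Finset.sum_sdiff hsub]
      ring
    have hrest : ‖∑ u ∈ (disc_finite hr' t).toFinset \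
        (disc_finite (show r / 2 ≤ 1 by linarith) t').toFinset,
        (analyticOrderNatAt riemannZeta u : ℂ) / (s - u)‖ ≤ n * (1 / (r / 4)) := by
      refine mg_sum (by positivity) (fun u hu => ?_) (zc_ge hr' t _ fun u hu => ?_)
      · obtain ⟨hu1, hu2⟩ := Finset.mem_sdiff.1 hu
        rw [Set.Finite.mem_toFinset] at hu1 hu2
        refine mg_term (by positivity) ?_
        have h3 : r / 2 ≤ ‖u - (1 + t' * I)‖ := by
          by_contra h4
          exact hu2 ⟨hu1.1, not_le.1 h4⟩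
        have h4 : ‖s - (1 + t' * I)‖ = |b| := by
          have h5 : s - (1 + t' * I) = ((b : ℝ) : ℂ) := by
            rw [hsb]
            push_cast
            ring
          rw [h5, Complex.norm_real, Real.norm_eq_abs]
        have h5 : ‖u - (1 + t' * I)‖ ≤ ‖s - (1 + t' * I)‖ + ‖s - u‖ := by
          have h6 : u - (1 + t' * I) = (s - (1 + t' * I)) - (s - u) := by ring
          rw [h6]
          exact norm_sub_le _ _
        linarith
      · have hu1 := (Finset.mem_sdiff.1 hu).1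
        rwa [Set.Finite.mem_toFinset] at hu1
    -- the exponential
    have hexp : Real.exp (k0 * y / a) ≤ P := by
      rw [hP, Real.rpow_def_of_pos (by linarith)]
      apply Real.exp_le_exp.2
      have h3 : (k0 : ℝ) * y / a ≤ C7 * L * y / a := by gcongr
      have h4 : C7 * L * y / a = L * (C7 / r0 * y / r) := by
        rw [ha]
        field_simp
      have h5 : L * (C7 / r0 * y / r) ≤ L * (C * y / r) := by
        have h6 : C7 / r0 ≤ C := by rw [hC]; linarith
        gcongr
      linarith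
    rw [hdiff]
    have hsplit : deriv riemannZeta s / riemannZeta s - (LZ (r / 2) t' s + ∑ u ∈ (disc_finite hr' t).toFinset \
        (disc_finite (show r / 2 ≤ 1 by linarith) t').toFinset, (analyticOrderNatAt riemannZeta u : ℂ) / (s - u)) =
        (deriv riemannZeta s / riemannZeta s - LZ (r / 2) t' s) - ∑ u ∈ (disc_finite hr' t).toFinset \
        (disc_finite (show r / 2 ≤ 1 by linarith) t').toFinset, (analyticOrderNatAt riemannZeta u : ℂ) / (s - u) := by
      ring
    rw [hsplit]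
    refine (norm_sub_le _ _).trans ((add_le_add h1 hrest).trans ?_)
    have h6 : C0 * k0 * (1 + zc (r / 2) t') * Real.exp (k0 * y / a) / a ≤
        C0 * (C7 * L) * (1 + n) * P / a := by gcongr
    have h7 : C0 * (C7 * L) * (1 + n) * P / a = C0 * C7 / r0 * (1 + n) * L / r * P := by
      rw [ha]
      field_simp
    have h8 : (n : ℝ) * (1 / (r / 4)) ≤ 4 * (1 + n) * L / r * P := by
      have e1 : (n : ℝ) * (1 / (r / 4)) = 4 * n * 1 / r * 1 := by
        field_simp
      rw [e1]
      gcongr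
      linarith
    have h9 : (C0 * C7 / r0 + 4) * (1 + n) * L / r * P ≤ C * (1 + n) * L / r * P := by
      have e1 : C0 * C7 / r0 + 4 ≤ C := by rw [hC]; linarith
      gcongr
    have h10 : (C0 * C7 / r0 + 4) * (1 + n) * L / r * P =
        C0 * C7 / r0 * (1 + n) * L / r * P + 4 * (1 + n) * L / r * P := by ring
    linarith
  · -- far from the line
    have hb0 : 0 < b := by linarith
    have hb1 : b ≤ 1 := by
      have := (abs_le.1 hbr).2
      linarith
    have h1 := (hlow b hb0 hb1).1 t'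
    rw [← hsb] at h1
    have h2 : ‖LZ r t s‖ ≤ n * (1 / b) := by
      rw [LZ_sum hr']
      refine mg_sum (by positivity) (fun u hu => ?_) (le_of_eq (zc_sum hr' t).symm)
      rw [Set.Finite.mem_toFinset] at hu
      refine mg_term hb0 ?_
      have h3 := re_lt_one hu.1
      have h4 := Complex.abs_re_le_norm (s - u)
      have h5 := le_abs_self (s - u).re
      have h6 : (s - u).re = 1 + b - u.re := by simp [hb]
      rw [h6] at h4 h5
      linarith
    refine (norm_sub_le _ _).trans ((add_le_add h1 h2).trans ?_)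
    have h3 : 1 / b ≤ 1 / a := one_div_le_one_div_of_le ha0 (by linarith)
    have h4 : 1 / b + C3 + n * (1 / b) ≤ 1 / a * (1 + n) + C3 := by
      have : (1 + n : ℝ) * (1 / b) ≤ (1 + n) * (1 / a) := mul_le_mul_of_nonneg_left h3 (by positivity)
      linarith
    have h5 : 1 / a * (1 + n) ≤ 1 / r0 * (1 + n) * L / r := by
      have e1 : 1 / a * (1 + n) = 1 / r0 * (1 + n) * 1 / r := by
        rw [ha]
        field_simp
      rw [e1]
      gcongr
    have h6 : C3 ≤ C3 * (1 + n) * L / r := by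
      rw [le_div_iff₀ hr]
      have e1 : C3 * r ≤ C3 * 1 := mul_le_mul_of_nonneg_left hr' (by linarith)
      have e2 : C3 * 1 ≤ C3 * ((1 + n) * L) := by
        refine mul_le_mul_of_nonneg_left ?_ (by linarith)
        nlinarith
      linarith
    have h7 : (1 / r0 + C3) * (1 + n) * L / r ≤ C * (1 + n) * L / r * 1 :=
      hgoal _ (by rw [hC]; linarith) (by positivity)
    have h8 : C * (1 + n) * L / r * 1 ≤ C * (1 + n) * L / r * P := by gcongr
    have h9 : (1 / r0 + C3) * (1 + n) * L / r = 1 / r0 * (1 + n) * L / r + C3 * (1 + n) * L / r := by ring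
    linarith

theorem mainF : ∃ c C : ℝ, 0 < c ∧ c ≤ 1 ∧ 1 ≤ C ∧ ∀ r E t : ℝ, 0 < r → TM r E t →
    ∀ s : ℂ, ‖s - (1 + t * I)‖ ≤ r / 4 → 1 - c * r / Real.log (2 + E) ≤ s.re → riemannZeta s ≠ 0 →
      ‖deriv riemannZeta s / riemannZeta s - LZ r t s‖ ≤
        C * (1 + zc r t) * Real.log (2 + E) / r := by
  obtain ⟨c, C, hc, hc1, hC, h⟩ := mainG
  refine ⟨c, C * Real.exp (C * c), hc, hc1, one_le_mul_of_one_le_of_one_le hC (Real.one_le_exp (by positivity)), ?_⟩
  intro r E t hr hT s hs hsre hζ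
  have hE1 : 1 ≤ E := hT.one_le hr
  have hL1 := log_ge hE1
  set L : ℝ := Real.log (2 + E) with hL
  have hcL : c * r / L ≤ c * r := div_le_self (by positivity) hL1
  refine (h r E t hr hT s hs (by linarith) hζ).trans ?_
  have h1 : (2 + E) ^ (C * max 0 (1 - s.re) / r) ≤ Real.exp (C * c) := by
    rw [Real.rpow_def_of_pos (by linarith)]
    apply Real.exp_le_exp.2
    rw [← hL]
    have h2 : max 0 (1 - s.re) ≤ c * r / L := max_le (by positivity) (by linarith)
    have h3 : C * max 0 (1 - s.re) / r ≤ C * (c * r / L) / r := by gcongr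
    calc L * (C * max 0 (1 - s.re) / r) ≤ L * (C * (c * r / L) / r) :=
          mul_le_mul_of_nonneg_left h3 (by linarith)
      _ = C * c := by
          have : L ≠ 0 := by linarith
          field_simp
  have hn0 : (0 : ℝ) ≤ zc r t := Nat.cast_nonneg _
  calc C * (1 + zc r t) * L / r * (2 + E) ^ (C * max 0 (1 - s.re) / r)
      ≤ C * (1 + zc r t) * L / r * Real.exp (C * c) := by gcongr
    _ = _ := by ring

end Pool.Agent.H76.SC
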