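import Mathlib
import Pool.Agent.H76.SC.Main

/-!
# Reg: at every scale at most one zero, up to a linear term

Copy of `H76/LF/Reg.lean`.
-/

set_option autoImplicit false

open Complex

namespace Pool.Agent.H76.SC

open Pool.Agent.H76.CR Pool.Agent.H76.RP Pool.Agent.H76.GL Pool.Agent.H76.LF

theorem reg : ∃ C : ℝ, 1 ≤ C ∧ ∀ r E t : ℝ, 0 < r → TM r E t → ∀ x : ℝ, 0 < x → x ≤ r →
      (zc x t : ℝ) ≤ 1 + C * (x * Real.log (2 + E) / r) * zc r t := by
  obtain ⟨c, C1, hc, hc1, hC1, hM⟩ := mainF
  obtain ⟨C2, hC2, hLow⟩ := lowA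
  refine ⟨40 + 16 * (C2 + 2 * C1), by linarith, ?_⟩
  intro r E t hr hT x hx hxr
  have hr1 : r ≤ 1 := hT.le_one
  have hE1 : 1 ≤ E := hT.one_le hr
  have hL1 : 1 ≤ Real.log (2 + E) := by
    rw [Real.le_log_iff_exp_le (by linarith)]
    have := Real.exp_one_lt_d9
    linarith
  have hMs := hM r E t hr hT
  generalize hL : Real.log (2 + E) = L at hL1 hMs ⊢
  have hmn : zc x t ≤ zc r t := zc_mono hxr hr1 t
  have hx1 : x ≤ 1 := hxr.trans hr1
  have hq : 0 ≤ x * L / r := by positivity
  have hmn' : (zc x t : ℝ) ≤ (zc r t : ℝ) := by exact_mod_cast hmn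
  have hn0 : (0 : ℝ) ≤ (zc r t : ℝ) := Nat.cast_nonneg _
  by_cases hx40 : r / 40 < x
  · have h1 : 1 ≤ 40 * (x * L / r) := by
      rw [← mul_div_assoc, le_div_iff₀ hr]
      nlinarith
    have h2 : (40 : ℝ) * (x * L / r) ≤ (40 + 16 * (C2 + 2 * C1)) * (x * L / r) := by
      apply mul_le_mul_of_nonneg_right _ hq
      linarith
    have h3 : 1 * (zc r t : ℝ) ≤ (40 + 16 * (C2 + 2 * C1)) * (x * L / r) * zc r t := by
      apply mul_le_mul_of_nonneg_right _ hn0
      linarith
    linarith
  · have hx40' : x ≤ r / 40 := not_lt.mp hx40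
    have hb : 0 < 10 * x := by linarith
    have hb1 : 10 * x ≤ 1 := by linarith
    obtain ⟨hlow1, -, -⟩ := hLow (10 * x) hb hb1
    have hl := hlow1 t
    generalize hs : (((1 + 10 * x : ℝ) : ℂ) + t * I) = s at hl
    have hsre : s.re = 1 + 10 * x := by rw [← hs]; simp
    have hdiff : s - (1 + t * I) = ((10 * x : ℝ) : ℂ) := by
      rw [← hs]; push_cast; ring
    have hnorm : ‖s - (1 + t * I)‖ = 10 * x := by
      rw [hdiff, Complex.norm_real, Real.norm_eq_abs, abs_of_pos hb]
    have hz : riemannZeta s ≠ 0 := riemannZeta_ne_zero_of_one_le_re (by rw [hsre]; linarith)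
    have hcr : 0 ≤ c * r / L := by positivity
    have hm := hMs s (by rw [hnorm]; linarith) (by rw [hsre]; linarith) hz
    -- the upper bound for the real part
    have hup : (LZ r t s).re ≤ 1 / (10 * x) + C2 + C1 * (1 + zc r t) * L / r := by
      have h1 : (LZ r t s).re ≤ ‖LZ r t s‖ := Complex.re_le_norm _
      have h2 : ‖LZ r t s‖ ≤ ‖deriv riemannZeta s / riemannZeta s‖ +
          ‖deriv riemannZeta s / riemannZeta s - LZ r t s‖ := by
        have h3 := norm_sub_le (deriv riemannZeta s / riemannZeta s)
          (deriv riemannZeta s / riemannZeta s - LZ r t s)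
        rwa [sub_sub_cancel] at h3
      linarith
    -- the lower bound
    have hterm : ∀ u : ℂ, ((analyticOrderNatAt riemannZeta u : ℂ) / (s - u)).re =
        (analyticOrderNatAt riemannZeta u : ℝ) * ((s - u).re / Complex.normSq (s - u)) := by
      intro u
      rw [div_eq_mul_inv]
      simp [Complex.mul_re, Complex.inv_re]
    have hlow : (zc x t : ℝ) * (10 * x / (11 * x) ^ 2) ≤ (LZ r t s).re := by
      rw [LZ_sum hr1 t s, Complex.re_sum, zc_sum hx1 t]
      push_cast
      rw [Finset.sum_mul]
      have hsub : (disc_finite hx1 t).toFinset ⊆ (disc_finite hr1 t).toFinset := by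
        intro u hu
        rw [Set.Finite.mem_toFinset] at hu ⊢
        exact ⟨hu.1, lt_of_lt_of_le hu.2 hxr⟩
      have hpos : ∀ u ∈ (disc_finite hr1 t).toFinset, 10 * x ≤ (s - u).re := by
        intro u hu
        rw [Set.Finite.mem_toFinset] at hu
        have h1 := re_lt_one hu.1
        rw [Complex.sub_re, hsre]
        linarith
      refine le_trans (Finset.sum_le_sum ?_) (Finset.sum_le_sum_of_subset_of_nonneg hsub ?_)
      · intro u hu
        rw [hterm u]
        apply mul_le_mul_of_nonneg_left _ (Nat.cast_nonneg _)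
        have h1 := hpos u (hsub hu)
        rw [Set.Finite.mem_toFinset] at hu
        have h2 : ‖s - u‖ ≤ 11 * x := by
          have h3 : s - u = (s - (1 + t * I)) - (u - (1 + t * I)) := by ring
          have h4 := norm_sub_le (s - (1 + t * I)) (u - (1 + t * I))
          rw [← h3, hnorm] at h4
          have h5 := hu.2
          linarith
        have h6 : Complex.normSq (s - u) ≤ (11 * x) ^ 2 := by
          rw [Complex.normSq_eq_norm_sq]
          exact pow_le_pow_left₀ (norm_nonneg _) h2 2
        have h7 : 0 < Complex.normSq (s - u) := by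
          rw [Complex.normSq_pos]
          intro h8
          rw [h8] at h1
          simp at h1
          linarith
        have h9 : 0 < (11 * x) ^ 2 := by positivity
        rw [div_le_div_iff₀ h9 h7]
        have h10 : 0 ≤ (s - u).re := by linarith
        nlinarith [mul_le_mul h1 h6 h7.le h10]
      · intro u hu _
        rw [hterm u]
        have h1 := hpos u hu
        have h2 : 0 ≤ (s - u).re := by linarith
        have h3 : 0 ≤ Complex.normSq (s - u) := Complex.normSq_nonneg _
        positivity
    by_cases hm1 : zc x t ≤ 1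
    · have h1 : (zc x t : ℝ) ≤ 1 := by exact_mod_cast hm1
      have h2 : 0 ≤ (40 + 16 * (C2 + 2 * C1)) * (x * L / r) * (zc r t : ℝ) := by
        have : 0 ≤ 40 + 16 * (C2 + 2 * C1) := by linarith
        positivity
      linarith
    · have hm2 : (2 : ℝ) ≤ (zc x t : ℝ) := by
        have : 2 ≤ zc x t := by omega
        exact_mod_cast this
      have hn2 : (2 : ℝ) ≤ (zc r t : ℝ) := by linarith
      generalize (zc x t : ℝ) = m at *
      generalize (zc r t : ℝ) = n at *
      have h1 : m * (10 * x / (11 * x) ^ 2) ≤ 1 / (10 * x) + C2 + C1 * (1 + n) * L / r := by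
        linarith
      have h2 : m * (10 * x / (11 * x) ^ 2) = m * 10 / (121 * x) := by
        field_simp
        ring
      rw [h2] at h1
      have h3 : m * 10 / (121 * x) * (12.1 * x) = m := by
        field_simp
        norm_num
      have h4 : (1 / (10 * x) + C2 + C1 * (1 + n) * L / r) * (12.1 * x) =
          1.21 + 12.1 * (x * C2) + 12.1 * C1 * (1 + n) * (x * L / r) := by
        field_simp
        ring
      have h5 : m ≤ 1.21 + 12.1 * (x * C2) + 12.1 * C1 * (1 + n) * (x * L / r) := by
        rw [← h3, ← h4]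
        exact mul_le_mul_of_nonneg_right h1 (by positivity)
      have h6 : x ≤ x * L / r := by
        rw [le_div_iff₀ hr]
        nlinarith
      have h7 : x * C2 ≤ C2 * (x * L / r) * n := by
        have h8 : x * C2 ≤ C2 * (x * L / r) := by nlinarith
        have h9 : 0 ≤ C2 * (x * L / r) := by positivity
        nlinarith
      have h8 : C1 * (1 + n) * (x * L / r) ≤ 2 * C1 * (x * L / r) * n := by
        have h9 : 0 ≤ C1 * (x * L / r) := by positivity
        nlinarith
      have h9 : 0.79 * (m - 1) ≤ 12.1 * ((C2 + 2 * C1) * (x * L / r) * n) := by nlinarith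
      have h10 : 0 ≤ (C2 + 2 * C1) * (x * L / r) * n := by positivity
      have h11 : 0 ≤ 40 * (x * L / r) * n := by positivity
      nlinarith

end Pool.Agent.H76.SC
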