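import Mathlib
import Pool.Agent.H76.SC.Pri
import Pool.Agent.H76.GL.Main2

/-!
# PriE: the three kinds of hypotheses, and `-ζ'/ζ` instead of `Dk`

As `H76/LP/PriE.lean`, at the radius `r/2`.
-/

set_option autoImplicit false

open Complex

namespace Pool.Agent.H76.SC

open Pool.Agent.H76.CR Pool.Agent.H76.RP Pool.Agent.H76.GS Pool.Agent.H76.GL Pool.Agent.H76.LP

private theorem pe_Dk {b : ℝ} (hb : 0 < b) (t : ℝ) :
    (Dk b 0 t).re = -(deriv riemannZeta (pt b t) / riemannZeta (pt b t)).re := by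
  have hre : 1 < (pt b t).re := by
    simp [pt]
    linarith
  have h := ArithmeticFunction.LSeries_vonMangoldt_eq_deriv_riemannZeta_div hre
  have h2 : Dk b 0 t = -(deriv riemannZeta (pt b t) / riemannZeta (pt b t)) := by
    rw [Dk_eq hb 0 t]
    simp only [pow_zero, Nat.factorial_zero, Nat.cast_one, div_one, iteratedDeriv_zero, one_mul]
    rw [h, neg_div]
  rw [h2, Complex.neg_re]

theorem LL_ge {E : ℝ} {S : Finset ℂ} {k : ℂ → ℤ} (hE : 1 ≤ E) (hl : 1 ≤ len S k) : 1 ≤ LL E S k := by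
  unfold LL
  rw [Real.le_log_iff_exp_le (by nlinarith)]
  have := Real.exp_one_lt_d9
  nlinarith

theorem num_nonneg (r : ℝ) (S : Finset ℂ) (k : ℂ → ℤ) : 0 ≤ num r S k := by
  unfold num
  exact mul_nonneg (len_nonneg S k) (Finset.sum_nonneg fun ρ _ =>
    mul_nonneg (abs_nonneg _) (Nat.cast_nonneg _))

theorem priE : ∃ c : ℝ, 0 < c ∧ c ≤ 1 / 32 ∧ ∀ (r E : ℝ) (S : Finset ℂ) (k : ℂ → ℤ), 0 < r →
    (∀ ρ ∈ S, riemannZeta ρ = 0 ∧ 1 ≤ |ρ.im| ∧ TM r E ρ.im) → 0 < dep S k →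
    dep S k * LL E S k ≤ c * r →
    ((∀ ρ ∈ S, zc r ρ.im ≤ 1) ∨ dep S k * num r S k * LL E S k ≤ c * r ∨
      dep S k * (len S k ^ 2 * E) * LL E S k ≤ c * r) →
    dep S k ≤ c * r ∧ 5 / 8 / (32 * dep S k) ≤
      sg S k * (-(deriv riemannZeta (pt (32 * dep S k) (comb S k)) /
        riemannZeta (pt (32 * dep S k) (comb S k))).re) := by
  obtain ⟨c1, hc1, hc11, hcore⟩ := pri
  obtain ⟨CJ, hCJ, hjen⟩ := jenM
  obtain ⟨c, hc0, hc32, m3, m1'⟩ : ∃ c : ℝ, 0 < c ∧ c ≤ 1 / 32 ∧ c ≤ c1 / 2 ∧ 2 * CJ * c ≤ c1 := by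
    refine ⟨min (min (c1 / (2 * CJ)) (c1 / 2)) (1 / 32),
      lt_min (lt_min (by positivity) (by linarith)) (by norm_num), min_le_right _ _,
      (min_le_left _ _).trans (min_le_right _ _), ?_⟩
    have m1 : min (min (c1 / (2 * CJ)) (c1 / 2)) (1 / 32) ≤ c1 / (2 * CJ) :=
      (min_le_left _ _).trans (min_le_left _ _)
    rw [le_div_iff₀ (by positivity)] at m1
    linarith
  refine ⟨c, hc0, hc32, ?_⟩
  intro r E S k hr hS hd hdL hN
  have hlen := len_ge hd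
  obtain ⟨ρ1, hρ1⟩ := dep_ne hd
  have hr1 : r ≤ 1 := (hS ρ1 hρ1).2.2.le_one
  have hE1 : 1 ≤ E := (hS ρ1 hρ1).2.2.one_le hr
  have hL1 : 1 ≤ LL E S k := LL_ge hE1 hlen
  set L : ℝ := LL E S k with hL
  have hr2 : 0 < r / 2 := by linarith
  have hS2 : ∀ ρ ∈ S, riemannZeta ρ = 0 ∧ 1 ≤ |ρ.im| ∧ TM (r / 2) E ρ.im :=
    fun ρ hρ => ⟨(hS ρ hρ).1, (hS ρ hρ).2.1, (hS ρ hρ).2.2.mono_r hr2 (by linarith)⟩
  have hcc : c * r ≤ c1 * (r / 2) := by
    have := mul_le_mul_of_nonneg_right m3 hr.le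
    linarith
  have hcJ : CJ * (c * r) ≤ c1 * (r / 2) := by
    have := mul_le_mul_of_nonneg_right m1' hr.le
    linarith
  have hd2 : dep S k * L ≤ c1 * (r / 2) := hdL.trans hcc
  have hN2 : (∀ ρ ∈ S, zc (r / 2) ρ.im ≤ 1) ∨
      dep S k * num (r / 2) S k * L ≤ c1 * (r / 2) := by
    rcases hN with hN | hN | hN
    · exact Or.inl fun ρ hρ => (zc_mono (by linarith) hr1 _).trans (hN ρ hρ)
    · right
      have h1 : num (r / 2) S k ≤ num r S k := by
        unfold num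
        refine mul_le_mul_of_nonneg_left (Finset.sum_le_sum fun ρ _ => ?_) (len_nonneg S k)
        refine mul_le_mul_of_nonneg_left ?_ (abs_nonneg _)
        exact_mod_cast zc_mono (by linarith) hr1 _
      calc dep S k * num (r / 2) S k * L ≤ dep S k * num r S k * L :=
            mul_le_mul_of_nonneg_right (mul_le_mul_of_nonneg_left h1 hd.le) (by linarith)
        _ ≤ c * r := hN
        _ ≤ c1 * (r / 2) := hcc
    · right
      have h1 : num (r / 2) S k ≤ CJ * (len S k ^ 2 * E) := by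
        unfold num
        have h2 : ∑ ρ ∈ S, |(k ρ : ℝ)| * (zc (r / 2) ρ.im : ℝ) ≤
            ∑ ρ ∈ S, |(k ρ : ℝ)| * (CJ * E) :=
          Finset.sum_le_sum fun ρ hρ => mul_le_mul_of_nonneg_left
            (hjen r E ρ.im hr (hS ρ hρ).2.2 (hS ρ hρ).2.1) (abs_nonneg _)
        rw [← Finset.sum_mul] at h2
        have h3 : ∑ ρ ∈ S, |(k ρ : ℝ)| = len S k := rfl
        rw [h3] at h2
        calc len S k * ∑ ρ ∈ S, |(k ρ : ℝ)| * (zc (r / 2) ρ.im : ℝ) ≤
              len S k * (len S k * (CJ * E)) := mul_le_mul_of_nonneg_left h2 (len_nonneg S k)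
          _ = CJ * (len S k ^ 2 * E) := by ring
      calc dep S k * num (r / 2) S k * L ≤ dep S k * (CJ * (len S k ^ 2 * E)) * L :=
            mul_le_mul_of_nonneg_right (mul_le_mul_of_nonneg_left h1 hd.le) (by linarith)
        _ = CJ * (dep S k * (len S k ^ 2 * E) * L) := by ring
        _ ≤ CJ * (c * r) := mul_le_mul_of_nonneg_left hN (by linarith)
        _ ≤ c1 * (r / 2) := hcJ
  have hmain := hcore (r / 2) E S k hr2 hS2 hd hd2 hN2
  rw [pe_Dk (by positivity)] at hmain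
  refine ⟨?_, hmain⟩
  have h1 : dep S k * 1 ≤ dep S k * L := mul_le_mul_of_nonneg_left hL1 hd.le
  linarith

end Pool.Agent.H76.SC
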