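import Mathlib
import Pool.Agent.H76.SC.Vir
import Pool.Agent.H76.SC.Own
import Pool.Agent.H76.SC.Reg

/-!
# Full: the lattice theorem

As `H76/LP/Full.lean`.
-/

set_option autoImplicit false

open Complex

namespace Pool.Agent.H76.SC

open Pool.Agent.H76.CR Pool.Agent.H76.RP Pool.Agent.H76.GS Pool.Agent.H76.GL Pool.Agent.H52.ZR
  Pool.Agent.H76.LP

theorem full : ∃ c C : ℝ, 0 < c ∧ 1 ≤ C ∧ ∀ (r E : ℝ) (S : Finset ℂ) (k : ℂ → ℤ), 0 < r →
    (∀ ρ ∈ S, riemannZeta ρ = 0 ∧ 1 ≤ |ρ.im| ∧ TM r E ρ.im) →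
    dep S k * LL E S k ≤ c * r →
    ((∀ ρ ∈ S, zc r ρ.im ≤ 1) ∨ dep S k * num r S k * LL E S k ≤ c * r ∨
      dep S k * (len S k ^ 2 * E) * LL E S k ≤ c * r) →
    (∀ x E' : ℝ, 0 < x → TM x E' (comb S k) → dep S k * Real.log (2 + E') ≤ c * x →
      (Odd (∑ ρ ∈ S, k ρ) → 1 ≤ zc x (comb S k) ∧
        ∀ y E'' : ℝ, x ≤ y → TM y E'' (comb S k) →
          C * (x * Real.log (2 + E'') / y) * zc y (comb S k) < 1 → zc x (comb S k) = 1) ∧
      (Even (∑ ρ ∈ S, k ρ) → c * x / (dep S k * Real.log (2 + E')) ≤ zc x (comb S k) ∧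
        c * x / (dep S k * Real.log (2 + E')) ≤ E')) ∧
    (dep S k * vklam |comb S k| ≤ c → Even (∑ ρ ∈ S, k ρ) ∧ |comb S k| ≤ C * dep S k) := by
  obtain ⟨cv, Cv, hcv, hCv, hvir⟩ := vir
  obtain ⟨cp, hcp, hcp1, hpri⟩ := priE
  obtain ⟨co, hco, hco1, hown⟩ := own
  obtain ⟨Cr, hCr, hreg⟩ := reg
  obtain ⟨CJ, hCJ, hjen⟩ := jenM
  have hV1 : 1 ≤ vklam 1 := vklam_ge zero_le_one
  have hV0 : 0 < vklam 1 := by linarith
  have hCJ0 : 0 < CJ := by linarith
  have hCv0 : 0 < Cv := by linarith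
  obtain ⟨c, hc⟩ : ∃ c : ℝ, c =
      min (min (cv / vklam 1) cp) (min (co / (4 * CJ)) (1 / (2 * Cv))) := ⟨_, rfl⟩
  have hc0 : 0 < c := by
    rw [hc]
    exact lt_min (lt_min (by positivity) hcp) (lt_min (by positivity) (by positivity))
  have m1 : c ≤ cv / vklam 1 := by
    rw [hc]
    exact (min_le_left _ _).trans (min_le_left _ _)
  have m2 : c ≤ cp := by
    rw [hc]
    exact (min_le_left _ _).trans (min_le_right _ _)
  have m3 : c ≤ co / (4 * CJ) := by
    rw [hc]
    exact (min_le_right _ _).trans (min_le_left _ _)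
  have m4 : c ≤ 1 / (2 * Cv) := by
    rw [hc]
    exact (min_le_right _ _).trans (min_le_right _ _)
  have m1' : c * vklam 1 ≤ cv := by rwa [le_div_iff₀ hV0] at m1
  have m1'' : c ≤ cv := by nlinarith
  have m3' : 4 * CJ * c ≤ co := by
    rw [le_div_iff₀ (by positivity)] at m3
    linarith
  have m3'' : 4 * c ≤ co := by nlinarith
  have m4' : Cv * c ≤ 1 / 2 := by
    rw [le_div_iff₀ (by positivity)] at m4
    linarith
  clear hc
  refine ⟨c, max Cv Cr, hc0, hCv.trans (le_max_left _ _), ?_⟩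
  intro r E S k hr hS hdL hA
  have hSz : ∀ ρ ∈ S, riemannZeta ρ = 0 := fun ρ hρ => (hS ρ hρ).1
  have hd0 : 0 ≤ dep S k := dep_nonneg' hSz
  have hcrv : c * r ≤ cv * r := mul_le_mul_of_nonneg_right m1'' hr.le
  have hcrp : c * r ≤ cp * r := mul_le_mul_of_nonneg_right m2 hr.le
  have hv := hvir r E S k hr hS (hdL.trans hcrv)
    (hA.imp id (fun h => h.imp (fun h => h.trans hcrv) (fun h => h.trans hcrv)))
  refine ⟨?_, fun h => ?_⟩
  swap
  · obtain ⟨h1, h2⟩ := hv (h.trans m1'')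
    exact ⟨h1, h2.trans (mul_le_mul_of_nonneg_right (le_max_left _ _) hd0)⟩
  intro x E' hx hT hdx
  have hx1 : x ≤ 1 := hT.le_one
  have hE1' : 1 ≤ E' := hT.one_le hx
  have htx : x < |comb S k| := hT.lt_abs hx
  rcases hd0.eq_or_lt with hd | hd
  · exfalso
    have hk := dep_zero hSz hd.symm.le
    have h2 : comb S k = 0 := by
      unfold comb
      refine Finset.sum_eq_zero fun ρ hρ => ?_
      rw [hk ρ hρ]
      simp
    rw [h2, abs_zero] at htx
    linarith
  obtain ⟨ρ1, hρ1⟩ := dep_ne hd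
  have hr1 : r ≤ 1 := (hS ρ1 hρ1).2.2.le_one
  have hE1 : 1 ≤ E := (hS ρ1 hρ1).2.2.one_le hr
  have hL : 1 ≤ LL E S k := LL_ge hE1 (len_ge hd)
  have hL1 : 1 ≤ Real.log (2 + E') := log_ge hE1'
  have hdc : dep S k ≤ c * r := (le_mul_of_one_le_right hd.le hL).trans hdL
  have hdcx : dep S k ≤ c * x := (le_mul_of_one_le_right hd.le hL1).trans hdx
  have ht1 : 1 ≤ |comb S k| := by
    by_contra hcon
    push Not at hcon
    have h1 : vklam |comb S k| ≤ vklam 1 := vklam_mono (abs_nonneg _) hcon.le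
    have h2 : dep S k * vklam |comb S k| ≤ cv := by
      have h3 : dep S k ≤ c := hdc.trans (mul_le_of_le_one_right hc0.le hr1)
      calc dep S k * vklam |comb S k| ≤ dep S k * vklam 1 := mul_le_mul_of_nonneg_left h1 hd.le
        _ ≤ c * vklam 1 := mul_le_mul_of_nonneg_right h3 hV0.le
        _ ≤ cv := m1'
    have h3 := (hv h2).2
    have h4 : Cv * dep S k ≤ Cv * (c * x) := mul_le_mul_of_nonneg_left hdcx hCv0.le
    have h5 : Cv * (c * x) ≤ 1 / 2 * x := by
      rw [← mul_assoc]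
      exact mul_le_mul_of_nonneg_right m4' hx.le
    linarith
  obtain ⟨-, hp⟩ := hpri r E S k hr hS hd (hdL.trans hcrp)
    (hA.imp id (fun h => h.imp (fun h => h.trans hcrp) (fun h => h.trans hcrp)))
  have hdxo : dep S k * Real.log (2 + E') ≤ co * x := by
    refine hdx.trans (mul_le_mul_of_nonneg_right ?_ hx.le)
    linarith
  obtain ⟨o1, o2⟩ := hown x E' (dep S k) (comb S k) hx hT hd hdxo
  have hdL0 : 0 < dep S k * Real.log (2 + E') := mul_pos hd (by linarith)
  refine ⟨fun ho => ?_, fun he => ?_⟩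
  · have hsg : sg S k = -1 := by
      unfold sg
      exact ho.neg_one_zpow
    rw [hsg] at hp
    have hp' : 5 / 8 / (32 * dep S k) ≤ (deriv riemannZeta (pt (32 * dep S k) (comb S k)) /
        riemannZeta (pt (32 * dep S k) (comb S k))).re := by linarith
    have h1 := o2 hp'
    refine ⟨h1, fun y E'' hxy hTy h2 => ?_⟩
    have hy : 0 < y := hx.trans_le hxy
    have h4 := hreg y E'' (comb S k) hy hTy x hx hxy
    have h5 : Cr * (x * Real.log (2 + E'') / y) * zc y (comb S k) ≤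
        max Cv Cr * (x * Real.log (2 + E'') / y) * zc y (comb S k) := by
      refine mul_le_mul_of_nonneg_right ?_ (Nat.cast_nonneg _)
      refine mul_le_mul_of_nonneg_right (le_max_right _ _) ?_
      have : 1 ≤ Real.log (2 + E'') := log_ge (hTy.one_le hy)
      positivity
    have h6 : (zc x (comb S k) : ℝ) < 2 := by linarith
    have h7 : zc x (comb S k) < 2 := by exact_mod_cast h6
    omega
  · have hsg : sg S k = 1 := by
      unfold sg
      exact he.neg_one_zpow
    rw [hsg, one_mul] at hp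
    have h1 := o1 hp
    refine ⟨le_trans ?_ h1, ?_⟩
    · refine div_le_div_of_nonneg_right (mul_le_mul_of_nonneg_right ?_ hx.le) hdL0.le
      linarith
    · have hx2 : 0 < x / 2 := by linarith
      have hT2 : TM (x / 2) E' (comb S k) := hT.mono_r hx2 (by linarith)
      have hd2 : dep S k * Real.log (2 + E') ≤ co * (x / 2) := by
        refine hdx.trans ?_
        have := mul_le_mul_of_nonneg_right m3'' hx2.le
        have h3 : 0 < c * x := by positivity
        linarith
      have h2 := (hown (x / 2) E' (dep S k) (comb S k) hx2 hT2 hd hd2).1 hp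
      have h3 := hjen x E' (comb S k) hx hT ht1
      have h4 : CJ * (c * x / (dep S k * Real.log (2 + E'))) ≤
          co * (x / 2) / (dep S k * Real.log (2 + E')) := by
        rw [← mul_div_assoc]
        refine div_le_div_of_nonneg_right ?_ hdL0.le
        have h5 := mul_le_mul_of_nonneg_right m3' hx2.le
        have h6 : 0 < CJ * (c * x) := by positivity
        linarith
      exact le_of_mul_le_mul_left (h4.trans (h2.trans h3)) hCJ0

end Pool.Agent.H76.SC
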