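import Mathlib
import Pool.Agent.H76.SC.Full
import Pool.Agent.H76.SC.DH
import Pool.Agent.H76.SC.Phi

/-!
# GenP: the lattice theorem with Richert's growth

`full` and `dh` with the unconditional growth `tmL`, in terms of `phi r T` only.
-/

set_option autoImplicit false

open Complex

namespace Pool.Agent.H76.SC

open Pool.Agent.H76.CR Pool.Agent.H76.RP Pool.Agent.H76.GS Pool.Agent.H76.GL Pool.Agent.H52.ZR
  Pool.Agent.H76.LP

private theorem comb_zero_of_len {S : Finset ℂ} {k : ℂ → ℤ} (h : len S k = 0) : comb S k = 0 := by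
  unfold len at h
  unfold comb
  rw [Finset.sum_eq_zero_iff_of_nonneg (fun _ _ => abs_nonneg _)] at h
  refine Finset.sum_eq_zero fun ρ hρ => ?_
  rw [abs_eq_zero.1 (h ρ hρ), zero_mul]

private theorem dep_pos_of_comb {S : Finset ℂ} {k : ℂ → ℤ} (hz : ∀ ρ ∈ S, riemannZeta ρ = 0)
    (h : comb S k ≠ 0) : 0 < dep S k := by
  have hl : 0 < len S k := (len_nonneg S k).lt_of_ne fun h1 => h (comb_zero_of_len h1.symm)
  have hs : 0 < ∑ ρ ∈ S, |(k ρ : ℝ)| * (1 - ρ.re) := by
    refine lt_of_le_of_ne (Finset.sum_nonneg fun ρ hρ => mul_nonneg (abs_nonneg _)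
      (by linarith [re_lt_one (hz ρ hρ)])) fun h1 => h ?_
    have h2 := (Finset.sum_eq_zero_iff_of_nonneg (fun ρ hρ => mul_nonneg (abs_nonneg ((k ρ : ℤ) : ℝ))
      (by linarith [re_lt_one (hz ρ hρ)] : 0 ≤ 1 - ρ.re))).1 h1.symm
    refine comb_zero_of_len ?_
    unfold len
    refine Finset.sum_eq_zero fun ρ hρ => ?_
    have h3 := h2 ρ hρ
    rcases mul_eq_zero.1 h3 with h4 | h4
    · exact h4
    · linarith [re_lt_one (hz ρ hρ)]
  unfold dep
  positivity

theorem genP : ∃ c C : ℝ, 0 < c ∧ 1 ≤ C ∧ ∀ (T r Φ : ℝ) (S : Finset ℂ) (k : ℂ → ℤ), 1 ≤ T → 0 < r →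
    r ≤ 1 / 4 → Φ = phi r T + Real.log (len S k) →
    (∀ ρ ∈ S, riemannZeta ρ = 0 ∧ 1 ≤ |ρ.im| ∧ |ρ.im| ≤ T) →
    ((C * dep S k * Φ ≤ r ∧ ∀ ρ ∈ S, zc r ρ.im ≤ 1) ∨ C * dep S k * Φ * (1 + num r S k) ≤ r) →
    (dep S k * vklam |comb S k| ≤ c → Even (∑ ρ ∈ S, k ρ) ∧ |comb S k| ≤ C * dep S k) ∧
    (∀ x : ℝ, 1 ≤ |comb S k| → |comb S k| ≤ T → 0 < x → x ≤ 1 / 4 → C * dep S k * phi x T ≤ x →
      (Odd (∑ ρ ∈ S, k ρ) → 1 ≤ zc x (comb S k) ∧ ∀ y : ℝ, x ≤ y → y ≤ 1 / 4 →
        C * x * phi y T * zc y (comb S k) < y → zc x (comb S k) = 1) ∧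
      (Even (∑ ρ ∈ S, k ρ) → x ≤ C * dep S k * phi x T * zc x (comb S k))) ∧
    (∀ ρ₀ ∈ S, (∀ ρ ∈ S, zc r ρ.im ≤ 1) → 0 < dep S k → r ≤ |ρ₀.im + comb S k| →
      ((1 ≤ |ρ₀.im + comb S k| ∧ |ρ₀.im + comb S k| ≤ T ∧ zc r (ρ₀.im + comb S k) = 0) ∨
        r * vklam |ρ₀.im + comb S k| ≤ c) →
      c * r * min 1 (Real.log (r / (C * dep S k * Φ)) / Φ) ≤ 1 - ρ₀.re) := by
  obtain ⟨c0, C0, hc0, hC0, hfull⟩ := full
  obtain ⟨c1, hc1, hdh⟩ := dh
  obtain ⟨C1, hC1, htm⟩ := tmL
  have hC10 : 0 < C1 := by linarith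
  obtain ⟨m, hm⟩ : ∃ m : ℝ, m = min c0 c1 := ⟨_, rfl⟩
  have hm0 : 0 < m := by rw [hm]; exact lt_min hc0 hc1
  have hmc0 : m ≤ c0 := by rw [hm]; exact min_le_left _ _
  have hmc1 : m ≤ c1 := by rw [hm]; exact min_le_right _ _
  obtain ⟨C, hC⟩ : ∃ C : ℝ, C = C1 / m + C0 * C1 := ⟨_, rfl⟩
  have hq : 0 < C1 / m := by positivity
  have hC0C1 : 1 ≤ C0 * C1 := one_le_mul_of_one_le_of_one_le hC0 hC1
  have hC0C : C0 ≤ C := by
    have : C0 * 1 ≤ C0 * C1 := mul_le_mul_of_nonneg_left hC1 (by linarith)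
    linarith
  have hCge : C1 ≤ C * m := by
    have h1 : C1 / m * m = C1 := by field_simp
    have h2 : C * m = C1 / m * m + C0 * C1 * m := by rw [hC]; ring
    have h3 : 0 ≤ C0 * C1 * m := by positivity
    linarith
  have hCp : 0 < C := by linarith
  refine ⟨m / C1, C, by positivity, by linarith, ?_⟩
  intro T r Φ S k hT hr hr4 hΦ hS hhyp
  have hmC1 : m / C1 ≤ m := div_le_self hm0.le hC1
  obtain ⟨E, hE1, hEb, hEt⟩ := htm r T hr hr4 hT
  have hpr := phi_half hr (by linarith : (0 : ℝ) ≤ T)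
  have hSz : ∀ ρ ∈ S, riemannZeta ρ = 0 := fun ρ hρ => (hS ρ hρ).1
  have hd0 : 0 ≤ dep S k := dep_nonneg' hSz
  have hln0 := len_nonneg S k
  have hlogl : 0 ≤ Real.log (len S k) := by
    rcases hln0.eq_or_lt with h | h
    · rw [← h, Real.log_zero]
    · refine Real.log_nonneg ?_
      by_contra h1
      push Not at h1
      -- a sum of absolute values of integers
      have h2 : len S k = ((∑ ρ ∈ S, |k ρ| : ℤ) : ℝ) := by
        unfold len
        push_cast
        rfl
      rw [h2] at h h1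
      have h3 : (0 : ℤ) < ∑ ρ ∈ S, |k ρ| := by exact_mod_cast h
      have h4 : (∑ ρ ∈ S, |k ρ| : ℤ) < 1 := by exact_mod_cast h1
      omega
  have hΦ0 : 0 < Φ := by rw [hΦ]; linarith
  have hnum0 : 0 ≤ num r S k := by
    unfold num
    exact mul_nonneg hln0 (Finset.sum_nonneg fun _ _ => by positivity)
  have hLL : LL E S k ≤ C1 * Φ := by
    unfold LL
    rcases hln0.eq_or_lt with h | h
    · rw [← h, mul_zero, Real.log_zero]
      positivity
    · rw [Real.log_mul (by linarith) h.ne', hΦ]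
      have : Real.log (len S k) ≤ C1 * Real.log (len S k) := le_mul_of_one_le_left hlogl hC1
      linarith
  have hbase : C * dep S k * Φ ≤ r := by
    rcases hhyp with h | h
    · exact h.1
    · have h1 : 0 ≤ C * dep S k * Φ * num r S k := by positivity
      linarith
  have hdL : dep S k * LL E S k ≤ m * r := by
    calc dep S k * LL E S k ≤ dep S k * (C1 * Φ) := mul_le_mul_of_nonneg_left hLL hd0
      _ = C1 * (dep S k * Φ) := by ring
      _ ≤ C * m * (dep S k * Φ) := mul_le_mul_of_nonneg_right hCge (by positivity)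
      _ = m * (C * dep S k * Φ) := by ring
      _ ≤ m * r := mul_le_mul_of_nonneg_left hbase hm0.le
  have hc0r : m * r ≤ c0 * r := mul_le_mul_of_nonneg_right hmc0 hr.le
  have hTM : ∀ ρ ∈ S, riemannZeta ρ = 0 ∧ 1 ≤ |ρ.im| ∧ TM r E ρ.im := fun ρ hρ =>
    ⟨(hS ρ hρ).1, (hS ρ hρ).2.1, hEt _ (hS ρ hρ).2.1 (hS ρ hρ).2.2⟩
  have halt : (∀ ρ ∈ S, zc r ρ.im ≤ 1) ∨ dep S k * num r S k * LL E S k ≤ c0 * r ∨
      dep S k * (len S k ^ 2 * E) * LL E S k ≤ c0 * r := by
    rcases hhyp with h | h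
    · exact Or.inl h.2
    · right
      left
      calc dep S k * num r S k * LL E S k ≤ dep S k * num r S k * (C1 * Φ) :=
            mul_le_mul_of_nonneg_left hLL (by positivity)
        _ = C1 * (dep S k * Φ * num r S k) := by ring
        _ ≤ C * m * (dep S k * Φ * num r S k) := mul_le_mul_of_nonneg_right hCge (by positivity)
        _ = m * (C * dep S k * Φ * (1 + num r S k)) - m * (C * dep S k * Φ) := by ring
        _ ≤ m * r := by
            have h1 := mul_le_mul_of_nonneg_left h hm0.le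
            have h2 : 0 ≤ m * (C * dep S k * Φ) := by positivity
            linarith
        _ ≤ c0 * r := hc0r
  obtain ⟨hA, hB⟩ := hfull r E S k hr hTM (hdL.trans hc0r) halt
  refine ⟨?_, ?_, ?_⟩
  · intro h
    obtain ⟨h1, h2⟩ := hB (h.trans (hmC1.trans hmc0))
    exact ⟨h1, h2.trans (mul_le_mul_of_nonneg_right hC0C hd0)⟩
  · intro x ht1 htT hx hx4 hxd
    obtain ⟨E', hE'1, hE'b, hE't⟩ := htm x T hx hx4 hT
    have hpx := phi_half hx (by linarith : (0 : ℝ) ≤ T)
    have hpx0 : 0 < phi x T := by linarith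
    have hlE' : 0 < Real.log (2 + E') := Real.log_pos (by linarith)
    have h1 : dep S k * Real.log (2 + E') ≤ c0 * x := by
      calc dep S k * Real.log (2 + E') ≤ dep S k * (C1 * phi x T) := mul_le_mul_of_nonneg_left hE'b hd0
        _ = C1 * (dep S k * phi x T) := by ring
        _ ≤ C * m * (dep S k * phi x T) := mul_le_mul_of_nonneg_right hCge (by positivity)
        _ = m * (C * dep S k * phi x T) := by ring
        _ ≤ m * x := mul_le_mul_of_nonneg_left hxd hm0.le
        _ ≤ c0 * x := mul_le_mul_of_nonneg_right hmc0 hx.le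
    obtain ⟨ho, he⟩ := hA x E' hx (hE't _ ht1 htT) h1
    refine ⟨fun hodd => ?_, fun heven => ?_⟩
    · obtain ⟨h2, h3⟩ := ho hodd
      refine ⟨h2, fun y hxy hy4 hy => ?_⟩
      have hy0 : 0 < y := hx.trans_le hxy
      obtain ⟨E'', hE''1, hE''b, hE''t⟩ := htm y T hy0 hy4 hT
      refine h3 y E'' hxy (hE''t _ ht1 htT) ?_
      have hpy := phi_half hy0 (by linarith : (0 : ℝ) ≤ T)
      have hzy : (0 : ℝ) ≤ zc y (comb S k) := Nat.cast_nonneg _
      have h4 : C0 * (x * Real.log (2 + E'') / y) * zc y (comb S k) ≤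
          (C * x * phi y T * zc y (comb S k)) / y := by
        have h5 : C0 * (x * Real.log (2 + E'') / y) * zc y (comb S k) =
            (C0 * Real.log (2 + E'')) * (x * zc y (comb S k) / y) := by ring
        have h6 : (C * x * phi y T * zc y (comb S k)) / y = (C * phi y T) * (x * zc y (comb S k) / y) := by
          ring
        rw [h5, h6]
        refine mul_le_mul_of_nonneg_right ?_ (by positivity)
        calc C0 * Real.log (2 + E'') ≤ C0 * (C1 * phi y T) :=
              mul_le_mul_of_nonneg_left hE''b (by linarith)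
          _ = C0 * C1 * phi y T := by ring
          _ ≤ C * phi y T := mul_le_mul_of_nonneg_right (by rw [hC]; linarith) (by linarith)
      refine h4.trans_lt ?_
      rw [div_lt_one hy0]
      exact hy
    · obtain ⟨h2, -⟩ := he heven
      have hcomb : comb S k ≠ 0 := by
        intro h0
        rw [h0, abs_zero] at ht1
        norm_num at ht1
      have hdp := dep_pos_of_comb hSz hcomb
      rw [div_le_iff₀ (by positivity)] at h2
      have hzx : (0 : ℝ) ≤ zc x (comb S k) := Nat.cast_nonneg _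
      have h3 : m * x ≤ C1 * (dep S k * phi x T * zc x (comb S k)) := by
        calc m * x ≤ c0 * x := mul_le_mul_of_nonneg_right hmc0 hx.le
          _ ≤ zc x (comb S k) * (dep S k * Real.log (2 + E')) := h2
          _ ≤ zc x (comb S k) * (dep S k * (C1 * phi x T)) := by gcongr
          _ = C1 * (dep S k * phi x T * zc x (comb S k)) := by ring
      have h4 : C1 * (dep S k * phi x T * zc x (comb S k)) ≤
          C * m * (dep S k * phi x T * zc x (comb S k)) := mul_le_mul_of_nonneg_right hCge (by positivity)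
      have h5 : m * x ≤ m * (C * dep S k * phi x T * zc x (comb S k)) := by
        calc m * x ≤ _ := h3
          _ ≤ _ := h4
          _ = m * (C * dep S k * phi x T * zc x (comb S k)) := by ring
      exact le_of_mul_le_mul_left h5 hm0
  · intro ρ₀ hρ₀ hz1 hdp hrt hlow
    have h1 := hdh r E S k ρ₀ hr (fun ρ hρ => ⟨(hTM ρ hρ).1, (hTM ρ hρ).2.1, (hTM ρ hρ).2.2, hz1 ρ hρ⟩)
      (hTM ρ₀ hρ₀).1 (hTM ρ₀ hρ₀).2.1 (hTM ρ₀ hρ₀).2.2 (hz1 ρ₀ hρ₀) hrt
      (hlow.imp (fun h => ⟨hEt _ h.1 h.2.1, h.2.2⟩) (fun h => h.trans (hmC1.trans hmc1))) hdp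
    refine le_trans ?_ h1
    have hlen1 := len_ge hdp
    have hLL0 : 0 < LL E S k := by
      unfold LL
      refine Real.log_pos ?_
      nlinarith
    obtain ⟨A, hA'⟩ : ∃ A : ℝ, A = Real.log (r / (C * dep S k * Φ)) := ⟨_, rfl⟩
    obtain ⟨A', hA''⟩ : ∃ A' : ℝ, A' = Real.log (c1 * r / (dep S k * LL E S k)) := ⟨_, rfl⟩
    rw [← hA', ← hA'']
    have hA0 : 0 ≤ A := by
      rw [hA']
      refine Real.log_nonneg ?_
      rw [one_le_div (by positivity)]
      exact hbase
    have hAA' : A ≤ A' := by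
      rw [hA', hA'']
      refine Real.log_le_log (by positivity) ?_
      rw [div_le_div_iff₀ (by positivity) (by positivity)]
      have h2 : dep S k * LL E S k ≤ m * (C * dep S k * Φ) := by
        calc dep S k * LL E S k ≤ dep S k * (C1 * Φ) := mul_le_mul_of_nonneg_left hLL hd0
          _ = C1 * (dep S k * Φ) := by ring
          _ ≤ C * m * (dep S k * Φ) := mul_le_mul_of_nonneg_right hCge (by positivity)
          _ = m * (C * dep S k * Φ) := by ring
      calc r * (dep S k * LL E S k) ≤ r * (m * (C * dep S k * Φ)) := mul_le_mul_of_nonneg_left h2 hr.le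
        _ = m * r * (C * dep S k * Φ) := by ring
        _ ≤ c1 * r * (C * dep S k * Φ) := by gcongr
    have h3 : 1 / C1 * min 1 (A / Φ) ≤ min 1 (A' / LL E S k) := by
      have hi : 1 / C1 ≤ 1 := by rw [div_le_one hC10]; exact hC1
      refine le_min ?_ ?_
      · have h4 : min 1 (A / Φ) ≤ 1 := min_le_left _ _
        have h5 : 0 ≤ min 1 (A / Φ) := le_min zero_le_one (by positivity)
        nlinarith
      · calc 1 / C1 * min 1 (A / Φ) ≤ 1 / C1 * (A / Φ) :=
              mul_le_mul_of_nonneg_left (min_le_right _ _) (by positivity)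
          _ = A / (C1 * Φ) := by field_simp
          _ ≤ A' / (C1 * Φ) := div_le_div_of_nonneg_right hAA' (by positivity)
          _ ≤ A' / LL E S k := div_le_div_of_nonneg_left (hA0.trans hAA') hLL0 hLL
    calc m / C1 * r * min 1 (A / Φ) = m * r * (1 / C1 * min 1 (A / Φ)) := by ring
      _ ≤ m * r * min 1 (A' / LL E S k) := mul_le_mul_of_nonneg_left h3 (by positivity)
      _ ≤ c1 * r * min 1 (A' / LL E S k) := by
          have h6 : 0 ≤ min 1 (A' / LL E S k) :=
            le_min zero_le_one (div_nonneg (hA0.trans hAA') hLL0.le)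
          exact mul_le_mul_of_nonneg_right (mul_le_mul_of_nonneg_right hmc1 hr.le) h6

end Pool.Agent.H76.SC
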