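import Mathlib
import Pool.Agent.H76.SC.Reg

/-!
# Inv: `1/ζ(1 + it)` is controlled by the nearest zero

Copy of `H76/LF/Inv.lean`.
-/

set_option autoImplicit false

open Complex

namespace Pool.Agent.H76.SC

open Pool.Agent.H76.CR Pool.Agent.H76.RP Pool.Agent.H76.GL Pool.Agent.H76.LF

private noncomputable def ivP {r : ℝ} (hr : r ≤ 1) (t : ℝ) (z : ℂ) : ℂ :=
  ∏ u ∈ (disc_finite hr t).toFinset, (z - u) ^ analyticOrderNatAt riemannZeta u

private theorem iv_sub_ne {r : ℝ} (hr : r ≤ 1) {t : ℝ} {s : ℂ} (hs : 1 ≤ s.re) {u : ℂ}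
    (hu : u ∈ (disc_finite hr t).toFinset) : s - u ≠ 0 := by
  rw [Set.Finite.mem_toFinset] at hu
  have hlt := re_lt_one hu.1
  intro h
  rw [sub_eq_zero] at h
  rw [h] at hs
  linarith

private theorem ivP_ne {r : ℝ} (hr : r ≤ 1) {t : ℝ} {s : ℂ} (hs : 1 ≤ s.re) : ivP hr t s ≠ 0 :=
  Finset.prod_ne_zero_iff.2 fun _ hu => pow_ne_zero _ (iv_sub_ne hr hs hu)

private theorem ivP_diff {r : ℝ} (hr : r ≤ 1) (t : ℝ) (s : ℂ) : DifferentiableAt ℂ (ivP hr t) s := by
  have h : ∀ u ∈ (disc_finite hr t).toFinset,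
      DifferentiableAt ℂ (fun z : ℂ => (z - u) ^ analyticOrderNatAt riemannZeta u) s := fun u _ =>
    (differentiableAt_id.sub_const u).pow _
  exact DifferentiableAt.fun_finsetProd h

private theorem iv_logP {r : ℝ} (hr : r ≤ 1) {t : ℝ} {s : ℂ} (hs : 1 ≤ s.re) :
    logDeriv (ivP hr t) s = LZ r t s := by
  have h : ∀ u ∈ (disc_finite hr t).toFinset,
      DifferentiableAt ℂ (fun z : ℂ => (z - u) ^ analyticOrderNatAt riemannZeta u) s := fun u _ =>
    (differentiableAt_id.sub_const u).pow _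
  have h1 := logDeriv_prod (s := (disc_finite hr t).toFinset)
    (f := fun u (z : ℂ) => (z - u) ^ analyticOrderNatAt riemannZeta u) (x := s)
    (fun u hu => pow_ne_zero _ (iv_sub_ne hr hs hu)) h
  have h2 : logDeriv (ivP hr t) s = ∑ u ∈ (disc_finite hr t).toFinset,
      logDeriv (fun z : ℂ => (z - u) ^ analyticOrderNatAt riemannZeta u) s := h1
  rw [h2, LZ_sum hr]
  refine Finset.sum_congr rfl fun u hu => ?_
  have h3 : logDeriv (fun z : ℂ => z - u) s = 1 / (s - u) := by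
    rw [logDeriv_apply, deriv_sub_const, deriv_id'']
  have h4 : DifferentiableAt ℂ (fun z : ℂ => z - u) s := differentiableAt_id.sub_const u
  rw [logDeriv_fun_pow (f := fun z : ℂ => z - u) h4, h3, mul_one_div]

private theorem iv_deriv {r : ℝ} (hr : r ≤ 1) {t : ℝ} {s : ℂ} (hs : 1 ≤ s.re) (hs1 : s ≠ 1) :
    HasDerivAt (fun z => riemannZeta z / ivP hr t z)
      ((deriv riemannZeta s / riemannZeta s - LZ r t s) * (riemannZeta s / ivP hr t s)) s := by
  have hζ : riemannZeta s ≠ 0 := riemannZeta_ne_zero_of_one_le_re hs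
  have hdζ := differentiableAt_riemannZeta hs1
  have hP := ivP_ne hr (t := t) hs
  have hdP := ivP_diff hr t s
  have hd : DifferentiableAt ℂ (fun z => riemannZeta z / ivP hr t z) s := hdζ.fun_div hdP hP
  have h1 := logDeriv_div s hζ hP hdζ hdP
  have h2 : deriv (fun z => riemannZeta z / ivP hr t z) s =
      (deriv riemannZeta s / riemannZeta s - LZ r t s) * (riemannZeta s / ivP hr t s) := by
    rw [iv_logP hr hs, logDeriv_apply, logDeriv_apply] at h1
    have h3 : riemannZeta s / ivP hr t s ≠ 0 := div_ne_zero hζ hP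
    rw [div_eq_iff h3] at h1
    exact h1
  rw [← h2]
  exact hd.hasDerivAt

/-- Grönwall: the quotient at `1 + b0 + it` and at `1 + it` -/
private theorem iv_gron {r : ℝ} (hr : r ≤ 1) {t : ℝ} (ht : t ≠ 0) {b0 M : ℝ} (hb0 : 0 ≤ b0)
    (hM : ∀ b : ℝ, 0 ≤ b → b ≤ b0 →
      ‖deriv riemannZeta (1 + b + t * I) / riemannZeta (1 + b + t * I) - LZ r t (1 + b + t * I)‖ ≤ M) :
    ‖riemannZeta (1 + b0 + t * I) / ivP hr t (1 + b0 + t * I)‖ ≤
      ‖riemannZeta (1 + t * I) / ivP hr t (1 + t * I)‖ * Real.exp (M * b0) := by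
  have hne : ∀ b : ℝ, (1 + b + t * I : ℂ) ≠ 1 := by
    intro b h
    have := congrArg Complex.im h
    simp at this
    exact ht this
  have hre : ∀ b : ℝ, 0 ≤ b → 1 ≤ (1 + b + t * I : ℂ).re := by
    intro b hb
    simp
    exact hb
  have hder : ∀ b : ℝ, 0 ≤ b → HasDerivAt (fun x : ℝ => riemannZeta (1 + x + t * I) / ivP hr t (1 + x + t * I))
      ((deriv riemannZeta (1 + b + t * I) / riemannZeta (1 + b + t * I) - LZ r t (1 + b + t * I)) *
        (riemannZeta (1 + b + t * I) / ivP hr t (1 + b + t * I))) b := by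
    intro b hb
    have h1 := iv_deriv hr (t := t) (hre b hb) (hne b)
    have h2 : HasDerivAt (fun x : ℝ => (1 + x + t * I : ℂ)) 1 b := by
      have h3 : HasDerivAt (fun x : ℝ => (x : ℂ)) 1 b := Complex.ofRealCLM.hasDerivAt
      have h4 := (h3.const_add 1).add_const ((t : ℂ) * I)
      exact h4
    have h5 := h1.scomp b h2
    rw [one_smul] at h5
    exact h5
  have h := norm_le_gronwallBound_of_norm_deriv_right_le
    (f := fun x : ℝ => riemannZeta (1 + x + t * I) / ivP hr t (1 + x + t * I))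
    (f' := fun b : ℝ => (deriv riemannZeta (1 + b + t * I) / riemannZeta (1 + b + t * I) -
      LZ r t (1 + b + t * I)) * (riemannZeta (1 + b + t * I) / ivP hr t (1 + b + t * I)))
    (δ := ‖riemannZeta (1 + t * I) / ivP hr t (1 + t * I)‖) (K := M) (ε := 0) (a := 0) (b := b0)
    (fun b hb => (hder b hb.1).continuousAt.continuousWithinAt)
    (fun b hb => (hder b hb.1).hasDerivWithinAt)
    (by
      simp only [ofReal_zero, add_zero]
      exact le_rfl)
    (fun b hb => by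
      rw [norm_mul, add_zero]
      exact mul_le_mul_of_nonneg_right (hM b hb.1 hb.2.le) (norm_nonneg _))
    b0 ⟨hb0, le_rfl⟩
  rw [gronwallBound_ε0, sub_zero] at h
  exact h

/-- comparison of the products -/
private theorem iv_prod {r : ℝ} (hr : r ≤ 1) {t b0 x δ : ℝ} (hb0 : 0 < b0) (hx : 0 < x) (hxr : x ≤ r) (hδ : 0 < δ)
    (hdisc : disc δ t = ∅) (hz : zc x t ≤ 1) :
    ‖ivP hr t (1 + b0 + t * I)‖ ≤
      (1 + b0 / δ) * (1 + b0 / x) ^ zc r t * ‖ivP hr t (1 + t * I)‖ := by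
  classical
  set F := (disc_finite hr t).toFinset with hF
  set m : ℂ → ℕ := fun u => analyticOrderNatAt riemannZeta u with hm
  set A : ℝ := 1 + b0 / x with hA
  set B : ℝ := 1 + b0 / δ with hB
  have hA1 : 1 ≤ A := by
    have : 0 ≤ b0 / x := by positivity
    linarith
  have hB1 : 1 ≤ B := by
    have : 0 ≤ b0 / δ := by positivity
    linarith
  have hterm : ∀ u ∈ F, ‖(1 + b0 + t * I : ℂ) - u‖ ≤
      (if ‖u - (1 + t * I)‖ < x then B else A) * ‖(1 + t * I : ℂ) - u‖ := by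
    intro u hu
    have hu' := hu
    rw [hF, Set.Finite.mem_toFinset] at hu'
    have h1 : ‖(1 + b0 + t * I : ℂ) - u‖ ≤ b0 + ‖(1 + t * I : ℂ) - u‖ := by
      have e : (1 + b0 + t * I : ℂ) - u = ((b0 : ℝ) : ℂ) + ((1 + t * I : ℂ) - u) := by ring
      rw [e]
      refine (norm_add_le _ _).trans ?_
      rw [norm_real, Real.norm_eq_abs, abs_of_pos hb0]
    have h2 : ∀ y : ℝ, 0 < y → y ≤ ‖(1 + t * I : ℂ) - u‖ →
        ‖(1 + b0 + t * I : ℂ) - u‖ ≤ (1 + b0 / y) * ‖(1 + t * I : ℂ) - u‖ := by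
      intro y hy hyu
      refine h1.trans ?_
      rw [add_mul, one_mul]
      have h3 : b0 / y * y ≤ b0 / y * ‖(1 + t * I : ℂ) - u‖ :=
        mul_le_mul_of_nonneg_left hyu (by positivity)
      rw [div_mul_cancel₀ _ hy.ne'] at h3
      linarith
    split_ifs with h
    · refine h2 δ hδ ?_
      by_contra hc
      rw [not_le] at hc
      have h4 : u ∈ disc δ t := ⟨hu'.1, by rw [norm_sub_rev]; exact hc⟩
      rw [hdisc] at h4
      exact h4
    · refine h2 x hx ?_
      rw [norm_sub_rev]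
      exact not_lt.1 h
  have hc0 : ∀ u : ℂ, (0 : ℝ) ≤ (if ‖u - (1 + t * I)‖ < x then B else A) := by
    intro u
    split_ifs <;> linarith
  unfold ivP
  rw [norm_prod, norm_prod]
  have h1 : ∏ u ∈ F, ‖((1 + b0 + t * I : ℂ) - u) ^ m u‖ ≤
      ∏ u ∈ F, ((if ‖u - (1 + t * I)‖ < x then B else A) ^ m u * ‖((1 + t * I : ℂ) - u) ^ m u‖) := by
    refine Finset.prod_le_prod (fun u _ => norm_nonneg _) fun u hu => ?_
    rw [norm_pow, norm_pow, ← mul_pow]
    exact pow_le_pow_left₀ (norm_nonneg _) (hterm u hu) _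
  refine h1.trans ?_
  rw [Finset.prod_mul_distrib]
  refine mul_le_mul_of_nonneg_right ?_ (Finset.prod_nonneg fun u _ => norm_nonneg _)
  rw [← Finset.prod_filter_mul_prod_filter_not F (fun u => ‖u - (1 + t * I)‖ < x)]
  have h2 : ∏ u ∈ F.filter (fun u => ‖u - (1 + t * I)‖ < x), (if ‖u - (1 + t * I)‖ < x then B else A) ^ m u =
      B ^ ∑ u ∈ F.filter (fun u => ‖u - (1 + t * I)‖ < x), m u := by
    rw [← Finset.prod_pow_eq_pow_sum]
    refine Finset.prod_congr rfl fun u hu => ?_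
    rw [if_pos (Finset.mem_filter.1 hu).2]
  have h3 : ∏ u ∈ F.filter (fun u => ¬ ‖u - (1 + t * I)‖ < x), (if ‖u - (1 + t * I)‖ < x then B else A) ^ m u =
      A ^ ∑ u ∈ F.filter (fun u => ¬ ‖u - (1 + t * I)‖ < x), m u := by
    rw [← Finset.prod_pow_eq_pow_sum]
    refine Finset.prod_congr rfl fun u hu => ?_
    rw [if_neg (Finset.mem_filter.1 hu).2]
  rw [h2, h3]
  have h4 : ∑ u ∈ F.filter (fun u => ‖u - (1 + t * I)‖ < x), m u ≤ 1 := by
    refine le_trans ?_ hz
    refine zc_ge (hxr.trans hr) t _ fun u hu => ?_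
    have h5 := Finset.mem_filter.1 hu
    have h6 := h5.1
    rw [hF, Set.Finite.mem_toFinset] at h6
    exact ⟨h6.1, h5.2⟩
  have h5 : ∑ u ∈ F.filter (fun u => ¬ ‖u - (1 + t * I)‖ < x), m u ≤ zc r t := by
    rw [zc_sum hr]
    exact Finset.sum_le_sum_of_subset (Finset.filter_subset _ _)
  have h6 : B ^ ∑ u ∈ F.filter (fun u => ‖u - (1 + t * I)‖ < x), m u ≤ B := by
    calc B ^ ∑ u ∈ F.filter (fun u => ‖u - (1 + t * I)‖ < x), m u ≤ B ^ 1 := pow_le_pow_right₀ hB1 h4
      _ = B := pow_one B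
  have h7 : A ^ ∑ u ∈ F.filter (fun u => ¬ ‖u - (1 + t * I)‖ < x), m u ≤ A ^ zc r t := pow_le_pow_right₀ hA1 h5
  exact mul_le_mul h6 h7 (by positivity) (by linarith)

theorem inv1 : ∃ C : ℝ, 1 ≤ C ∧ ∀ r E t : ℝ, 0 < r → TM r E t → ∀ δ : ℝ, 0 < δ → disc δ t = ∅ →
      1 / ‖riemannZeta (1 + t * I)‖ ≤
        C * Real.exp (C * zc r t * Real.log (2 + zc r t)) * (Real.log (2 + E) / r + 1 / δ) := by
  obtain ⟨cm, Cm, hcm, hcm1, hCm, hmain⟩ := mainF
  obtain ⟨Cl, hCl, hlow⟩ := lowA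
  obtain ⟨Cr, hCr, hreg⟩ := reg
  set CF : ℝ := 4 * Cl * Real.exp (Cm / 4) + (Cm + 1 + 2 * Cr) with hCF
  have hCF0 : 0 ≤ 4 * Cl * Real.exp (Cm / 4) := by positivity
  refine ⟨CF, by linarith, ?_⟩
  intro r E t hr hT δ hδ hdisc
  have hr1 : r ≤ 1 := hT.le_one
  have hE1 : 1 ≤ E := hT.one_le hr
  set L : ℝ := Real.log (2 + E) with hL
  have hL1 : 1 ≤ L := by
    rw [hL, Real.le_log_iff_exp_le (by linarith)]
    have := Real.exp_one_lt_d9
    linarith
  have htr := hT.lt_abs hr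
  have ht0 : t ≠ 0 := by
    rintro rfl
    rw [abs_zero] at htr
    linarith
  set n : ℝ := (zc r t : ℝ) with hn
  have hn0 : 0 ≤ n := Nat.cast_nonneg _
  set b0 : ℝ := r / (4 * L) with hb0def
  have hb0 : 0 < b0 := by positivity
  have hb0r : b0 ≤ r / 4 := by
    rw [hb0def]
    exact div_le_div_of_nonneg_left hr.le (by norm_num) (by linarith)
  have hb01 : b0 ≤ 1 := by linarith
  have hLr : 0 < L / r := by positivity
  -- the local formula
  have hM : ∀ b : ℝ, 0 ≤ b → b ≤ b0 →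
      ‖deriv riemannZeta (1 + b + t * I) / riemannZeta (1 + b + t * I) - LZ r t (1 + b + t * I)‖ ≤
        Cm * (1 + n) * L / r := by
    intro b hb hbb
    have hre : (1 + b + t * I : ℂ).re = 1 + b := by simp
    have e : (1 + b + t * I : ℂ) - (1 + t * I) = ((b : ℝ) : ℂ) := by ring
    refine hmain r E t hr hT _ ?_ ?_ ?_
    · rw [e, norm_real, Real.norm_eq_abs, abs_of_nonneg hb]
      linarith
    · rw [hre]
      have : 0 ≤ cm * r / L := by positivity
      linarith
    · exact riemannZeta_ne_zero_of_one_le_re (by rw [hre]; linarith)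
  have hG := iv_gron hr1 ht0 hb0.le hM
  have hMb : Cm * (1 + n) * L / r * b0 = Cm * (1 + n) / 4 := by
    rw [hb0def]
    field_simp
  rw [hMb, norm_div, norm_div] at hG
  -- the number of zeros near
  set x : ℝ := r / (2 * Cr * L * (1 + n)) with hxdef
  have hx0 : 0 < x := by positivity
  have hxr : x ≤ r := by
    rw [hxdef, div_le_iff₀ (by positivity)]
    have h1 : 1 ≤ 2 * Cr * L * (1 + n) := by
      have h2 : 1 ≤ Cr * L := by nlinarith
      have h3 : 1 ≤ Cr * L * (1 + n) := by nlinarith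
      linarith
    nlinarith
  have hzx : zc x t ≤ 1 := by
    have h1 := hreg r E t hr hT x hx0 hxr
    have h2 : Cr * (x * L / r) * n ≤ 1 / 2 := by
      have e : Cr * (x * L / r) * n = n / (2 * (1 + n)) := by
        rw [hxdef]
        field_simp
      rw [e, div_le_iff₀ (by positivity)]
      linarith
    have h3 : (zc x t : ℝ) < 2 := by
      have h4 : (zc x t : ℝ) ≤ 1 + Cr * (x * L / r) * n := h1
      linarith
    have h4 : zc x t < 2 := by exact_mod_cast h3
    omega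
  have hprod := iv_prod hr1 hb0 hx0 hxr hδ hdisc hzx
  have hζ0 : riemannZeta (1 + t * I) ≠ 0 := riemannZeta_ne_zero_of_one_le_re (by simp)
  have hP0 : 0 < ‖ivP hr1 t (1 + t * I)‖ := norm_pos_iff.2 (ivP_ne hr1 (by simp))
  have hPb : 0 < ‖ivP hr1 t (1 + b0 + t * I)‖ := norm_pos_iff.2 (ivP_ne hr1 (by simp; exact hb0.le))
  have hz0 : 0 < ‖riemannZeta (1 + t * I)‖ := norm_pos_iff.2 hζ0
  have hlb := (hlow b0 hb0 hb01).2.2 t
  have ecast : (((1 + b0 : ℝ) : ℂ) + t * I) = (1 + b0 + t * I : ℂ) := by push_cast; ring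
  rw [ecast] at hlb
  set Zb : ℝ := ‖riemannZeta (1 + b0 + t * I)‖ with hZb
  set Z0 : ℝ := ‖riemannZeta (1 + t * I)‖ with hZ0
  set Pb : ℝ := ‖ivP hr1 t (1 + b0 + t * I)‖ with hPbd
  set P0 : ℝ := ‖ivP hr1 t (1 + t * I)‖ with hP0d
  set A : ℝ := 1 + b0 / x with hA
  set B : ℝ := 1 + b0 / δ with hB
  have hA1 : 1 ≤ A := by
    have : 0 ≤ b0 / x := by positivity
    linarith
  have hB0 : 0 < B := by
    have : 0 ≤ b0 / δ := by positivity
    linarith
  -- `b0 ≤ Cl Zb ≤ Cl Z0 exp(..) B A^n`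
  have h1 : Zb ≤ Z0 * Real.exp (Cm * (1 + n) / 4) * (B * A ^ zc r t) := by
    rw [div_le_iff₀ hPb] at hG
    refine hG.trans ?_
    calc Z0 / P0 * Real.exp (Cm * (1 + n) / 4) * Pb
        ≤ Z0 / P0 * Real.exp (Cm * (1 + n) / 4) * (B * A ^ zc r t * P0) :=
          mul_le_mul_of_nonneg_left hprod (by positivity)
      _ = Z0 * Real.exp (Cm * (1 + n) / 4) * (B * A ^ zc r t) := by
          field_simp
  have h2 : b0 ≤ Cl * (Z0 * Real.exp (Cm * (1 + n) / 4) * (B * A ^ zc r t)) :=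
    hlb.trans (mul_le_mul_of_nonneg_left h1 (by linarith))
  have h3 : 1 / Z0 ≤ Cl / b0 * (Real.exp (Cm * (1 + n) / 4) * (B * A ^ zc r t)) := by
    rw [div_le_iff₀ hz0]
    have e : Cl / b0 * (Real.exp (Cm * (1 + n) / 4) * (B * A ^ zc r t)) * Z0 =
        Cl * (Z0 * Real.exp (Cm * (1 + n) / 4) * (B * A ^ zc r t)) / b0 := by
      field_simp
    rw [e, le_div_iff₀ hb0, one_mul]
    exact h2
  refine h3.trans ?_
  -- the exponential factors
  have hl2 : 1 / 2 ≤ Real.log (2 + n) := by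
    have h4 : Real.log 2 ≤ Real.log (2 + n) := Real.log_le_log (by norm_num) (by linarith)
    have := Real.log_two_gt_d9
    linarith
  have hAn : A ^ zc r t ≤ Real.exp ((1 + 2 * Cr) * n * Real.log (2 + n)) := by
    have hA2 : A ≤ (1 + Cr) * (2 + n) := by
      have e : b0 / x = Cr * (1 + n) / 2 := by
        rw [hb0def, hxdef]
        field_simp
        norm_num
      rw [hA, e]
      nlinarith
    have hlA : Real.log A ≤ (1 + 2 * Cr) * Real.log (2 + n) := by
      have h4 : Real.log A ≤ Real.log ((1 + Cr) * (2 + n)) := Real.log_le_log (by linarith) hA2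
      rw [Real.log_mul (by linarith) (by linarith)] at h4
      have h5 : Real.log (1 + Cr) ≤ Cr := by
        have := Real.log_le_sub_one_of_pos (show 0 < 1 + Cr by linarith)
        linarith
      nlinarith
    have h4 : A ^ zc r t = Real.exp (n * Real.log A) := by
      rw [hn, Real.exp_nat_mul, Real.exp_log (by linarith)]
    rw [h4]
    refine Real.exp_le_exp.2 ?_
    have h5 := mul_le_mul_of_nonneg_left hlA hn0
    linarith
  have hexp1 : Real.exp (Cm * (1 + n) / 4) ≤ Real.exp (Cm / 4) * Real.exp (Cm * n * Real.log (2 + n)) := by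
    rw [← Real.exp_add]
    refine Real.exp_le_exp.2 ?_
    have h4 : 0 ≤ Cm * n := by positivity
    have h5 : Cm * n * (1 / 4) ≤ Cm * n * Real.log (2 + n) := mul_le_mul_of_nonneg_left (by linarith) h4
    linarith
  have hclb : Cl / b0 * B ≤ 4 * Cl * (L / r + 1 / δ) := by
    have e : Cl / b0 * B = Cl * (4 * (L / r) + 1 / δ) := by
      rw [hB, hb0def]
      field_simp
    rw [e]
    have : 0 < 1 / δ := by positivity
    nlinarith
  have hS0 : 0 ≤ L / r + 1 / δ := by positivity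
  calc Cl / b0 * (Real.exp (Cm * (1 + n) / 4) * (B * A ^ zc r t))
      = Cl / b0 * B * (Real.exp (Cm * (1 + n) / 4) * A ^ zc r t) := by ring
    _ ≤ 4 * Cl * (L / r + 1 / δ) * (Real.exp (Cm / 4) * Real.exp (Cm * n * Real.log (2 + n)) *
          Real.exp ((1 + 2 * Cr) * n * Real.log (2 + n))) := by
        refine mul_le_mul hclb (mul_le_mul hexp1 hAn (by positivity) (by positivity)) (by positivity) (by positivity)
    _ = 4 * Cl * Real.exp (Cm / 4) * Real.exp ((Cm + 1 + 2 * Cr) * n * Real.log (2 + n)) * (L / r + 1 / δ) := by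
        have e : (Cm + 1 + 2 * Cr) * n * Real.log (2 + n) =
            Cm * n * Real.log (2 + n) + (1 + 2 * Cr) * n * Real.log (2 + n) := by ring
        rw [e, Real.exp_add]
        ring
    _ ≤ CF * Real.exp (CF * n * Real.log (2 + n)) * (L / r + 1 / δ) := by
        refine mul_le_mul_of_nonneg_right ?_ hS0
        refine mul_le_mul (by linarith) (Real.exp_le_exp.2 ?_) (Real.exp_pos _).le (by linarith)
        have h4 : 0 ≤ n * Real.log (2 + n) := mul_nonneg hn0 (by linarith)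
        have h5 : (Cm + 1 + 2 * Cr) * (n * Real.log (2 + n)) ≤ CF * (n * Real.log (2 + n)) :=
          mul_le_mul_of_nonneg_right (by linarith) h4
        calc (Cm + 1 + 2 * Cr) * n * Real.log (2 + n) = (Cm + 1 + 2 * Cr) * (n * Real.log (2 + n)) := by ring
          _ ≤ CF * (n * Real.log (2 + n)) := h5
          _ = CF * n * Real.log (2 + n) := by ring

end Pool.Agent.H76.SC
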