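import Mathlib
import Pool.Agent.H76.SC.Vir
import Pool.Agent.H76.SC.Phi

/-!
# LPage: two zeros near the line `Re s = 1`

As `H76/LP/LPage.lean`, with `phi` in place of `psi`.
-/

set_option autoImplicit false

open Complex

namespace Pool.Agent.H76.SC

open Pool.Agent.H76.CR Pool.Agent.H76.RP Pool.Agent.H76.GS Pool.Agent.H76.GL Pool.Agent.H52.ZR Pool.Agent.H76.LP

private theorem LPage_first : ∃ c C : ℝ, 0 < c ∧ 1 ≤ C ∧ ∀ (T d r : ℝ) (ρ ρ' : ℂ), 1 ≤ T → 0 < d → r ≤ 1 / 4 →
    riemannZeta ρ = 0 → riemannZeta ρ' = 0 → 1 - d ≤ ρ.re → 1 - d ≤ ρ'.re →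
    1 ≤ |ρ.im| → |ρ.im| ≤ T → 1 ≤ |ρ'.im| → |ρ'.im| ≤ T → 0 < r → ρ ≠ ρ' →
    C * d * phi r T * (1 + zc r ρ.im + zc r ρ'.im) ≤ r →
      |ρ.im - ρ'.im| ≤ C * d ∨ c ≤ d * vklam |ρ.im - ρ'.im| := by
  obtain ⟨cv, Cv, hcv, hCv, hvir⟩ := vir
  obtain ⟨C1, hC1, hric⟩ := tmL
  set C : ℝ := 16 * C1 / cv + 4 * Cv with hC
  have hq : 0 < 16 * C1 / cv := by positivity
  refine ⟨cv / 4, C, by positivity, by linarith, ?_⟩
  intro T d r ρ ρ' hT hd hr4 hz hz' hre hre' him1 himT him1' himT' hr hne hK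
  obtain ⟨E, hE1, hEb, hEt⟩ := hric r T hr hr4 hT
  have hpsi := phi_half hr (by linarith : (0 : ℝ) ≤ T)
  set P : ℝ := phi r T with hP
  set n : ℝ := (zc r ρ.im : ℝ) with hn
  set n' : ℝ := (zc r ρ'.im : ℝ) with hn'
  have hn0 : 0 ≤ n := Nat.cast_nonneg _
  have hn0' : 0 ≤ n' := Nat.cast_nonneg _
  have hlogE : 0 ≤ Real.log (2 + E) := Real.log_nonneg (by linarith)
  set S : Finset ℂ := {ρ, ρ'} with hS
  set k : ℂ → ℤ := fun u => if u = ρ then 1 else if u = ρ' then -1 else 0 with hk
  have hkρ : k ρ = 1 := by simp [hk]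
  have hkρ' : k ρ' = -1 := by
    have : ¬ (ρ' = ρ) := fun h => hne h.symm
    simp [hk, this]
  have hlen : len S k = 2 := by
    unfold len
    rw [hS, Finset.sum_pair hne, hkρ, hkρ']
    norm_num
  have hcomb : comb S k = ρ.im - ρ'.im := by
    unfold comb
    rw [hS, Finset.sum_pair hne, hkρ, hkρ']
    push_cast
    ring
  have hdep : dep S k = 2 * ((1 - ρ.re) + (1 - ρ'.re)) := by
    unfold dep
    rw [hlen, hS, Finset.sum_pair hne, hkρ, hkρ']
    norm_num
  have hnum : num r S k = 2 * (n + n') := by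
    unfold num
    rw [hlen, hS, Finset.sum_pair hne, hkρ, hkρ']
    norm_num [hn, hn']
  have hρ1 := re_lt_one hz
  have hρ1' := re_lt_one hz'
  have hdep0 : 0 ≤ dep S k := by rw [hdep]; linarith
  have hdep4 : dep S k ≤ 4 * d := by rw [hdep]; linarith
  have hLL : LL E S k ≤ 2 * (C1 * P) := by
    unfold LL
    rw [hlen, Real.log_mul (by linarith) (by norm_num)]
    have : Real.log 2 ≤ Real.log (2 + E) := Real.log_le_log (by norm_num) (by linarith)
    linarith
  have hLL0 : 0 ≤ LL E S k := by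
    unfold LL
    rw [hlen]
    exact Real.log_nonneg (by linarith)
  have hP0 : 0 < P := by linarith
  have hCq : 16 * C1 / cv ≤ C := by
    rw [hC]
    linarith
  -- the condition with the constant `16 C1 / cv`
  have hK1 : 16 * C1 * (d * P * (1 + n + n')) ≤ cv * r := by
    have h1 : 16 * C1 / cv * (d * P * (1 + n + n')) ≤ r := by
      refine le_trans ?_ hK
      have h2 : 0 ≤ d * P * (1 + n + n') := by positivity
      have h3 := mul_le_mul_of_nonneg_right hCq h2
      have h4 : C * (d * P * (1 + n + n')) = C * d * P * (1 + n + n') := by ring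
      linarith
    rw [div_mul_eq_mul_div, div_le_iff₀ hcv] at h1
    linarith
  have hdP : 0 ≤ d * P := by positivity
  have hdPn : 0 ≤ d * P * (n + n') := by positivity
  have hA : dep S k * LL E S k ≤ cv * r := by
    calc dep S k * LL E S k ≤ (4 * d) * (2 * (C1 * P)) :=
          mul_le_mul hdep4 hLL hLL0 (by positivity)
      _ = 8 * C1 * (d * P) := by ring
      _ ≤ 16 * C1 * (d * P * (1 + n + n')) := by
          have h1 : 16 * C1 * (d * P * (1 + n + n')) = 16 * C1 * (d * P) + 16 * C1 * (d * P * (n + n')) := by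
            ring
          have h2 : 0 ≤ 16 * C1 * (d * P * (n + n')) := by positivity
          have h3 : 0 ≤ 8 * C1 * (d * P) := by positivity
          linarith
      _ ≤ cv * r := hK1
  have hB : dep S k * num r S k * LL E S k ≤ cv * r := by
    calc dep S k * num r S k * LL E S k ≤ ((4 * d) * (2 * (n + n'))) * (2 * (C1 * P)) := by
          refine mul_le_mul ?_ hLL hLL0 (by positivity)
          rw [hnum]
          exact mul_le_mul_of_nonneg_right hdep4 (by positivity)
      _ = 16 * C1 * (d * P * (n + n')) := by ring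
      _ ≤ 16 * C1 * (d * P * (1 + n + n')) := by
          have h1 : 16 * C1 * (d * P * (1 + n + n')) = 16 * C1 * (d * P) + 16 * C1 * (d * P * (n + n')) := by
            ring
          have h3 : 0 ≤ 16 * C1 * (d * P) := by positivity
          linarith
      _ ≤ cv * r := hK1
  have hmain := hvir r E S k hr (by
    intro u hu
    rw [hS, Finset.mem_insert, Finset.mem_singleton] at hu
    rcases hu with rfl | rfl
    · exact ⟨hz, him1, hEt _ him1 himT⟩
    · exact ⟨hz', him1', hEt _ him1' himT'⟩) hA (Or.inr (Or.inl hB))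
  rw [hcomb] at hmain
  rcases lt_or_ge (d * vklam |ρ.im - ρ'.im|) (cv / 4) with h | h
  · left
    have hv : 0 ≤ vklam |ρ.im - ρ'.im| := by
      have := vklam_ge (abs_nonneg (ρ.im - ρ'.im))
      linarith
    have h1 : dep S k * vklam |ρ.im - ρ'.im| ≤ cv := by
      have h2 := mul_le_mul_of_nonneg_right hdep4 hv
      linarith
    have h3 := (hmain h1).2
    have h4 : Cv * dep S k ≤ Cv * (4 * d) := mul_le_mul_of_nonneg_left hdep4 (by linarith)
    have h5 : 4 * Cv * d ≤ C * d := by
      refine mul_le_mul_of_nonneg_right ?_ hd.le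
      rw [hC]
      linarith
    linarith
  · right
    exact h

theorem lpage : ∃ c C : ℝ, 0 < c ∧ 1 ≤ C ∧ ∀ (T d r : ℝ) (ρ ρ' : ℂ), 1 ≤ T → 0 < d → r ≤ 1 / 4 →
    riemannZeta ρ = 0 → riemannZeta ρ' = 0 → 1 - d ≤ ρ.re → 1 - d ≤ ρ'.re →
    1 ≤ |ρ.im| → |ρ.im| ≤ T → 1 ≤ |ρ'.im| → |ρ'.im| ≤ T → 0 < r →
    (C * d * phi r T * (1 + zc r ρ.im + zc r ρ'.im) ≤ r →
      |ρ.im - ρ'.im| ≤ C * d ∨ c ≤ d * vklam |ρ.im - ρ'.im|) ∧
    (C * d * phi r T ≤ r → zc r ρ.im ≤ 1 → zc r ρ'.im ≤ 1 → ρ ≠ ρ' →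
      c ≤ d * vklam |ρ.im - ρ'.im|) := by
  obtain ⟨c, C0, hc, hC0, hfirst⟩ := LPage_first
  refine ⟨c, 4 * C0 + 4, hc, by linarith, ?_⟩
  intro T d r ρ ρ' hT hd hr4 hz hz' hre hre' him1 himT him1' himT' hr
  have hpsi := phi_half hr (by linarith : (0 : ℝ) ≤ T)
  have hP0 : 0 < phi r T := by linarith
  have hn0 : (0 : ℝ) ≤ (zc r ρ.im : ℝ) := Nat.cast_nonneg _
  have hn0' : (0 : ℝ) ≤ (zc r ρ'.im : ℝ) := Nat.cast_nonneg _
  have hcase : ρ ≠ ρ' → C0 * d * phi r T * (1 + zc r ρ.im + zc r ρ'.im) ≤ r →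
      |ρ.im - ρ'.im| ≤ C0 * d ∨ c ≤ d * vklam |ρ.im - ρ'.im| := fun hne h =>
    hfirst T d r ρ ρ' hT hd hr4 hz hz' hre hre' him1 himT him1' himT' hr hne h
  constructor
  · intro hK
    rcases eq_or_ne ρ ρ' with rfl | hne
    · left
      rw [sub_self, abs_zero]
      positivity
    · have h1 : C0 * d * phi r T * (1 + zc r ρ.im + zc r ρ'.im) ≤ r := by
        refine le_trans ?_ hK
        refine mul_le_mul_of_nonneg_right ?_ (by positivity)
        refine mul_le_mul_of_nonneg_right ?_ hP0.le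
        refine mul_le_mul_of_nonneg_right ?_ hd.le
        linarith
      rcases hcase hne h1 with h | h
      · left
        have h2 : C0 * d ≤ (4 * C0 + 4) * d := mul_le_mul_of_nonneg_right (by linarith) hd.le
        linarith
      · right
        exact h
  · intro hK hone hone' hne
    have hn1 : (zc r ρ.im : ℝ) ≤ 1 := by exact_mod_cast hone
    have hn1' : (zc r ρ'.im : ℝ) ≤ 1 := by exact_mod_cast hone'
    have hdP : 0 < d * phi r T := by positivity
    have h1 : C0 * d * phi r T * (1 + zc r ρ.im + zc r ρ'.im) ≤ r := by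
      have h2 : C0 * d * phi r T * (1 + zc r ρ.im + zc r ρ'.im) ≤ C0 * d * phi r T * 3 :=
        mul_le_mul_of_nonneg_left (by linarith) (by positivity)
      have h3 : C0 * d * phi r T * 3 = 3 * (C0 * (d * phi r T)) := by ring
      have h4 : (4 * C0 + 4) * d * phi r T = 4 * (C0 * (d * phi r T)) + 4 * (d * phi r T) := by ring
      have h5 : 0 < C0 * (d * phi r T) := by positivity
      linarith
    rcases hcase hne h1 with h | h
    · exfalso
      -- both zeros lie in the disc
      have hdhalf : (4 * C0 + 4) * d * (1 / 2) ≤ r := by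
        refine le_trans ?_ hK
        exact mul_le_mul_of_nonneg_left hpsi (by positivity)
      have hdr : d + C0 * d < r := by
        have h2 : (4 * C0 + 4) * d * (1 / 2) = 2 * (C0 * d) + 2 * d := by ring
        have h3 : 0 < C0 * d := by positivity
        linarith
      have hC0d : 0 < C0 * d := by positivity
      have hρ1 := re_lt_one hz
      have hρ1' := re_lt_one hz'
      have hm : ρ ∈ disc r ρ.im := by
        refine ⟨hz, ?_⟩
        have h2 : ρ - (1 + ρ.im * I) = ((ρ.re - 1 : ℝ) : ℂ) := by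
          apply Complex.ext <;> simp
        rw [h2, Complex.norm_real, Real.norm_eq_abs, abs_lt]
        constructor <;> linarith
      have hm' : ρ' ∈ disc r ρ.im := by
        refine ⟨hz', ?_⟩
        have h2 : ρ' - (1 + ρ.im * I) = ((ρ'.re - 1 : ℝ) : ℂ) + ((ρ'.im - ρ.im : ℝ) : ℂ) * I := by
          apply Complex.ext <;> simp
        rw [h2]
        refine lt_of_le_of_lt (norm_add_le _ _) ?_
        rw [norm_mul, Complex.norm_I, mul_one, Complex.norm_real, Complex.norm_real,
          Real.norm_eq_abs, Real.norm_eq_abs, abs_sub_comm ρ'.im ρ.im]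
        have h3 : |ρ'.re - 1| ≤ d := by
          rw [abs_le]
          constructor <;> linarith
        linarith
      have h2 := zc_ge (by linarith : r ≤ 1) ρ.im {ρ, ρ'} (by
        intro u hu
        rw [Finset.mem_insert, Finset.mem_singleton] at hu
        rcases hu with rfl | rfl
        · exact hm
        · exact hm')
      rw [Finset.sum_pair hne] at h2
      have h3 := ord_pos hz
      have h4 := ord_pos hz'
      omega
    · exact h

end Pool.Agent.H76.SC
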