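import Mathlib
import Pool.Agent.H76.SC.LawP

/-!
# LawV: the linear law for windows

As `H76/LP/LawV.lean`, with `phi` in place of `psi`.
-/

set_option autoImplicit false

open Complex

namespace Pool.Agent.H76.SC

open Pool.Agent.H76.CR Pool.Agent.H76.RP Pool.Agent.H76.GL Pool.Agent.H76.LF Pool.Agent.H52.ZR
  Pool.Agent.H76.LP

/-- a sum of `zc (r / 2)` over separated points is at most the number of zeros in the window -/
private theorem lawv_box {r A B : ℝ} (hr : 0 < r) (hr1 : r ≤ 1) (S : Finset ℂ) (f : ℂ → ℝ)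
    (hS : ∀ ρ ∈ S, ∀ ρ' ∈ S, ρ ≠ ρ' → r ≤ |f ρ - f ρ'|) (hAB : ∀ ρ ∈ S, A ≤ f ρ ∧ f ρ ≤ B) :
    ∑ ρ ∈ S, (zc (r / 2) (f ρ) : ℝ) ≤ (zwin r (A - 1) (B + 1) : ℝ) := by
  classical
  have hinj : Set.InjOn f S := by
    intro ρ hρ ρ' hρ' h
    by_contra hne
    have h1 := hS ρ hρ ρ' hρ' hne
    rw [h, sub_self, abs_zero] at h1
    linarith
  have h1 := box_sum (A := A) (B := B) hr hr1 (S.image f) (by
    intro s hs t ht hst
    obtain ⟨a, ha, rfl⟩ := Finset.mem_image.1 hs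
    obtain ⟨b, hb, rfl⟩ := Finset.mem_image.1 ht
    exact hS a ha b hb fun h => hst (by rw [h])) (by
    intro t ht
    obtain ⟨a, ha, rfl⟩ := Finset.mem_image.1 ht
    exact hAB a ha)
  rw [Finset.sum_image hinj] at h1
  exact_mod_cast h1

theorem lawV : ∃ c C : ℝ, 0 < c ∧ 1 ≤ C ∧ ∀ (r x T H : ℝ) (S : Finset ℂ), 1 ≤ T → 0 ≤ H →
    0 < x → x < r → r ≤ 1 / 4 →
    (∀ ρ ∈ S, riemannZeta ρ = 0 ∧ 1 - x ≤ ρ.re ∧ T ≤ ρ.im ∧ ρ.im ≤ T + H) →
    (∀ ρ ∈ S, ∀ ρ' ∈ S, ρ ≠ ρ' → r ≤ |ρ.im - ρ'.im|) →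
    (x * vklam H ≤ c → (S.card : ℝ) ≤
      1 + C * (x * phi r (T + H) / r) * zwin r (T - 1) (T + H + 1)) ∧
    (∀ r' : ℝ, 0 < r' → r' ≤ 1 / 4 → C * x * phi r' H ≤ r' → (S.card : ℝ) ≤
      1 + C * (x * phi r (T + H) / r) * zwin r (T - 1) (T + H + 1) +
        C * (x * phi r' H / r') * zwin r' (-(H + 1)) (H + 1)) := by
  classical
  obtain ⟨c0, C0, hc0, hc01, hC0, hP⟩ := lawP
  obtain ⟨C1, hC1, hric⟩ := tmL
  have hvk1 : 1 ≤ vklam 1 := vklam_ge (by norm_num)
  have hp1 : 0 < 4 * C1 / c0 := by positivity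
  have hp2 : 0 < vklam 1 / c0 := by positivity
  refine ⟨c0, C0 + 4 * C1 / c0 + vklam 1 / c0, hc0, by linarith, ?_⟩
  set C : ℝ := C0 + 4 * C1 / c0 + vklam 1 / c0 with hC
  have hC0' : 0 < C := by positivity
  intro r x T H S hT hH hx hxr hr4 hS hsep
  have hr0 : 0 < r := by linarith
  obtain ⟨S1, hS1, hcard, hpair⟩ := hP r x T H S hT hH hx hxr hr4 hS hsep
  have hψ := phi_half (r := r) (T := T + H) hr0 (by linarith)
  have hW0 : (0 : ℝ) ≤ (zwin r (T - 1) (T + H + 1) : ℝ) := Nat.cast_nonneg _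
  have hZ : C0 * (x * phi r (T + H) / r) * (zwin r (T - 1) (T + H + 1) : ℝ) ≤
      C * (x * phi r (T + H) / r) * (zwin r (T - 1) (T + H + 1) : ℝ) := by
    have h1 : 0 ≤ x * phi r (T + H) / r := by positivity
    have h2 : C0 ≤ C := by linarith
    gcongr
  have hdiff : ∀ ρ ∈ S1, ∀ ρ' ∈ S1, |ρ.im - ρ'.im| ≤ H := by
    intro ρ hρ ρ' hρ'
    obtain ⟨-, -, h1, h2⟩ := hS ρ (hS1 hρ)
    obtain ⟨-, -, h3, h4⟩ := hS ρ' (hS1 hρ')
    rw [abs_le]
    constructor <;> linarith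
  refine ⟨fun hxv => ?_, fun r' hr'0 hr'4 hr' => ?_⟩
  · have h1 : S1.card ≤ 1 := by
      rw [Finset.card_le_one]
      intro ρ hρ ρ' hρ'
      by_contra hne
      have h2 := (hpair ρ hρ ρ' hρ' hne).1
      have h3 : vklam |ρ.im - ρ'.im| ≤ vklam H := vklam_mono (abs_nonneg _) (hdiff ρ hρ ρ' hρ')
      have h4 := mul_le_mul_of_nonneg_left h3 hx.le
      linarith
    have h2 : (S1.card : ℝ) ≤ 1 := by exact_mod_cast h1
    linarith
  · have hψ1 := phi_half (r := r') (T := H) hr'0 hH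
    have hψ2 := phi_mono (T := H) (by linarith : 0 < r' / 2) (by linarith : r' / 2 ≤ r') hH
    set P : ℝ := phi r' H with hPdef
    have hP0 : 0 < P := by linarith
    have hxP : C * x * P ≤ r' := hr'
    have hW0' : (0 : ℝ) ≤ (zwin r' (-(H + 1)) (H + 1) : ℝ) := Nat.cast_nonneg _
    have hR0 : 0 ≤ C * (x * P / r') * (zwin r' (-(H + 1)) (H + 1) : ℝ) := by positivity
    rcases S1.eq_empty_or_nonempty with hemp | ⟨ρ₀, hρ₀⟩
    · rw [hemp, Finset.card_empty, Nat.cast_zero] at hcard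
      linarith
    · have hx1 : x * vklam 1 ≤ c0 := by
        have h1 : vklam 1 / c0 * x * P ≤ r' := by
          refine le_trans ?_ hxP
          have h2 : vklam 1 / c0 ≤ C := by linarith
          gcongr
        have h2 : vklam 1 / c0 * x * (1 / 2) ≤ 1 / 4 := by
          have h3 : vklam 1 / c0 * x * (1 / 2) ≤ vklam 1 / c0 * x * P := by
            gcongr
          linarith
        have h3 : vklam 1 / c0 * x ≤ 1 := by linarith
        have h4 : vklam 1 / c0 * x = x * vklam 1 / c0 := by ring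
        rw [h4, div_le_one hc0] at h3
        exact h3
      have hsep1 : ∀ ρ ∈ S1, ∀ ρ' ∈ S1, ρ ≠ ρ' → 1 ≤ |ρ.im - ρ'.im| := by
        intro ρ hρ ρ' hρ' hne
        by_contra hlt
        rw [not_le] at hlt
        have h2 := (hpair ρ hρ ρ' hρ' hne).1
        have h3 : vklam |ρ.im - ρ'.im| ≤ vklam 1 := vklam_mono (abs_nonneg _) hlt.le
        have h4 := mul_le_mul_of_nonneg_left h3 hx.le
        linarith
      have hlow : ∀ ρ ∈ S1.erase ρ₀, c0 * r' / (4 * C1 * (x * P)) ≤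
          (zc (r' / 2) (ρ₀.im - ρ.im) : ℝ) := by
        intro ρ hρ
        rw [Finset.mem_erase] at hρ
        have hne : ρ₀ ≠ ρ := fun h => hρ.1 h.symm
        have h1 := hsep1 ρ₀ hρ₀ ρ hρ.2 hne
        have h2 := hdiff ρ₀ hρ₀ ρ hρ.2
        obtain ⟨E', hE1, hE2, hE3⟩ := hric (r' / 2) H (by positivity) (by linarith) (h1.trans h2)
        have hL0 : 0 < Real.log (2 + E') := Real.log_pos (by linarith)
        have hL : Real.log (2 + E') ≤ 2 * C1 * P := by
          refine hE2.trans ?_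
          have h3 := mul_le_mul_of_nonneg_left hψ2 (by linarith : (0 : ℝ) ≤ C1)
          have h4 : 0 ≤ C1 * P := by positivity
          linarith
        have h4 : x * Real.log (2 + E') ≤ x * (2 * C1 * P) := mul_le_mul_of_nonneg_left hL hx.le
        have h5 : x * (2 * C1 * P) ≤ c0 * (r' / 2) := by
          have h6 : 4 * C1 / c0 * x * P ≤ r' := by
            refine le_trans ?_ hxP
            have h7 : 4 * C1 / c0 ≤ C := by linarith
            gcongr
          have h7 : 4 * C1 / c0 * x * P = 4 * C1 * x * P / c0 := by ring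
          rw [h7, div_le_iff₀ hc0] at h6
          linarith
        have h6 := (hpair ρ₀ hρ₀ ρ hρ.2 hne).2 (r' / 2) E' (by positivity) (hE3 _ h1 h2)
          (h4.trans h5)
        refine le_trans ?_ h6
        have h7 : c0 * r' / (4 * C1 * (x * P)) = c0 * (r' / 2) / (x * (2 * C1 * P)) := by
          field_simp
          ring
        rw [h7]
        exact div_le_div_of_nonneg_left (by positivity) (by positivity) h4
      have hsum := lawv_box (A := -H) (B := H) hr'0 (by linarith) (S1.erase ρ₀)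
        (fun ρ => ρ₀.im - ρ.im) (by
          intro ρ hρ ρ' hρ' hne
          have h1 := hsep1 ρ (Finset.mem_of_mem_erase hρ) ρ' (Finset.mem_of_mem_erase hρ') hne
          have h2 : ρ₀.im - ρ.im - (ρ₀.im - ρ'.im) = -(ρ.im - ρ'.im) := by ring
          rw [h2, abs_neg]
          linarith) (by
          intro ρ hρ
          exact abs_le.1 (hdiff ρ₀ hρ₀ ρ (Finset.mem_of_mem_erase hρ)))
      have h1 := Finset.sum_le_sum hlow
      rw [Finset.sum_const, nsmul_eq_mul, Finset.card_erase_of_mem hρ₀] at h1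
      have h2 := h1.trans hsum
      have h3 : -H - 1 = -(H + 1) := by ring
      rw [h3] at h2
      have hc1 : 1 ≤ S1.card := Finset.card_pos.2 ⟨ρ₀, hρ₀⟩
      rw [Nat.cast_sub hc1, Nat.cast_one] at h2
      have hq : 0 < c0 * r' / (4 * C1 * (x * P)) := by positivity
      have h4 : (S1.card : ℝ) - 1 ≤ (zwin r' (-(H + 1)) (H + 1) : ℝ) / (c0 * r' / (4 * C1 * (x * P))) := by
        rw [le_div_iff₀ hq]
        exact h2
      have h5 : (zwin r' (-(H + 1)) (H + 1) : ℝ) / (c0 * r' / (4 * C1 * (x * P))) =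
          4 * C1 / c0 * (x * P / r') * (zwin r' (-(H + 1)) (H + 1) : ℝ) := by
        field_simp
      have h6 : 4 * C1 / c0 * (x * P / r') * (zwin r' (-(H + 1)) (H + 1) : ℝ) ≤
          C * (x * P / r') * (zwin r' (-(H + 1)) (H + 1) : ℝ) := by
        have h7 : 4 * C1 / c0 ≤ C := by linarith
        have h8 : 0 ≤ x * P / r' := by positivity
        gcongr
      rw [h5] at h4
      linarith

end Pool.Agent.H76.SC
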