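import Mathlib
import Pool.Agent.H76.SC.Main
import Pool.Agent.H76.LF.PrA

/-!
# PrB: primes and zeros

Copy of `H76/LF/PrB.lean`.
-/

set_option autoImplicit false

open Complex

namespace Pool.Agent.H76.SC

open Pool.Agent.H76.CR Pool.Agent.H76.RP Pool.Agent.H76.GL Pool.Agent.H76.LF

private theorem pb_s {b : ℝ} (hb : 0 < b) (t : ℝ) :
    ‖(((1 + b : ℝ) : ℂ) + t * I) - (1 + t * I)‖ = b ∧ ((((1 + b : ℝ) : ℂ) + t * I)).re = 1 + b ∧
      riemannZeta (((1 + b : ℝ) : ℂ) + t * I) ≠ 0 := by
  have e : (((1 + b : ℝ) : ℂ) + t * I) - (1 + t * I) = ((b : ℝ) : ℂ) := by push_cast; ring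
  have hre : ((((1 + b : ℝ) : ℂ) + t * I)).re = 1 + b := by simp
  refine ⟨by rw [e, norm_real, Real.norm_eq_abs, abs_of_pos hb], hre, ?_⟩
  exact riemannZeta_ne_zero_of_one_le_re (by rw [hre]; linarith)

private theorem pb_re_lz {r b : ℝ} (hr : r ≤ 1) (hb : 0 < b) (t : ℝ) :
    0 ≤ (LZ r t (((1 + b : ℝ) : ℂ) + t * I)).re := by
  rw [LZ_sum hr, re_sum]
  refine Finset.sum_nonneg fun u hu => ?_
  rw [Set.Finite.mem_toFinset] at hu
  have hlt := re_lt_one hu.1
  have h1 : (analyticOrderNatAt riemannZeta u : ℂ) = (((analyticOrderNatAt riemannZeta u : ℕ) : ℝ) : ℂ) := by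
    push_cast
    rfl
  rw [h1, div_eq_mul_inv, re_ofReal_mul, inv_re]
  refine mul_nonneg (Nat.cast_nonneg _) (div_nonneg ?_ (normSq_nonneg _))
  rw [sub_re, (pb_s hb t).2.1]
  linarith

private theorem pb_lz_zero {r : ℝ} (hr : r ≤ 1) {t : ℝ} (hz : zc r t = 0) (s : ℂ) : LZ r t s = 0 := by
  rw [LZ_sum hr]
  rw [zc_sum hr] at hz
  refine Finset.sum_eq_zero fun u hu => ?_
  have h1 := (Finset.sum_eq_zero_iff.1 hz) u hu
  rw [h1, Nat.cast_zero, zero_div]

private theorem pb_lz_one {r : ℝ} (hr : r ≤ 1) {t : ℝ} (hz : zc r t ≤ 1) {ρ : ℂ} (hρ : riemannZeta ρ = 0) (him : ρ.im = t)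
    (hd : 1 - ρ.re < r) (s : ℂ) : LZ r t s = 1 / (s - ρ) := by
  have hlt := re_lt_one hρ
  have hmem : ρ ∈ disc r t := by
    refine ⟨hρ, ?_⟩
    have h1 : ρ - (1 + t * I) = ((ρ.re - 1 : ℝ) : ℂ) := by
      rw [← him]
      apply Complex.ext <;> simp
    rw [h1, norm_real, Real.norm_eq_abs, abs_lt]
    constructor <;> linarith
  rw [LZ_sum hr]
  rw [zc_sum hr] at hz
  have hmem' : ρ ∈ (disc_finite hr t).toFinset := by
    rw [Set.Finite.mem_toFinset]
    exact hmem
  have h2 := Finset.add_sum_erase (disc_finite hr t).toFinset (fun u => analyticOrderNatAt riemannZeta u) hmem'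
  have h3 := ord_pos hρ
  have h4 : ∑ u ∈ (disc_finite hr t).toFinset.erase ρ, analyticOrderNatAt riemannZeta u = 0 := by
    omega
  have h5 : analyticOrderNatAt riemannZeta ρ = 1 := by
    omega
  rw [← Finset.add_sum_erase (disc_finite hr t).toFinset _ hmem', h5, Nat.cast_one]
  have h6 : ∑ u ∈ (disc_finite hr t).toFinset.erase ρ, (analyticOrderNatAt riemannZeta u : ℂ) / (s - u) = 0 := by
    refine Finset.sum_eq_zero fun u hu => ?_
    have h1 := (Finset.sum_eq_zero_iff.1 h4) u hu
    rw [h1, Nat.cast_zero, zero_div]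
  rw [h6, add_zero]

private theorem pb_exp4 : Real.exp (-4) ≤ 1 / 50 := by
  have h1 : (2.7 : ℝ) ^ 4 ≤ Real.exp 1 ^ 4 := by
    refine pow_le_pow_left₀ (by norm_num) ?_ 4
    have := Real.exp_one_gt_d9
    linarith
  have h2 : Real.exp 1 ^ 4 = Real.exp 4 := by
    rw [← Real.exp_nat_mul]
    norm_num
  rw [h2] at h1
  have h3 : (50 : ℝ) ≤ Real.exp 4 := le_trans (by norm_num) h1
  rw [Real.exp_neg, one_div]
  exact inv_anti₀ (by norm_num) h3

private theorem pb_exp1 : 2 * Real.exp 1 ≤ 6 := by
  have := Real.exp_one_lt_d9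
  linarith

theorem prB : ∃ c C : ℝ, 0 < c ∧ 1 ≤ C ∧ ∀ r E t : ℝ, 0 < r → TM r E t →
    (∀ (ρ : ℂ) (y : ℝ), riemannZeta ρ = 0 → ρ.im = t → zc r t ≤ 1 → 2 ≤ y →
      PD 1 y t ≤ C * ((1 - ρ.re) * Real.log y ^ 2 + Real.log (2 + E) / r)) ∧
    (∀ y : ℝ, 2 ≤ y → C * Real.log (2 + E) / r ≤ Real.log y → PD 1 y t ≤ c * Real.log y →
      1 ≤ zc r t) ∧
    (∀ y : ℝ, 2 ≤ y → C * Real.log (2 + E) / r ≤ Real.log y → PD (-1) y t ≤ c * Real.log y →
      c * r / Real.log (2 + E) * Real.log y ≤ zc r t) := by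
  obtain ⟨cm, Cm, hcm, hcm1, hCm, hmain⟩ := mainF
  obtain ⟨Cl, hCl, hlow⟩ := lowA
  obtain ⟨Cp, hCp, hprA⟩ := prA
  set K : ℝ := Cl + 2 * Cp + Cm with hK
  have hK4 : 4 ≤ K := by linarith
  set C1 : ℝ := 12 * (5 + Cl) + 3 * (1 + Cl) + 6 * (1 + Cl + 2 * Cm) with hC1
  have hC10 : 0 ≤ C1 := by linarith
  refine ⟨1 / (25 * K), C1 + 32 + 25 * K, by positivity, by linarith, ?_⟩
  intro r E t hr hT
  have hr1 : r ≤ 1 := hT.le_one
  have hE1 : 1 ≤ E := hT.one_le hr
  set L : ℝ := Real.log (2 + E) with hL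
  have hL1 : 1 ≤ L := by
    rw [hL, Real.le_log_iff_exp_le (by linarith)]
    have := Real.exp_one_lt_d9
    linarith
  have hLr : L ≤ L / r := by
    rw [le_div_iff₀ hr]
    nlinarith
  have hLr1 : 1 ≤ L / r := hL1.trans hLr
  have hrr : 1 / r ≤ L / r := div_le_div_of_nonneg_right hL1 hr.le
  have hn0 : (0 : ℝ) ≤ (zc r t : ℝ) := Nat.cast_nonneg _
  -- the local formula at `1 + b + it`
  have hM : ∀ b : ℝ, 0 < b → b ≤ r / 4 →
      |(deriv riemannZeta (((1 + b : ℝ) : ℂ) + t * I) / riemannZeta (((1 + b : ℝ) : ℂ) + t * I)).re -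
        (LZ r t (((1 + b : ℝ) : ℂ) + t * I)).re| ≤ Cm * (1 + zc r t) * (L / r) := by
    intro b hb hbr
    obtain ⟨h1, h2, h3⟩ := pb_s hb t
    have h4 : 1 - cm * r / L ≤ ((((1 + b : ℝ) : ℂ) + t * I)).re := by
      rw [h2]
      have : 0 ≤ cm * r / L := by positivity
      linarith
    have h5 := hmain r E t hr hT _ (by rw [h1]; exact hbr) h4 h3
    rw [← sub_re]
    refine (abs_re_le_norm _).trans (h5.trans (le_of_eq ?_))
    rw [hL]
    ring
  have hlow1 : ∀ b : ℝ, 0 < b → b ≤ 1 →
      |(deriv riemannZeta (((1 + b : ℝ) : ℂ) + t * I) / riemannZeta (((1 + b : ℝ) : ℂ) + t * I)).re| ≤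
        1 / b + Cl := fun b hb hb1 => (abs_re_le_norm _).trans ((hlow b hb hb1).1 t)
  have hlow0 : ∀ b : ℝ, 0 < b → b ≤ 1 →
      |(deriv riemannZeta ((1 + b : ℝ) : ℂ) / riemannZeta ((1 + b : ℝ) : ℂ)).re| ≤ 1 / b + Cl := by
    intro b hb hb1
    have h1 := (hlow b hb hb1).1 0
    rw [ofReal_zero, zero_mul, add_zero] at h1
    exact (abs_re_le_norm _).trans h1
  refine ⟨?_, ?_, ?_⟩
  · intro ρ y hρ him hn hy
    have hlt := re_lt_one hρ
    set d : ℝ := 1 - ρ.re with hd
    have hd0 : 0 < d := by linarith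
    have hly : 0 < Real.log y := Real.log_pos (by linarith)
    have hyp : 0 < y := by linarith
    have hgoal : ∀ x : ℝ, x ≤ C1 * (d * Real.log y ^ 2 + L / r) →
        x ≤ (C1 + 32 + 25 * K) * (d * Real.log y ^ 2 + L / r) := by
      intro x hx
      refine hx.trans (mul_le_mul_of_nonneg_right (by linarith) (by positivity))
    apply hgoal
    have hdl : 0 ≤ d * Real.log y ^ 2 := by positivity
    rcases lt_or_ge (Real.log y) (4 / r) with hcase | hcase
    · -- small y
      set b : ℝ := min 1 (1 / Real.log y) with hb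
      have hb0 : 0 < b := lt_min one_pos (by positivity)
      have hb1 : b ≤ 1 := min_le_left _ _
      have hbl : b * Real.log y ≤ 1 := by
        have h1 := min_le_right 1 (1 / Real.log y)
        rw [← hb, le_div_iff₀ hly] at h1
        exact h1
      have hbi : 1 / b ≤ 1 + Real.log y := by
        rw [div_le_iff₀ hb0]
        rcases le_total 1 (1 / Real.log y) with h1 | h1
        · have : b = 1 := min_eq_left h1
          rw [this]
          linarith
        · have : b = 1 / Real.log y := min_eq_right h1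
          rw [this]
          field_simp
          linarith
      have hyb : y ^ b ≤ Real.exp 1 := by
        rw [Real.rpow_def_of_pos hyp]
        exact Real.exp_le_exp.2 (by rw [mul_comm]; exact hbl)
      obtain ⟨h1, -⟩ := hprA 1 b y t _ (Or.inl rfl) hb0 hb1 hy rfl
      have h2 := abs_le.1 (hlow0 b hb0 hb1)
      have h3 := abs_le.1 (hlow1 b hb0 hb1)
      have hW : -(deriv riemannZeta ((1 + b : ℝ) : ℂ) / riemannZeta ((1 + b : ℝ) : ℂ)).re -
          1 * (deriv riemannZeta (((1 + b : ℝ) : ℂ) + t * I) / riemannZeta (((1 + b : ℝ) : ℂ) + t * I)).re ≤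
          2 * (1 + Real.log y + Cl) := by linarith
      have hB : 0 ≤ 2 * (1 + Real.log y + Cl) := by positivity
      have h4 : PD 1 y t ≤ 2 * y ^ b * (2 * (1 + Real.log y + Cl)) :=
        h1.trans (mul_le_mul_of_nonneg_left hW (by positivity))
      have h5 : 2 * y ^ b ≤ 6 := by
        have := pb_exp1
        linarith
      have h6 : PD 1 y t ≤ 6 * (2 * (1 + Real.log y + Cl)) :=
        h4.trans (mul_le_mul_of_nonneg_right h5 hB)
      have h7 : Real.log y ≤ 4 * (L / r) := by
        have : 4 / r = 4 * (1 / r) := by ring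
        rw [this] at hcase
        linarith
      have h8 : 1 + Real.log y + Cl ≤ (5 + Cl) * (L / r) := by
        have : 1 + Cl ≤ (1 + Cl) * (L / r) := le_mul_of_one_le_right (by linarith) hLr1
        linarith
      have h9 : 0 ≤ (3 * (1 + Cl) + 6 * (1 + Cl + 2 * Cm)) * (L / r) := by positivity
      have h10 : 0 ≤ C1 * (d * Real.log y ^ 2) := mul_nonneg hC10 hdl
      rw [mul_add, hC1]
      rw [hC1] at h10
      linarith
    · -- large y
      have h4r : 4 ≤ 4 / r := by
        rw [le_div_iff₀ hr]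
        linarith
      have hly4 : 4 ≤ Real.log y := h4r.trans hcase
      set b : ℝ := 1 / Real.log y with hb
      have hb0 : 0 < b := by positivity
      have hbr : b ≤ r / 4 := by
        rw [hb, div_le_iff₀ hly]
        rw [div_le_iff₀ hr] at hcase
        linarith
      have hb1 : b ≤ 1 := by linarith
      have hbi : 1 / b = Real.log y := by rw [hb, one_div_one_div]
      have hyb : y ^ b = Real.exp 1 := by
        rw [Real.rpow_def_of_pos hyp, hb, mul_one_div, div_self hly.ne']
      obtain ⟨h1, -⟩ := hprA 1 b y t _ (Or.inl rfl) hb0 hb1 hy rfl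
      have h2 := abs_le.1 (hlow0 b hb0 hb1)
      rw [hyb] at h1
      have h6 := pb_exp1
      rcases le_or_gt r d with hrd | hrd
      · have h3 := abs_le.1 (hlow1 b hb0 hb1)
        have hW : -(deriv riemannZeta ((1 + b : ℝ) : ℂ) / riemannZeta ((1 + b : ℝ) : ℂ)).re -
            1 * (deriv riemannZeta (((1 + b : ℝ) : ℂ) + t * I) / riemannZeta (((1 + b : ℝ) : ℂ) + t * I)).re ≤
            2 * (1 + Cl) * Real.log y := by
          have : Cl ≤ Cl * Real.log y := le_mul_of_one_le_right (by linarith) (by linarith)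
          linarith
        have hB : 0 ≤ 2 * (1 + Cl) * Real.log y := by positivity
        have h4 : PD 1 y t ≤ 6 * (2 * (1 + Cl) * Real.log y) :=
          (h1.trans (mul_le_mul_of_nonneg_left hW (by positivity))).trans
            (mul_le_mul_of_nonneg_right h6 hB)
        have h5 : 4 * Real.log y ≤ d * Real.log y ^ 2 := by
          have h7 : 4 ≤ r * Real.log y := by
            rw [div_le_iff₀ hr] at hcase
            linarith
          have h8 : r * Real.log y ≤ d * Real.log y := mul_le_mul_of_nonneg_right hrd hly.le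
          have h9 : 4 * Real.log y ≤ d * Real.log y * Real.log y :=
            mul_le_mul_of_nonneg_right (h7.trans h8) hly.le
          calc 4 * Real.log y ≤ d * Real.log y * Real.log y := h9
            _ = d * Real.log y ^ 2 := by ring
        have h7 : 6 * (2 * (1 + Cl) * Real.log y) = 3 * (1 + Cl) * (4 * Real.log y) := by ring
        have h8 : 3 * (1 + Cl) * (4 * Real.log y) ≤ 3 * (1 + Cl) * (d * Real.log y ^ 2) :=
          mul_le_mul_of_nonneg_left h5 (by positivity)
        have h9 : 3 * (1 + Cl) * (d * Real.log y ^ 2) ≤ C1 * (d * Real.log y ^ 2) :=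
          mul_le_mul_of_nonneg_right (by rw [hC1]; linarith) hdl
        have h10 : 0 ≤ C1 * (L / r) := by positivity
        rw [mul_add]
        linarith
      · obtain ⟨s1, s2, s3⟩ := pb_s hb0 t
        have hlz := pb_lz_one hr1 hn hρ him hrd (((1 + b : ℝ) : ℂ) + t * I)
        have hsr : (((1 + b : ℝ) : ℂ) + t * I) - ρ = ((b + d : ℝ) : ℂ) := by
          rw [← him]
          apply Complex.ext
          · simp [hd]
            ring
          · simp
        rw [hsr] at hlz
        have hbd : 0 < b + d := by linarith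
        have hre : (LZ r t (((1 + b : ℝ) : ℂ) + t * I)).re = 1 / (b + d) := by
          rw [hlz, ← ofReal_one, ← ofReal_div, ofReal_re]
        have h3 := abs_le.1 (hM b hb0 hbr)
        rw [hre] at h3
        have hn1 : (zc r t : ℝ) ≤ 1 := by exact_mod_cast hn
        have h4 : Cm * (1 + zc r t) * (L / r) ≤ 2 * Cm * (L / r) := by
          refine mul_le_mul_of_nonneg_right ?_ (by positivity)
          nlinarith
        have h5 : 1 / b - 1 / (b + d) ≤ d * Real.log y ^ 2 := by
          have e1 : 1 / b - 1 / (b + d) = d / (b * (b + d)) := by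
            field_simp
            ring
          have e2 : d * Real.log y ^ 2 = d / (b * b) := by
            rw [← hbi]
            field_simp
          rw [e1, e2]
          refine div_le_div_of_nonneg_left hd0.le (by positivity) ?_
          exact mul_le_mul_of_nonneg_left (by linarith) hb0.le
        have h7 : Cl ≤ Cl * (L / r) := le_mul_of_one_le_right (by linarith) hLr1
        have hW : -(deriv riemannZeta ((1 + b : ℝ) : ℂ) / riemannZeta ((1 + b : ℝ) : ℂ)).re -
            1 * (deriv riemannZeta (((1 + b : ℝ) : ℂ) + t * I) / riemannZeta (((1 + b : ℝ) : ℂ) + t * I)).re ≤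
            d * Real.log y ^ 2 + (Cl + 2 * Cm) * (L / r) := by linarith
        have hB : 0 ≤ d * Real.log y ^ 2 + (Cl + 2 * Cm) * (L / r) := by positivity
        have h8 : PD 1 y t ≤ 6 * (d * Real.log y ^ 2 + (Cl + 2 * Cm) * (L / r)) :=
          (h1.trans (mul_le_mul_of_nonneg_left hW (by positivity))).trans
            (mul_le_mul_of_nonneg_right h6 hB)
        have h9 : 6 * (d * Real.log y ^ 2) ≤ C1 * (d * Real.log y ^ 2) :=
          mul_le_mul_of_nonneg_right (by rw [hC1]; linarith) hdl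
        have h10 : 6 * ((Cl + 2 * Cm) * (L / r)) ≤ C1 * (L / r) := by
          rw [← mul_assoc]
          exact mul_le_mul_of_nonneg_right (by rw [hC1]; linarith) (by positivity)
        rw [mul_add]
        linarith
  all_goals
    intro y hy hCy hPD
    have hly : 0 < Real.log y := Real.log_pos (by linarith)
    have hyp : 0 < y := by linarith
    have hCy1 : 32 * (L / r) + 25 * K * (L / r) ≤ Real.log y := by
      refine le_trans ?_ hCy
      have e : (C1 + 32 + 25 * K) * L / r = C1 * (L / r) + (32 * (L / r) + 25 * K * (L / r)) := by ring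
      rw [e]
      have : 0 ≤ C1 * (L / r) := by positivity
      linarith
    have hKL : 0 ≤ 25 * K * (L / r) := by positivity
    have hL32 : 32 / r ≤ Real.log y := by
      have : 32 / r = 32 * (1 / r) := by ring
      linarith
    set b : ℝ := 8 / Real.log y with hb
    have hb0 : 0 < b := by positivity
    have hbr : b ≤ r / 4 := by
      rw [hb, div_le_iff₀ hly]
      rw [div_le_iff₀ hr] at hL32
      linarith
    have hb1 : b ≤ 1 := by linarith
    have hbi : 1 / b = Real.log y / 8 := by rw [hb, one_div_div]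
    have hyb : y ^ (-(b / 2)) = Real.exp (-4) := by
      rw [Real.rpow_def_of_pos hyp, hb]
      congr 1
      field_simp
      norm_num
    have h4b : 4 / b = Real.log y / 2 := by
      rw [hb]
      field_simp
      norm_num
    have h2 := (hlow b hb0 hb1).2.1
    have h3 := abs_le.1 (hM b hb0 hbr)
    have hexp := pb_exp4
    have hexp0 := (Real.exp_pos (-4 : ℝ)).le
    have h5 : Real.exp (-4) * (Real.log y / 2 + Cp) ≤ 1 / 50 * (Real.log y / 2 + Cp) :=
      mul_le_mul_of_nonneg_right hexp (by positivity)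
    have hc1 : 1 / (25 * K) * Real.log y ≤ 1 / 100 * Real.log y := by
      refine mul_le_mul_of_nonneg_right ?_ hly.le
      exact one_div_le_one_div_of_le (by norm_num) (by linarith)
  · by_contra hc
    have hz : zc r t = 0 := by omega
    have hlz := pb_lz_zero hr1 hz (((1 + b : ℝ) : ℂ) + t * I)
    rw [hlz, zero_re, hz, Nat.cast_zero] at h3
    obtain ⟨-, h1⟩ := hprA 1 b y t _ (Or.inl rfl) hb0 hb1 hy rfl
    rw [hyb, h4b] at h1
    rw [hbi] at h2
    have h6 : Cl ≤ Cl * (L / r) := le_mul_of_one_le_right (by linarith) hLr1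
    have h7 : Cp ≤ Cp * (L / r) := le_mul_of_one_le_right (by linarith) hLr1
    have h8 : K * (L / r) = Cl * (L / r) + 2 * (Cp * (L / r)) + Cm * (L / r) := by
      rw [hK]
      ring
    have h9 : 25 * K * (L / r) = 25 * (K * (L / r)) := by ring
    have h10 : 0 < K * (L / r) := by positivity
    have h11 : Cm * (1 + 0) * (L / r) = Cm * (L / r) := by ring
    rw [h11] at h3
    linarith
  · obtain ⟨-, h1⟩ := hprA (-1) b y t _ (Or.inr rfl) hb0 hb1 hy rfl
    rw [hyb, h4b] at h1
    rw [hbi] at h2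
    have hlz := pb_re_lz hr1 hb0 t
    have h6 : Cl ≤ Cl * (L / r) := le_mul_of_one_le_right (by linarith) hLr1
    have h7 : Cp ≤ Cp * (L / r) := le_mul_of_one_le_right (by linarith) hLr1
    have h8 : K * (L / r) = Cl * (L / r) + 2 * (Cp * (L / r)) + Cm * (L / r) := by
      rw [hK]
      ring
    have h9 : 25 * K * (L / r) = 25 * (K * (L / r)) := by ring
    have h10 : 0 < K * (L / r) := by positivity
    have h11 : Cm * (1 + zc r t) * (L / r) = Cm * (L / r) + zc r t * (Cm * (L / r)) := by ring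
    have h12 : zc r t * (Cm * (L / r)) ≤ zc r t * (K * (L / r)) := by
      refine mul_le_mul_of_nonneg_left ?_ hn0
      refine mul_le_mul_of_nonneg_right ?_ (by positivity)
      rw [hK]
      linarith
    rw [h11] at h3
    -- `0.04 log y ≤ K n L/r`
    have h13 : Real.log y / 25 ≤ zc r t * (K * (L / r)) := by linarith
    have e : 1 / (25 * K) * r / L * Real.log y = (Real.log y / 25) / (K * (L / r)) := by
      field_simp
    rw [e, div_le_iff₀ h10]
    exact h13

end Pool.Agent.H76.SC
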