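import Mathlib
import Pool.Agent.H76.SC.Full
import Pool.Agent.H76.SC.Phi

/-!
# VKs: the lattice theorem at the Vinogradov-Korobov scale

PROOF.  `V = vklam T ≥ 1`, `l ≥ 1`, constants `c0`, `C0` of `full`, `C1` of `tmL`.  `len S k ≤ l` gives
`dep S k ≤ l * (A / V) * l = l² A / V` (`dep = len * ∑ |k| (1 - Re ρ)`, each `1 - Re ρ ≤ A / V`).
(a) `phi x T ≤ log (2 + y^(3/2) + y)` for `y = x V` (`V^(3/2) ≥ log (T + 3)`: `V^(3/2) = log (T+3) (1 + loglog (T+3))^(1/2)`),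
and `log (2 + y^(3/2) + y) ≤ 8 y^(1/2)` or any bound `≤ C y^(1/2)` for `y ≥ 1` (`Real.log_le_rpow_div`, or
`log z ≤ 4 z^(1/4)`, `2 + y^(3/2) + y ≤ 4 y^2`).  So for `K` large (depending on `A`, `l`, `c0`, `C1`) and all `y ≥ K`:
`l² A (C1 log (2 + y^(3/2) + y) + log l) ≤ c0 y` and also `C0 l² A ≤ K`.
(b) `T0` so large that `K / vklam T ≤ 1/4` for `T ≥ T0` (`vklam_mono`, `vklam T → ∞`: `vklam T ≥ (log (T+3))^(2/3)`), `T0 ≥ 1`.
(c) `r = K / V ≤ 1/4`.  `tmL` with `r`, `T`: `E ≥ 1`, `log (2 + E) ≤ C1 phi r T`, `TM r E t` for `1 ≤ |t| ≤ T`.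
`LL E S k = log ((2 + E) len) ≤ C1 phi r T + log l` if `1 ≤ len`; if `dep S k = 0` then `dep * LL = 0 ≤ c0 r`, otherwise `1 ≤ len`
(`len_ge`).  So `dep LL ≤ c0 r`; `full` applies (first alternative `zc r ≤ 1`).
(d) last part of `full`: if `dep V(|t|) ≤ c0` (`t = comb S k`): even, `|t| ≤ C0 dep ≤ C0 l² A / V ≤ K / V`.  Otherwise
`c0 < l² A V(|t|) / V(T)`; if `|t| < T^c` then `log (|t| + 3) ≤ log (T^c + 3) ≤ c log T + 2 ≤ 2 c log (T + 3)` (`T ≥ T0`, large),
so `V(|t|) ≤ (2c)^(2/3) V(T)`, a contradiction if `l² A (2c)^(2/3) ≤ c0`.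
(e) the other parts: first part of `full` with `x` and the `E'` of `tmL` for `x`, `T` (`dep log (2 + E') ≤ c0 x` by (a) with
`y = x V ≥ K`).  Odd: `x = K / V`.  Even: `c0 x / (dep log (2 + E')) ≤ zc x t`, `dep log (2 + E') ≤ (l² A / V) C1 phi x T`, so
`x V c0 ≤ l² A C1 phi x T zc x t` (if `dep = 0` the first inequality reads `0 ≤ ..`: but then `t = 0`, against `1 ≤ |t|`:
`dep_zero`, as in the proof of `full`); `K ≥ l² A C1 / c0`.
About 200 lines.
-/

set_option autoImplicit false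

open Complex

namespace Pool.Agent.H76.SC

open Pool.Agent.H76.CR Pool.Agent.H76.RP Pool.Agent.H76.GS Pool.Agent.H76.GL Pool.Agent.H52.ZR

private theorem vks_log3 {T : ℝ} (hT : 0 ≤ T) : 1 ≤ Real.log (T + 3) := by
  rw [Real.le_log_iff_exp_le (by linarith)]
  have := Real.exp_one_lt_d9
  linarith

private theorem vks_vlow {T : ℝ} (hT : 0 ≤ T) : (Real.log (T + 3)) ^ (2 / 3 : ℝ) ≤ vklam T := by
  have h1 := vks_log3 hT
  have h2 : 0 ≤ Real.log (Real.log (T + 3)) := Real.log_nonneg h1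
  unfold vklam
  have h3 : 1 ≤ (1 + Real.log (Real.log (T + 3))) ^ (1 / 3 : ℝ) :=
    Real.one_le_rpow (by linarith) (by norm_num)
  have h4 : 0 ≤ (Real.log (T + 3)) ^ (2 / 3 : ℝ) := by positivity
  exact le_mul_of_one_le_right h4 h3

private theorem vks_log_le {T : ℝ} (hT : 0 ≤ T) : Real.log (T + 3) ≤ (vklam T) ^ (3 / 2 : ℝ) := by
  have h1 := vks_log3 hT
  have h2 := Real.rpow_le_rpow (by positivity) (vks_vlow hT) (by norm_num : (0 : ℝ) ≤ 3 / 2)
  rw [← Real.rpow_mul (by linarith)] at h2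
  norm_num at h2
  exact h2

private theorem vks_phi {x T : ℝ} (hx : 0 < x) (hT : 0 ≤ T) (hy : 1 ≤ x * vklam T) :
    phi x T ≤ 8 * Real.sqrt (x * vklam T) := by
  obtain ⟨h1, h2⟩ := phi_arg hx hT
  have hV := vklam_ge hT
  set y : ℝ := x * vklam T with hydef
  have hy0 : 0 < y := by linarith
  have h3 : x ^ (3 / 2 : ℝ) * Real.log (T + 3) ≤ y ^ (3 / 2 : ℝ) := by
    rw [hydef, Real.mul_rpow hx.le (by linarith)]
    exact mul_le_mul_of_nonneg_left (vks_log_le hT) (by positivity)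
  have h4 : y ^ (3 / 2 : ℝ) ≤ y ^ (2 : ℝ) := Real.rpow_le_rpow_of_exponent_le hy (by norm_num)
  rw [Real.rpow_two] at h4
  have h5 : 2 + x ^ (3 / 2 : ℝ) * Real.log (T + 3) + y ≤ (2 * y) ^ 2 := by nlinarith
  have h6 : phi x T ≤ Real.log ((2 * y) ^ 2) := by
    unfold phi
    exact Real.log_le_log (by linarith) h5
  have h7 : Real.log ((2 * y) ^ 2) = 4 * Real.log (Real.sqrt (2 * y)) := by
    rw [Real.log_pow, Real.log_sqrt (by linarith)]
    push_cast
    ring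
  have h8 : 0 < Real.sqrt (2 * y) := Real.sqrt_pos.2 (by linarith)
  have h9 : Real.log (Real.sqrt (2 * y)) ≤ Real.sqrt (2 * y) := by
    have := Real.log_le_sub_one_of_pos h8
    linarith
  have h10 : Real.sqrt (2 * y) ≤ 2 * Real.sqrt y := by
    refine Real.sqrt_le_iff.2 ⟨by positivity, ?_⟩
    rw [mul_pow, Real.sq_sqrt hy0.le]
    linarith
  linarith

private theorem vks_v {c T u : ℝ} (hc : 0 < c) (hT : 1 ≤ T) (hT4 : 4 ≤ T ^ c) (hu : 0 ≤ u)
    (hut : u ≤ T ^ c) (huT : u ≤ T) : vklam u ≤ (2 * c) ^ (2 / 3 : ℝ) * vklam T := by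
  have h1 := vks_log3 hu
  have h2 := vks_log3 (by linarith : 0 ≤ T)
  have h3 : Real.log (u + 3) ≤ 2 * c * Real.log (T + 3) := by
    have h4 : u + 3 ≤ T ^ (2 * c) := by
      rw [show 2 * c = c + c by ring, Real.rpow_add (by linarith)]
      nlinarith
    calc Real.log (u + 3) ≤ Real.log (T ^ (2 * c)) := Real.log_le_log (by linarith) h4
      _ = 2 * c * Real.log T := Real.log_rpow (by linarith) _
      _ ≤ 2 * c * Real.log (T + 3) :=
        mul_le_mul_of_nonneg_left (Real.log_le_log (by linarith) (by linarith)) (by linarith)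
  have h5 : Real.log (Real.log (u + 3)) ≤ Real.log (Real.log (T + 3)) :=
    Real.log_le_log (by linarith) (Real.log_le_log (by linarith) (by linarith))
  have h6 : 0 ≤ Real.log (Real.log (u + 3)) := Real.log_nonneg h1
  unfold vklam
  rw [← mul_assoc, ← Real.mul_rpow (by linarith) (by linarith)]
  gcongr

private theorem vks_dep {A l V : ℝ} {S : Finset ℂ} {k : ℂ → ℤ} (hA : 0 < A) (hV : 0 < V)
    (hS : ∀ ρ ∈ S, 1 - A / V ≤ ρ.re) (hl : len S k ≤ l) : dep S k ≤ l ^ 2 * A / V := by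
  have h0 := len_nonneg S k
  have h1 : ∑ ρ ∈ S, |(k ρ : ℝ)| * (1 - ρ.re) ≤ len S k * (A / V) := by
    unfold len
    rw [Finset.sum_mul]
    refine Finset.sum_le_sum fun ρ hρ => mul_le_mul_of_nonneg_left ?_ (abs_nonneg _)
    have := hS ρ hρ
    linarith
  have h2 : 0 < A / V := by positivity
  have h3 : len S k ^ 2 ≤ l ^ 2 := by
    have : 0 ≤ (l - len S k) * (l + len S k) := mul_nonneg (by linarith) (by linarith)
    nlinarith
  calc dep S k = len S k * ∑ ρ ∈ S, |(k ρ : ℝ)| * (1 - ρ.re) := rfl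
    _ ≤ len S k * (len S k * (A / V)) := mul_le_mul_of_nonneg_left h1 h0
    _ = len S k ^ 2 * (A / V) := by ring
    _ ≤ l ^ 2 * (A / V) := mul_le_mul_of_nonneg_right h3 h2.le
    _ = l ^ 2 * A / V := by ring

theorem vks (A l : ℝ) (hA : 0 < A) (hl : 1 ≤ l) : ∃ c K T0 : ℝ, 0 < c ∧ 1 ≤ K ∧ 1 ≤ T0 ∧
    ∀ (T : ℝ) (S : Finset ℂ) (k : ℂ → ℤ), T0 ≤ T →
    (∀ ρ ∈ S, riemannZeta ρ = 0 ∧ 1 ≤ |ρ.im| ∧ |ρ.im| ≤ T ∧ 1 - A / vklam T ≤ ρ.re ∧
      zc (K / vklam T) ρ.im ≤ 1) → len S k ≤ l →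
    (T ^ c ≤ |comb S k| ∨ (Even (∑ ρ ∈ S, k ρ) ∧ |comb S k| ≤ K / vklam T)) ∧
    (1 ≤ |comb S k| → |comb S k| ≤ T →
      (Odd (∑ ρ ∈ S, k ρ) → 1 ≤ zc (K / vklam T) (comb S k)) ∧
      (Even (∑ ρ ∈ S, k ρ) → ∀ x : ℝ, K / vklam T ≤ x → x ≤ 1 / 4 →
        x * vklam T ≤ K * phi x T * zc x (comb S k))) := by
  obtain ⟨c0, C0, hc0, hC0, hfull⟩ := full
  obtain ⟨C1, hC1, htm⟩ := tmL
  obtain ⟨M, hM⟩ : ∃ M : ℝ, M = l ^ 2 * A := ⟨_, rfl⟩
  have hM0 : 0 < M := by rw [hM]; positivity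
  have hll : 0 ≤ Real.log l := Real.log_nonneg hl
  obtain ⟨D, hD⟩ : ∃ D : ℝ, D = M * (8 * C1 + Real.log l) / c0 := ⟨_, rfl⟩
  have hD0 : 0 < D := by rw [hD]; positivity
  obtain ⟨K, hK⟩ : ∃ K : ℝ, K = 1 + D ^ 2 + C0 * M + M * C1 / c0 := ⟨_, rfl⟩
  have hq1 : 0 < M * C1 / c0 := by positivity
  have hq2 : 0 < C0 * M := by positivity
  have hK1 : 1 ≤ K := by rw [hK]; nlinarith [sq_nonneg D]
  have hKD : D ^ 2 ≤ K := by rw [hK]; linarith
  have hKC : C0 * M ≤ K := by rw [hK]; nlinarith [sq_nonneg D]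
  have hKM : M * C1 / c0 ≤ K := by rw [hK]; nlinarith [sq_nonneg D]
  have hKM' : M * C1 ≤ c0 * K := by
    rw [div_le_iff₀ hc0] at hKM
    linarith
  obtain ⟨c, hc⟩ : ∃ c : ℝ, c = (c0 / M) ^ (3 / 2 : ℝ) / 2 := ⟨_, rfl⟩
  obtain ⟨c', hc'⟩ : ∃ c' : ℝ, c' = min c 1 := ⟨_, rfl⟩
  have hcpos : 0 < c := by rw [hc]; positivity
  have hc'0 : 0 < c' := by rw [hc']; exact lt_min hcpos one_pos
  have hc'1 : c' ≤ 1 := by rw [hc']; exact min_le_right _ _
  have hc'M : (2 * c') ^ (2 / 3 : ℝ) * M ≤ c0 := by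
    have h1 : 2 * c' ≤ (c0 / M) ^ (3 / 2 : ℝ) := by
      have : c' ≤ c := by rw [hc']; exact min_le_left _ _
      rw [hc] at this
      linarith
    have h2 : (2 * c') ^ (2 / 3 : ℝ) ≤ c0 / M := by
      have h3 := Real.rpow_le_rpow (by positivity) h1 (by norm_num : (0 : ℝ) ≤ 2 / 3)
      rw [← Real.rpow_mul (by positivity)] at h3
      norm_num at h3
      exact h3
    rwa [le_div_iff₀ hM0] at h2
  -- the key inequality
  have key : ∀ y : ℝ, K ≤ y → M * (C1 * (8 * Real.sqrt y) + Real.log l) ≤ c0 * y := by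
    intro y hy
    have h1 : 1 ≤ y := hK1.trans hy
    have h2 : 1 ≤ Real.sqrt y := Real.one_le_sqrt.2 h1
    have h3 : D ≤ Real.sqrt y := Real.le_sqrt_of_sq_le (hKD.trans hy)
    have h4 : M * (8 * C1 + Real.log l) ≤ c0 * Real.sqrt y := by
      rw [hD, div_le_iff₀ hc0] at h3
      linarith
    have h5 : C1 * (8 * Real.sqrt y) + Real.log l ≤ (8 * C1 + Real.log l) * Real.sqrt y := by
      nlinarith
    calc M * (C1 * (8 * Real.sqrt y) + Real.log l)
        ≤ M * ((8 * C1 + Real.log l) * Real.sqrt y) := mul_le_mul_of_nonneg_left h5 hM0.le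
      _ = M * (8 * C1 + Real.log l) * Real.sqrt y := by ring
      _ ≤ c0 * Real.sqrt y * Real.sqrt y := mul_le_mul_of_nonneg_right h4 (by linarith)
      _ = c0 * y := by rw [mul_assoc, Real.mul_self_sqrt (by linarith)]
  refine ⟨c', K, max (4 ^ (1 / c')) (max 1 (Real.exp ((4 * K) ^ (3 / 2 : ℝ)))), hc'0, hK1,
    (le_max_left _ _).trans (le_max_right _ _), ?_⟩
  intro T S k hT hS hlen
  have hT4 : (4 : ℝ) ^ (1 / c') ≤ T := (le_max_left _ _).trans hT
  have hT1 : 1 ≤ T := ((le_max_left _ _).trans (le_max_right _ _)).trans hT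
  have hTe : Real.exp ((4 * K) ^ (3 / 2 : ℝ)) ≤ T :=
    ((le_max_right _ _).trans (le_max_right _ _)).trans hT
  have hT0 : 0 ≤ T := by linarith
  have hTc : 4 ≤ T ^ c' := by
    have h1 := Real.rpow_le_rpow (by positivity) hT4 hc'0.le
    rw [← Real.rpow_mul (by norm_num)] at h1
    rwa [one_div_mul_cancel hc'0.ne', Real.rpow_one] at h1
  obtain ⟨V, hV⟩ : ∃ V : ℝ, V = vklam T := ⟨_, rfl⟩
  have hV1 : 1 ≤ V := by rw [hV]; exact vklam_ge hT0
  have hV0 : 0 < V := by linarith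
  have hVK : 4 * K ≤ V := by
    have h1 : (4 * K) ^ (3 / 2 : ℝ) ≤ Real.log (T + 3) := by
      rw [Real.le_log_iff_exp_le (by linarith)]
      linarith
    have h2 := Real.rpow_le_rpow (by positivity) h1 (by norm_num : (0 : ℝ) ≤ 2 / 3)
    rw [← Real.rpow_mul (by positivity)] at h2
    norm_num at h2
    rw [hV]
    exact h2.trans (vks_vlow hT0)
  rw [← hV] at hS ⊢
  have hSz : ∀ ρ ∈ S, riemannZeta ρ = 0 := fun ρ hρ => (hS ρ hρ).1
  have hd0 : 0 ≤ dep S k := dep_nonneg' hSz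
  have hdM : dep S k ≤ M / V := by
    rw [hM]
    exact vks_dep hA hV0 (fun ρ hρ => (hS ρ hρ).2.2.2.1) hlen
  have hr0 : 0 < K / V := by positivity
  have hr4 : K / V ≤ 1 / 4 := by
    rw [div_le_iff₀ hV0]
    linarith
  have hdl : ∀ x E' : ℝ, 0 < x → K ≤ x * V → 1 ≤ E' → Real.log (2 + E') ≤ C1 * phi x T →
      dep S k * Real.log (2 + E') ≤ M / V * (C1 * phi x T) ∧
      dep S k * Real.log (2 + E') ≤ c0 * x ∧
      M / V * (C1 * phi x T + Real.log l) ≤ c0 * x := by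
    intro x E' hx hxK hE hlE
    have h1 : phi x T ≤ 8 * Real.sqrt (x * V) := by
      rw [hV]
      exact vks_phi hx hT0 (by rw [← hV]; linarith)
    have h2 := key (x * V) hxK
    have h3 : 1 ≤ Real.log (2 + E') := log_ge hE
    have hMV : 0 ≤ M / V := by positivity
    have h4 : M / V * (C1 * phi x T + Real.log l) ≤ c0 * x := by
      have h5 : C1 * phi x T + Real.log l ≤ C1 * (8 * Real.sqrt (x * V)) + Real.log l := by
        have := mul_le_mul_of_nonneg_left h1 (by linarith : 0 ≤ C1)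
        linarith
      have h6 := mul_le_mul_of_nonneg_left h5 hM0.le
      rw [div_mul_eq_mul_div, div_le_iff₀ hV0]
      linarith
    have h5 : dep S k * Real.log (2 + E') ≤ M / V * (C1 * phi x T) :=
      mul_le_mul hdM hlE (by linarith) hMV
    refine ⟨h5, ?_, h4⟩
    have h6 : M / V * (C1 * phi x T) ≤ M / V * (C1 * phi x T + Real.log l) :=
      mul_le_mul_of_nonneg_left (by linarith) hMV
    linarith
  obtain ⟨E, hE1, hEl, hEt⟩ := htm (K / V) T hr0 hr4 hT1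
  have hKV : K ≤ K / V * V := by rw [div_mul_cancel₀ _ hV0.ne']
  obtain ⟨e1, e2, e3⟩ := hdl (K / V) E hr0 hKV hE1 hEl
  have hLL : dep S k * LL E S k ≤ c0 * (K / V) := by
    rcases hd0.eq_or_lt with hd | hd
    · rw [← hd, zero_mul]
      positivity
    have h1 := len_ge hd
    have h2 : LL E S k ≤ C1 * phi (K / V) T + Real.log l := by
      unfold LL
      rw [Real.log_mul (by linarith) (by linarith)]
      have := Real.log_le_log (by linarith) hlen
      linarith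
    have h3 : 0 ≤ LL E S k := by
      unfold LL
      refine Real.log_nonneg ?_
      nlinarith
    exact (mul_le_mul hdM h2 h3 (by positivity)).trans e3
  obtain ⟨f1, f2⟩ := hfull (K / V) E S k hr0
    (fun ρ hρ => ⟨hSz ρ hρ, (hS ρ hρ).2.1, hEt ρ.im (hS ρ hρ).2.1 (hS ρ hρ).2.2.1⟩) hLL
    (Or.inl fun ρ hρ => (hS ρ hρ).2.2.2.2)
  refine ⟨?_, fun ht1 htT => ⟨fun ho => ?_, fun he x hx hx4 => ?_⟩⟩
  · by_cases hd : dep S k * vklam |comb S k| ≤ c0
    · right
      obtain ⟨g1, g2⟩ := f2 hd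
      refine ⟨g1, g2.trans ?_⟩
      have h1 : C0 * dep S k ≤ C0 * (M / V) := mul_le_mul_of_nonneg_left hdM (by linarith)
      have h2 : C0 * (M / V) ≤ K / V := by
        rw [← mul_div_assoc]
        exact div_le_div_of_nonneg_right hKC hV0.le
      linarith
    · left
      by_contra hcon
      push Not at hcon hd
      have h0 := abs_nonneg (comb S k)
      have h1 : T ^ c' ≤ T := by
        calc T ^ c' ≤ T ^ (1 : ℝ) := Real.rpow_le_rpow_of_exponent_le hT1 hc'1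
          _ = T := Real.rpow_one T
      have h2 := vks_v hc'0 hT1 hTc h0 hcon.le (hcon.le.trans h1)
      rw [← hV] at h2
      have h3 : dep S k * vklam |comb S k| ≤ M / V * ((2 * c') ^ (2 / 3 : ℝ) * V) :=
        mul_le_mul hdM h2 (by have := vklam_ge h0; linarith) (by positivity)
      have h4 : M / V * ((2 * c') ^ (2 / 3 : ℝ) * V) = (2 * c') ^ (2 / 3 : ℝ) * M := by
        field_simp
      linarith
  · exact ((f1 (K / V) E hr0 (hEt _ ht1 htT) e2).1 ho).1
  · have hx0 : 0 < x := hr0.trans_le hx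
    have hxV : K ≤ x * V := by rwa [div_le_iff₀ hV0] at hx
    obtain ⟨E', hE1', hEl', hEt'⟩ := htm x T hx0 hx4 hT1
    obtain ⟨g1, g2, g3⟩ := hdl x E' hx0 hxV hE1' hEl'
    have h1 := ((f1 x E' hx0 (hEt' _ ht1 htT) g2).2 he).1
    have hdpos : 0 < dep S k := by
      rcases hd0.eq_or_lt with hd | hd
      · exfalso
        have hk := dep_zero hSz hd.symm.le
        have h2 : comb S k = 0 := by
          unfold comb
          refine Finset.sum_eq_zero fun ρ hρ => ?_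
          rw [hk ρ hρ]
          simp
        rw [h2, abs_zero] at ht1
        linarith
      · exact hd
    have hlg : 1 ≤ Real.log (2 + E') := log_ge hE1'
    have hpos : 0 < dep S k * Real.log (2 + E') := mul_pos hdpos (by linarith)
    rw [div_le_iff₀ hpos] at h1
    have hz : (0 : ℝ) ≤ zc x (comb S k) := Nat.cast_nonneg _
    have h2 := h1.trans (mul_le_mul_of_nonneg_left g1 hz)
    have h3 : (zc x (comb S k) : ℝ) * (M / V * (C1 * phi x T)) * V =
        M * C1 * (phi x T * zc x (comb S k)) := by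
      field_simp
    have hph : 0 ≤ phi x T * zc x (comb S k) :=
      mul_nonneg (by have := phi_half hx0 hT0; linarith) hz
    have h4 : c0 * x * V ≤ c0 * K * (phi x T * zc x (comb S k)) := by
      calc c0 * x * V ≤ (zc x (comb S k) : ℝ) * (M / V * (C1 * phi x T)) * V :=
            mul_le_mul_of_nonneg_right h2 hV0.le
        _ = M * C1 * (phi x T * zc x (comb S k)) := h3
        _ ≤ c0 * K * (phi x T * zc x (comb S k)) := mul_le_mul_of_nonneg_right hKM' hph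
    have h5 : c0 * (x * V) ≤ c0 * (K * phi x T * zc x (comb S k)) := by
      calc c0 * (x * V) = c0 * x * V := by ring
        _ ≤ c0 * K * (phi x T * zc x (comb S k)) := h4
        _ = c0 * (K * phi x T * zc x (comb S k)) := by ring
    exact le_of_mul_le_mul_left h5 hc0

end Pool.Agent.H76.SC
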