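import Mathlib
import Pool.Agent.H76.SC.VKs

/-!
# VKp: the lattice theorem at the Vinogradov-Korobov scale, with the distances of two zeros
-/

set_option autoImplicit false

open Complex

namespace Pool.Agent.H76.SC

open Pool.Agent.H76.CR Pool.Agent.H76.RP Pool.Agent.H76.GS Pool.Agent.H76.GL Pool.Agent.H52.ZR

private theorem vkp_big {K T : ℝ} (hK : 1 ≤ K) (hT : Real.exp (K ^ (3 / 2 : ℝ)) ≤ T) : K ≤ vklam T := by
  have hT0 : 0 < T := (Real.exp_pos _).trans_le hT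
  have h1 : K ^ (3 / 2 : ℝ) ≤ Real.log (T + 3) := by
    rw [Real.le_log_iff_exp_le (by linarith)]
    linarith
  have hl : 1 ≤ Real.log (T + 3) := (Real.one_le_rpow hK (by norm_num)).trans h1
  have h2 := Real.rpow_le_rpow (by positivity) h1 (by norm_num : (0 : ℝ) ≤ 2 / 3)
  rw [← Real.rpow_mul (by positivity)] at h2
  norm_num at h2
  refine h2.trans ?_
  unfold vklam
  have h3 : 1 ≤ (1 + Real.log (Real.log (T + 3))) ^ (1 / 3 : ℝ) :=
    Real.one_le_rpow (by linarith [Real.log_nonneg hl]) (by norm_num)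
  have h4 : 0 ≤ (Real.log (T + 3)) ^ (2 / 3 : ℝ) := by positivity
  exact le_mul_of_one_le_right h4 h3

theorem vkp (A l : ℝ) (hA : 0 < A) (hl : 1 ≤ l) : ∃ c K T0 : ℝ, 0 < c ∧ 1 ≤ K ∧ 1 ≤ T0 ∧
    ∀ (T : ℝ) (S : Finset ℂ), T0 ≤ T →
    (∀ ρ ∈ S, riemannZeta ρ = 0 ∧ 1 ≤ |ρ.im| ∧ |ρ.im| ≤ T ∧ 1 - A / vklam T ≤ ρ.re ∧
      zc (K / vklam T) ρ.im ≤ 1) →
    (∀ ρ ∈ S, ∀ ρ' ∈ S, ρ ≠ ρ' → T ^ c ≤ |ρ.im - ρ'.im|) ∧
    ∀ k : ℂ → ℤ, len S k ≤ l →
      (T ^ c ≤ |comb S k| ∨ (Even (∑ ρ ∈ S, k ρ) ∧ |comb S k| ≤ K / vklam T)) ∧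
      (1 ≤ |comb S k| → |comb S k| ≤ T →
        (Odd (∑ ρ ∈ S, k ρ) → 1 ≤ zc (K / vklam T) (comb S k)) ∧
        (Even (∑ ρ ∈ S, k ρ) → ∀ x : ℝ, K / vklam T ≤ x → x ≤ 1 / 4 →
          x * vklam T ≤ K * phi x T * zc x (comb S k))) := by
  obtain ⟨c, K1, T1, hc, hK1, hT1, h⟩ := vks A (max l 2) hA (hl.trans (le_max_left _ _))
  obtain ⟨K, hK⟩ : ∃ K : ℝ, K = K1 + A + 1 := ⟨_, rfl⟩
  have hK0 : 1 ≤ K := by linarith
  refine ⟨c, K, max T1 (Real.exp (K ^ (3 / 2 : ℝ))), hc, hK0, hT1.trans (le_max_left _ _), ?_⟩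
  intro T S hT hS
  have hTT1 : T1 ≤ T := (le_max_left _ _).trans hT
  have hTpos : 0 ≤ T := by linarith
  have hKV := vkp_big hK0 ((le_max_right _ _).trans hT)
  have hV1 := vklam_ge hTpos
  set V : ℝ := vklam T with hV
  have hV0 : 0 < V := by linarith
  have hr1 : K / V ≤ 1 := by rw [div_le_one hV0]; exact hKV
  have hK1V : K1 / V ≤ K / V := div_le_div_of_nonneg_right (by linarith) hV0.le
  have hS1 : ∀ ρ ∈ S, riemannZeta ρ = 0 ∧ 1 ≤ |ρ.im| ∧ |ρ.im| ≤ T ∧ 1 - A / V ≤ ρ.re ∧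
      zc (K1 / V) ρ.im ≤ 1 := by
    intro ρ hρ
    obtain ⟨a1, a2, a3, a4, a5⟩ := hS ρ hρ
    exact ⟨a1, a2, a3, a4, (zc_mono hK1V hr1 _).trans a5⟩
  refine ⟨?_, ?_⟩
  · intro ρ hρ ρ' hρ' hne
    classical
    obtain ⟨a1, a2, a3, a4, a5⟩ := hS ρ hρ
    obtain ⟨b1, b2, b3, b4, b5⟩ := hS ρ' hρ'
    obtain ⟨k, hk⟩ : ∃ k : ℂ → ℤ, k = fun u => if u = ρ then 1 else if u = ρ' then -1 else 0 := ⟨_, rfl⟩
    have hkρ : k ρ = 1 := by simp [hk]
    have hkρ' : k ρ' = -1 := by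
      have : ¬ (ρ' = ρ) := fun h => hne h.symm
      simp [hk, this]
    have hlen : len {ρ, ρ'} k = 2 := by
      unfold len
      rw [Finset.sum_pair hne, hkρ, hkρ']
      norm_num
    have hcomb : comb {ρ, ρ'} k = ρ.im - ρ'.im := by
      unfold comb
      rw [Finset.sum_pair hne, hkρ, hkρ']
      push_cast
      ring
    have h1 := (h T {ρ, ρ'} k hTT1 (by
      intro u hu
      rw [Finset.mem_insert, Finset.mem_singleton] at hu
      rcases hu with rfl | rfl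
      · exact hS1 _ hρ
      · exact hS1 _ hρ') (by rw [hlen]; exact le_max_right _ _)).1
    rw [hcomb] at h1
    rcases h1 with h1 | ⟨-, h1⟩
    · exact h1
    exfalso
    have e1 := re_lt_one a1
    have e2 := re_lt_one b1
    have hA0 : 0 < A / V := by positivity
    have hKs : K / V = K1 / V + A / V + 1 / V := by rw [hK]; ring
    have h1V : 0 < 1 / V := by positivity
    have hK1p : 0 < K1 / V := by positivity
    have hm : ρ ∈ disc (K / V) ρ.im := by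
      refine ⟨a1, ?_⟩
      have h2 : ρ - (1 + ρ.im * I) = ((ρ.re - 1 : ℝ) : ℂ) := by
        apply Complex.ext <;> simp
      rw [h2, Complex.norm_real, Real.norm_eq_abs, abs_lt]
      constructor <;> linarith
    have hm' : ρ' ∈ disc (K / V) ρ.im := by
      refine ⟨b1, ?_⟩
      have h2 : ρ' - (1 + ρ.im * I) = ((ρ'.re - 1 : ℝ) : ℂ) + ((ρ'.im - ρ.im : ℝ) : ℂ) * I := by
        apply Complex.ext <;> simp
      rw [h2]
      refine lt_of_le_of_lt (norm_add_le _ _) ?_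
      rw [norm_mul, Complex.norm_I, mul_one, Complex.norm_real, Complex.norm_real,
        Real.norm_eq_abs, Real.norm_eq_abs, abs_sub_comm ρ'.im ρ.im]
      have h3 : |ρ'.re - 1| ≤ A / V := by
        rw [abs_le]
        constructor <;> linarith
      linarith
    have h2 := zc_ge hr1 ρ.im {ρ, ρ'} (by
      intro u hu
      rw [Finset.mem_insert, Finset.mem_singleton] at hu
      rcases hu with rfl | rfl
      · exact hm
      · exact hm')
    rw [Finset.sum_pair hne] at h2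
    have h3 := ord_pos a1
    have h4 := ord_pos b1
    omega
  · intro k hk
    obtain ⟨h1, h2⟩ := h T S k hTT1 hS1 (hk.trans (le_max_left _ _))
    refine ⟨h1.imp id fun g => ⟨g.1, g.2.trans hK1V⟩, fun ht1 htT => ?_⟩
    obtain ⟨g1, g2⟩ := h2 ht1 htT
    refine ⟨fun ho => (g1 ho).trans (zc_mono hK1V hr1 _), fun he x hx hx4 => ?_⟩
    refine (g2 he x (hK1V.trans hx) hx4).trans ?_
    have hx0 : 0 < x := by
      have : 0 < K / V := by positivity
      linarith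
    have hph := phi_half hx0 hTpos
    have hz : (0 : ℝ) ≤ zc x (comb S k) := Nat.cast_nonneg _
    refine mul_le_mul_of_nonneg_right (mul_le_mul_of_nonneg_right ?_ (by linarith)) hz
    linarith

end Pool.Agent.H76.SC
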