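import Mathlib
import Pool.Agent.H76.SC.VKp
import Pool.Agent.H76.SC.LPage
import Pool.Agent.H76.SC.GenP

/-!
# Zeros of the zeta function near the line `Re s = 1`: repulsion and lattice structure

`zc r t` (`Pool/Agent/H76/RP/Defs.lean`); `comb`, `len`, `dep` (`Pool/Agent/H76/GS/Defs.lean`); `num`
(`Pool/Agent/H76/GS/DefsU.lean`); `phi` (`Pool/Agent/H76/SC/Phi.lean`); `vklam` (`Pool/Agent/H52/ZR/Low.lean`).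
-/

set_option autoImplicit false

open Complex

namespace Pool.Agent.H76.SC

open Pool.Agent.H76.RP Pool.Agent.H76.GL Pool.Agent.H52.ZR Pool.Agent.H76.GS

theorem resultLat :
    (∀ A l : ℝ, 0 < A → 1 ≤ l → ∃ c K T0 : ℝ, 0 < c ∧ 1 ≤ K ∧ 1 ≤ T0 ∧
      ∀ (T : ℝ) (S : Finset ℂ), T0 ≤ T →
      (∀ ρ ∈ S, riemannZeta ρ = 0 ∧ 1 ≤ |ρ.im| ∧ |ρ.im| ≤ T ∧ 1 - A / vklam T ≤ ρ.re ∧
        zc (K / vklam T) ρ.im ≤ 1) →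
      (∀ ρ ∈ S, ∀ ρ' ∈ S, ρ ≠ ρ' → T ^ c ≤ |ρ.im - ρ'.im|) ∧
      ∀ k : ℂ → ℤ, len S k ≤ l →
        (T ^ c ≤ |comb S k| ∨ (Even (∑ ρ ∈ S, k ρ) ∧ |comb S k| ≤ K / vklam T)) ∧
        (1 ≤ |comb S k| → |comb S k| ≤ T →
          (Odd (∑ ρ ∈ S, k ρ) → 1 ≤ zc (K / vklam T) (comb S k)) ∧
          (Even (∑ ρ ∈ S, k ρ) → ∀ x : ℝ, K / vklam T ≤ x → x ≤ 1 / 4 →
            x * vklam T ≤ K * phi x T * zc x (comb S k)))) ∧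
    (∃ c C : ℝ, 0 < c ∧ 1 ≤ C ∧ ∀ (T d r : ℝ) (ρ ρ' : ℂ), 1 ≤ T → 0 < d → r ≤ 1 / 4 →
      riemannZeta ρ = 0 → riemannZeta ρ' = 0 → 1 - d ≤ ρ.re → 1 - d ≤ ρ'.re →
      1 ≤ |ρ.im| → |ρ.im| ≤ T → 1 ≤ |ρ'.im| → |ρ'.im| ≤ T → 0 < r →
      (C * d * phi r T * (1 + zc r ρ.im + zc r ρ'.im) ≤ r →
        |ρ.im - ρ'.im| ≤ C * d ∨ c ≤ d * vklam |ρ.im - ρ'.im|) ∧
      (C * d * phi r T ≤ r → zc r ρ.im ≤ 1 → zc r ρ'.im ≤ 1 → ρ ≠ ρ' →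
        c ≤ d * vklam |ρ.im - ρ'.im|)) ∧
    (∃ c C : ℝ, 0 < c ∧ 1 ≤ C ∧ ∀ (T r Φ : ℝ) (S : Finset ℂ) (k : ℂ → ℤ), 1 ≤ T → 0 < r →
      r ≤ 1 / 4 → Φ = phi r T + Real.log (len S k) →
      (∀ ρ ∈ S, riemannZeta ρ = 0 ∧ 1 ≤ |ρ.im| ∧ |ρ.im| ≤ T) →
      ((C * dep S k * Φ ≤ r ∧ ∀ ρ ∈ S, zc r ρ.im ≤ 1) ∨ C * dep S k * Φ * (1 + num r S k) ≤ r) →
      (dep S k * vklam |comb S k| ≤ c → Even (∑ ρ ∈ S, k ρ) ∧ |comb S k| ≤ C * dep S k) ∧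
      (∀ x : ℝ, 1 ≤ |comb S k| → |comb S k| ≤ T → 0 < x → x ≤ 1 / 4 → C * dep S k * phi x T ≤ x →
        (Odd (∑ ρ ∈ S, k ρ) → 1 ≤ zc x (comb S k) ∧ ∀ y : ℝ, x ≤ y → y ≤ 1 / 4 →
          C * x * phi y T * zc y (comb S k) < y → zc x (comb S k) = 1) ∧
        (Even (∑ ρ ∈ S, k ρ) → x ≤ C * dep S k * phi x T * zc x (comb S k))) ∧
      (∀ ρ₀ ∈ S, (∀ ρ ∈ S, zc r ρ.im ≤ 1) → 0 < dep S k → r ≤ |ρ₀.im + comb S k| →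
        ((1 ≤ |ρ₀.im + comb S k| ∧ |ρ₀.im + comb S k| ≤ T ∧ zc r (ρ₀.im + comb S k) = 0) ∨
          r * vklam |ρ₀.im + comb S k| ≤ c) →
        c * r * min 1 (Real.log (r / (C * dep S k * Φ)) / Φ) ≤ 1 - ρ₀.re)) :=
  ⟨vkp, lpage, genP⟩

end Pool.Agent.H76.SC
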