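import Mathlib
import Pool.Agent.H76.SC.Inv
import Pool.Agent.H76.SC.PrB
import Pool.Agent.H76.SC.LawV

/-!
# Zeros of the zeta function very near the line `Re s = 1`: at most one, plus a linear term

`zc x t`, `disc r t` are in `Pool/Agent/H76/RP/Defs.lean`, `TM r E t` in `Pool/Agent/H76/SC/Defs.lean` (with `Tame` of
`Pool/Agent/H76/GL/Defs.lean`), `LZ`, `PD` in `Pool/Agent/H76/LF/Defs.lean`, `zwin` in `Pool/Agent/H76/LF/Box.lean`,
`phi` in `Pool/Agent/H76/SC/Phi.lean`, `vklam` in `Pool/Agent/H52/ZR/Low.lean`.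
-/

set_option autoImplicit false

open Complex

namespace Pool.Agent.H76.SC

open Pool.Agent.H76.RP Pool.Agent.H76.GL Pool.Agent.H76.LF Pool.Agent.H52.ZR

theorem resultLaw :
    (∃ c C : ℝ, 0 < c ∧ 1 ≤ C ∧ ∀ r E t : ℝ, 0 < r → TM r E t →
      (∀ x : ℝ, 0 < x → x ≤ r →
        (zc x t : ℝ) ≤ 1 + C * (x * Real.log (2 + E) / r) * zc r t) ∧
      (∀ s : ℂ, ‖s - (1 + t * I)‖ ≤ r / 4 → 1 - c * r ≤ s.re → riemannZeta s ≠ 0 →
        ‖deriv riemannZeta s / riemannZeta s - LZ r t s‖ ≤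
          C * (1 + zc r t) * Real.log (2 + E) / r * (2 + E) ^ (C * max 0 (1 - s.re) / r)) ∧
      (∀ δ : ℝ, 0 < δ → disc δ t = ∅ →
        1 / ‖riemannZeta (1 + t * I)‖ ≤
          C * Real.exp (C * zc r t * Real.log (2 + zc r t)) * (Real.log (2 + E) / r + 1 / δ)) ∧
      (∀ (ρ : ℂ) (y : ℝ), riemannZeta ρ = 0 → ρ.im = t → zc r t ≤ 1 → 2 ≤ y →
        PD 1 y t ≤ C * ((1 - ρ.re) * Real.log y ^ 2 + Real.log (2 + E) / r)) ∧
      (∀ y : ℝ, 2 ≤ y → C * Real.log (2 + E) / r ≤ Real.log y → PD 1 y t ≤ c * Real.log y →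
        1 ≤ zc r t) ∧
      (∀ y : ℝ, 2 ≤ y → C * Real.log (2 + E) / r ≤ Real.log y → PD (-1) y t ≤ c * Real.log y →
        c * r / Real.log (2 + E) * Real.log y ≤ zc r t)) ∧
    (∃ C : ℝ, 1 ≤ C ∧ ∀ r T t : ℝ, 0 < r → r ≤ 1 / 4 → 1 ≤ |t| → |t| ≤ T →
      TM r (C * (1 + r ^ (3 / 2 : ℝ) * Real.log (T + 3) + r * vklam T)) t) ∧
    (∃ c C : ℝ, 0 < c ∧ 1 ≤ C ∧ ∀ (r x T H : ℝ) (S : Finset ℂ), 1 ≤ T → 0 ≤ H →
      0 < x → x < r → r ≤ 1 / 4 →
      (∀ ρ ∈ S, riemannZeta ρ = 0 ∧ 1 - x ≤ ρ.re ∧ T ≤ ρ.im ∧ ρ.im ≤ T + H) →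
      (∀ ρ ∈ S, ∀ ρ' ∈ S, ρ ≠ ρ' → r ≤ |ρ.im - ρ'.im|) →
      (x * vklam H ≤ c → (S.card : ℝ) ≤
        1 + C * (x * phi r (T + H) / r) * zwin r (T - 1) (T + H + 1)) ∧
      (∀ r' : ℝ, 0 < r' → r' ≤ 1 / 4 → C * x * phi r' H ≤ r' → (S.card : ℝ) ≤
        1 + C * (x * phi r (T + H) / r) * zwin r (T - 1) (T + H + 1) +
          C * (x * phi r' H / r') * zwin r' (-(H + 1)) (H + 1))) := by
  refine ⟨?_, tmU, lawV⟩
  obtain ⟨c1, C1, hc1, hc1', hC1, h1⟩ := mainG
  obtain ⟨C2, hC2, h2⟩ := reg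
  obtain ⟨C3, hC3, h3⟩ := inv1
  obtain ⟨c4, C4, hc4, hC4, h4⟩ := prB
  set C : ℝ := max (max C1 C2) (max C3 C4) + 1 with hC
  set c : ℝ := min c1 c4 with hc
  have e1 : C1 ≤ C := by
    have := (le_max_left C1 C2).trans (le_max_left _ (max C3 C4)); linarith
  have e2 : C2 ≤ C := by
    have := (le_max_right C1 C2).trans (le_max_left _ (max C3 C4)); linarith
  have e3 : C3 ≤ C := by
    have := (le_max_left C3 C4).trans (le_max_right (max C1 C2) _); linarith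
  have e4 : C4 ≤ C := by
    have := (le_max_right C3 C4).trans (le_max_right (max C1 C2) _); linarith
  have hCp : 1 ≤ C := hC1.trans e1
  refine ⟨c, C, lt_min hc1 hc4, hCp, ?_⟩
  intro r E t hr hT
  have hE1 : 1 ≤ E := hT.one_le hr
  have hL : 1 ≤ Real.log (2 + E) := log_ge hE1
  have hL0 : 0 < Real.log (2 + E) := by linarith
  have hn0 : (0 : ℝ) ≤ zc r t := Nat.cast_nonneg _
  obtain ⟨p1, p2, p3⟩ := h4 r E t hr hT
  have hLr : 0 ≤ Real.log (2 + E) / r := by positivity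
  have mC : ∀ C' : ℝ, C' ≤ C → C' * Real.log (2 + E) / r ≤ C * Real.log (2 + E) / r := by
    intro C' h
    rw [mul_div_assoc, mul_div_assoc]
    exact mul_le_mul_of_nonneg_right h hLr
  refine ⟨?_, ?_, ?_, ?_, ?_, ?_⟩
  · intro x hx hxr
    refine (h2 r E t hr hT x hx hxr).trans ?_
    have h5 : C2 * (x * Real.log (2 + E) / r) * (zc r t : ℝ) ≤ C * (x * Real.log (2 + E) / r) * zc r t := by
      apply mul_le_mul_of_nonneg_right _ hn0
      exact mul_le_mul_of_nonneg_right e2 (by positivity)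
    linarith
  · intro s hs hs2 hz
    have hcc : c ≤ c1 := min_le_left _ _
    have h5 : 1 - c1 * r ≤ s.re := by
      have h6 : c * r ≤ c1 * r := mul_le_mul_of_nonneg_right hcc hr.le
      linarith
    refine (h1 r E t hr hT s hs h5 hz).trans ?_
    have h7 : (0 : ℝ) ≤ max 0 (1 - s.re) := le_max_left _ _
    apply mul_le_mul
    · apply div_le_div_of_nonneg_right _ hr.le
      apply mul_le_mul_of_nonneg_right _ hL0.le
      exact mul_le_mul_of_nonneg_right e1 (by linarith)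
    · apply Real.rpow_le_rpow_of_exponent_le (by linarith)
      apply div_le_div_of_nonneg_right _ hr.le
      exact mul_le_mul_of_nonneg_right e1 h7
    · exact Real.rpow_nonneg (by linarith) _
    · positivity
  · intro δ hδ hd
    refine (h3 r E t hr hT δ hδ hd).trans ?_
    have hlog : 0 ≤ Real.log (2 + (zc r t : ℝ)) := Real.log_nonneg (by linarith)
    apply mul_le_mul_of_nonneg_right _ (by positivity)
    apply mul_le_mul e3 _ (Real.exp_nonneg _) (by linarith)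
    apply Real.exp_le_exp.2
    apply mul_le_mul_of_nonneg_right _ hlog
    exact mul_le_mul_of_nonneg_right e3 hn0
  · intro ρ y hρ hρt hz hy
    refine (p1 ρ y hρ hρt hz hy).trans ?_
    have hre : ρ.re < 1 := by
      by_contra hcon
      exact riemannZeta_ne_zero_of_one_le_re (not_lt.1 hcon) hρ
    apply mul_le_mul_of_nonneg_right e4
    have : 0 ≤ (1 - ρ.re) * Real.log y ^ 2 := mul_nonneg (by linarith) (sq_nonneg _)
    linarith
  · intro y hy hy1 hy2
    have hly : 0 ≤ Real.log y := Real.log_nonneg (by linarith)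
    exact p2 y hy ((mC C4 e4).trans hy1) (hy2.trans (mul_le_mul_of_nonneg_right (min_le_right _ _) hly))
  · intro y hy hy1 hy2
    have hly : 0 ≤ Real.log y := Real.log_nonneg (by linarith)
    refine le_trans ?_ (p3 y hy ((mC C4 e4).trans hy1)
      (hy2.trans (mul_le_mul_of_nonneg_right (min_le_right _ _) hly)))
    apply mul_le_mul_of_nonneg_right _ hly
    apply div_le_div_of_nonneg_right _ hL0.le
    exact mul_le_mul_of_nonneg_right (min_le_right _ _) hr.le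

end Pool.Agent.H76.SC
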